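import Pool.Agent.HSK.Orb

/-!
# HSK/Dc: at most two double cosets outside of the normalizer
-/

set_option autoImplicit false

noncomputable section

namespace Pool.Agent.HSK

open Matrix
open scoped MatrixGroups commutatorElement

variable {Γ Δ : Subgroup PSL(2, ℂ)} {k : Subfield ℂ}

theorem ND.norm_inv (h : ND Γ Δ k) {δ : PSL(2, ℂ)} (hδ : δ ∈ Δ) (hall : ∀ x ∈ Γ, δ⁻¹ * x * δ ∈ Γ) :
    ∀ x ∈ Γ, δ * x * δ⁻¹ ∈ Γ := by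
  obtain ⟨n, hn, hnΓ⟩ := h.pow_mem hδ
  have hiter : ∀ (j : ℕ), ∀ x ∈ Γ, (δ ^ j)⁻¹ * x * δ ^ j ∈ Γ := by
    intro j
    induction j with
    | zero =>
      intro x hx
      rw [pow_zero, inv_one, one_mul, mul_one]
      exact hx
    | succ j ih =>
      intro x hx
      have h1 : (δ ^ (j + 1))⁻¹ * x * δ ^ (j + 1) = δ⁻¹ * ((δ ^ j)⁻¹ * x * δ ^ j) * δ := by
        rw [pow_succ]
        group
      rw [h1]
      exact hall _ (ih x hx)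
  intro x hx
  obtain ⟨m, rfl⟩ : ∃ m, n = m + 1 := ⟨n - 1, by omega⟩
  have h1 := hiter m _ (Γ.mul_mem (Γ.mul_mem hnΓ hx) (Γ.inv_mem hnΓ))
  have h2 : (δ ^ m)⁻¹ * (δ ^ (m + 1) * x * (δ ^ (m + 1))⁻¹) * δ ^ m = δ * x * δ⁻¹ := by
    rw [pow_succ]
    group
  rwa [h2] at h1

theorem real_unit {b : ℂ} (hn : ‖b‖ = 1) (him : b.im = 0) : b = 1 ∨ b = -1 := by
  by_contra hcon
  push Not at hcon
  exact im_ne hn hcon.1 hcon.2 him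

/-- an element of `Δ` which does not normalise `Γ` is, up to `Γ` on both sides, a rotation at the cusp -/
theorem ND.exists_turn (h : ND Γ Δ k) {δ : PSL(2, ℂ)} (hδ : δ ∈ Δ) (hn : ¬ ∀ x ∈ Γ, δ * x * δ⁻¹ ∈ Γ) :
    ∃ B : SL(2, ℂ), B.1 1 0 = 0 ∧ cls B ∈ Δ ∧ (B.1 0 0 ^ 2).im ≠ 0 ∧ ∃ γ ∈ Γ, ∃ γ' ∈ Γ, cls B = γ * δ * γ' := by
  by_contra hcon
  have hcon2 : ∀ B : SL(2, ℂ), B.1 1 0 = 0 → cls B ∈ Δ → (∃ γ ∈ Γ, ∃ γ' ∈ Γ, cls B = γ * δ * γ') →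
      (B.1 0 0 ^ 2).im = 0 := by
    intro B hB hBΔ hBd
    by_contra hne
    exact hcon ⟨B, hB, hBΔ, hne, hBd⟩
  refine hn (h.norm_inv hδ ?_)
  refine ngen_induction h.mem h.gen (fun x => δ⁻¹ * x * δ ∈ Γ) ?_ ?_ ?_ ?_
  · intro γ hγ
    show δ⁻¹ * (γ * t 1 * γ⁻¹) * δ ∈ Γ
    set δ' := γ⁻¹ * δ with hδ'
    have hδ'Δ : δ' ∈ Δ := Δ.mul_mem (Δ.inv_mem (h.le hγ)) hδ
    obtain ⟨γ1, hγ1, C, hC, hC2⟩ := h.up (Δ.inv_mem hδ'Δ)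
    obtain ⟨u1, u2⟩ := up_inv hC
    have hCΔ : cls C ∈ Δ := by
      rw [hC2]
      exact Δ.mul_mem (h.le hγ1) (Δ.inv_mem hδ'Δ)
    have him := hcon2 C⁻¹ u1 (by rw [cls_inv]; exact Δ.inv_mem hCΔ)
      ⟨γ⁻¹, Γ.inv_mem hγ, γ1⁻¹, Γ.inv_mem hγ1, by
        rw [cls_inv, hC2, hδ']
        group⟩
    have hnC := h.norm u1 (by rw [cls_inv]; exact Δ.inv_mem hCΔ)
    have hpm := real_unit hnC him
    have hpm2 : C.1 0 0 ^ 2 = 1 ∨ C.1 0 0 ^ 2 = -1 := by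
      rw [u2] at hpm
      have h8 := up_mul hC
      rcases hpm with h9 | h9
      · left
        have h10 : (C.1 0 0 * C.1 1 1) ^ 2 = 1 := by rw [h8]; norm_num
        rw [mul_pow, h9, mul_one] at h10
        exact h10
      · right
        have h10 : (C.1 0 0 * C.1 1 1) ^ 2 = 1 := by rw [h8]; norm_num
        rw [mul_pow, h9] at h10
        linear_combination -h10
    have h1 : δ⁻¹ * (γ * t 1 * γ⁻¹) * δ = γ1⁻¹ * (cls C * t 1 * (cls C)⁻¹) * γ1 := by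
      rw [hC2, hδ']
      group
    rw [h1, t_conj hC, mul_one]
    refine Γ.mul_mem (Γ.mul_mem (Γ.inv_mem hγ1) ?_) hγ1
    rcases hpm2 with h9 | h9
    · rw [h9]
      exact h.mem
    · rw [h9, t_neg]
      exact Γ.inv_mem h.mem
  · show δ⁻¹ * 1 * δ ∈ Γ
    have h1 : δ⁻¹ * 1 * δ = 1 := by group
    rw [h1]
    exact Γ.one_mem
  · intro x _ y _ hx hy
    show δ⁻¹ * (x * y) * δ ∈ Γ
    have h1 : δ⁻¹ * (x * y) * δ = (δ⁻¹ * x * δ) * (δ⁻¹ * y * δ) := by group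
    rw [h1]
    exact Γ.mul_mem hx hy
  · intro x _ hx
    show δ⁻¹ * x⁻¹ * δ ∈ Γ
    have h1 : δ⁻¹ * x⁻¹ * δ = (δ⁻¹ * x * δ)⁻¹ := by group
    rw [h1]
    exact Γ.inv_mem hx

/-- the form of the multipliers -/
theorem quad_of {b : ℂ} (him : b.im ≠ 0)
    (h : b = 1 ∨ b = -1 ∨ b ^ 2 + 1 = 0 ∨ b ^ 2 + b + 1 = 0 ∨ b ^ 2 - b + 1 = 0) :
    ∃ c : ℤ, |c| ≤ 1 ∧ b ^ 2 - c * b + 1 = 0 := by
  rcases h with h | h | h | h | h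
  · rw [h] at him
    exact absurd Complex.one_im him
  · rw [h] at him
    simp at him
  · exact ⟨0, by norm_num, by push_cast; linear_combination h⟩
  · exact ⟨-1, by norm_num, by push_cast; linear_combination h⟩
  · exact ⟨1, by norm_num, by push_cast; linear_combination h⟩

/-- the rotations with the same multiplier lie in the same double coset -/
theorem ND.same_coset (h : ND Γ Δ k) {z : ℂ} (hz : z ∈ Mu Δ) (hL : ∀ β, t β ∈ Δ → ∃ x y : ℤ, β = x + y * z)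
    {B B' : SL(2, ℂ)}
    (hB : B.1 1 0 = 0) (hBΔ : cls B ∈ Δ) (hB' : B'.1 1 0 = 0) (hB'Δ : cls B' ∈ Δ)
    (hbb : B'.1 0 0 ^ 2 = B.1 0 0 ^ 2) (him : (B.1 0 0 ^ 2).im ≠ 0) :
    ∃ γ ∈ Γ, ∃ γ' ∈ Γ, cls B' = γ * cls B * γ' := by
  obtain ⟨β, hβ⟩ := same_t hB' hB hbb
  have hβΔ : t β ∈ Δ := by
    have h1 : t β = cls B' * (cls B)⁻¹ := by rw [hβ]; group
    rw [h1]
    exact Δ.mul_mem hB'Δ (Δ.inv_mem hBΔ)
  have hmu : B.1 0 0 ^ 2 ∈ Mu Δ := ⟨B, hB, hBΔ, rfl⟩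
  obtain ⟨u, v, huv⟩ := h.mu_span hmu hz (by
    intro h1
    rw [h1] at him
    exact him Complex.one_im) (by
    intro h1
    rw [h1] at him
    simp at him)
  obtain ⟨x0, y0, hxy0⟩ := hL β hβΔ
  obtain ⟨x, y, hxy⟩ : ∃ x y : ℤ, β = x + y * B.1 0 0 ^ 2 :=
    ⟨x0 + y0 * u, y0 * v, by rw [hxy0, huv]; push_cast; ring⟩
  refine ⟨t (x : ℂ), ?_, t (y : ℂ), ?_, ?_⟩
  · rw [← t_one_pow]
    exact Γ.zpow_mem h.mem _
  · rw [← t_one_pow]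
    exact Γ.zpow_mem h.mem _
  · have h1 := t_conj hB (y : ℂ)
    have h2 : β = x + B.1 0 0 ^ 2 * y := by rw [hxy]; ring
    rw [hβ, h2, t_add, ← h1]
    group

theorem dc_symm {S : Subgroup PSL(2, ℂ)} {x y : PSL(2, ℂ)} (h : ∃ γ ∈ S, ∃ γ' ∈ S, x = γ * y * γ') :
    ∃ γ ∈ S, ∃ γ' ∈ S, y = γ * x * γ' := by
  obtain ⟨a, ha, b, hb, hab⟩ := h
  refine ⟨a⁻¹, S.inv_mem ha, b⁻¹, S.inv_mem hb, ?_⟩
  rw [hab]
  group

theorem dc_trans {S : Subgroup PSL(2, ℂ)} {x y z : PSL(2, ℂ)} (h : ∃ γ ∈ S, ∃ γ' ∈ S, x = γ * y * γ')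
    (h' : ∃ γ ∈ S, ∃ γ' ∈ S, y = γ * z * γ') : ∃ γ ∈ S, ∃ γ' ∈ S, x = γ * z * γ' := by
  obtain ⟨a, ha, b, hb, hab⟩ := h
  obtain ⟨a', ha', b', hb', hab'⟩ := h'
  refine ⟨a * a', S.mul_mem ha ha', b' * b, S.mul_mem hb' hb, ?_⟩
  rw [hab, hab']
  group

/-- there is a rotation with multiplier in the upper half plane -/
theorem ND.exists_pos (h : ND Γ Δ k) (htf : ∀ g ∈ Γ, ∀ n : ℕ, 0 < n → g ^ n = 1 → g = 1) {δ : PSL(2, ℂ)}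
    (hδ : δ ∈ Δ) (hn : ¬ ∀ x ∈ Γ, δ * x * δ⁻¹ ∈ Γ) :
    ∃ B : SL(2, ℂ), B.1 1 0 = 0 ∧ cls B ∈ Δ ∧ 0 < (B.1 0 0 ^ 2).im ∧ ∃ γ ∈ Γ, ∃ γ' ∈ Γ, δ = γ * cls B * γ' := by
  obtain ⟨B, hB, hBΔ, him, hBδ⟩ := h.exists_turn hδ hn
  rcases lt_or_gt_of_ne him with h1 | h1
  · obtain ⟨C, hC, hCΔ, hsgn, hCB⟩ := h.opp htf hB hBΔ him
    refine ⟨C, hC, hCΔ, ?_, dc_symm (dc_trans hCB hBδ)⟩
    by_contra hle
    push Not at hle
    have := mul_nonneg_of_nonpos_of_nonpos hle h1.le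
    linarith
  · exact ⟨B, hB, hBΔ, h1, dc_symm hBδ⟩

theorem eq_of_quad {b b' : ℂ} {c : ℝ} (hb : b ^ 2 - c * b + 1 = 0) (hb' : b' ^ 2 - c * b' + 1 = 0)
    (h1 : 0 < b.im) (h2 : 0 < b'.im) : b = b' := by
  have h3 : (b - b') * (b + b' - c) = 0 := by linear_combination hb - hb'
  rcases mul_eq_zero.1 h3 with h4 | h4
  · linear_combination h4
  · exfalso
    have h5 := congrArg Complex.im h4
    simp at h5
    linarith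

/-- the double cosets -/
theorem ND.cosets (h : ND Γ Δ k) (htf : ∀ g ∈ Γ, ∀ n : ℕ, 0 < n → g ^ n = 1 → g = 1)
    {z : ℂ} {n : ℕ} (hzM : z ∈ Mu Δ) (hL : ∀ β, t β ∈ Δ → ∃ x y : ℤ, β = x + y * z)
    (hzj : ∀ a ∈ Mu Δ, ∃ j : ℕ, j < n ∧ a = z ^ j)
    (htype : (n = 4 ∧ z ^ 2 + 1 = 0) ∨ (n = 3 ∧ z ^ 2 + z + 1 = 0) ∨ (n = 6 ∧ z ^ 2 - z + 1 = 0)) :
    ∃ δ₁ ∈ Δ, ∃ δ₂ ∈ Δ, (n ≠ 6 → δ₁ = δ₂) ∧ ∀ δ ∈ Δ, (¬ ∀ x ∈ Γ, δ * x * δ⁻¹ ∈ Γ) →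
      (∃ γ ∈ Γ, ∃ γ' ∈ Γ, δ = γ * δ₁ * γ') ∨ (∃ γ ∈ Γ, ∃ γ' ∈ Γ, δ = γ * δ₂ * γ') := by
  -- an element for each trace
  have hone : ∀ c : ℝ, ∃ δ₁ ∈ Δ, ∀ B : SL(2, ℂ), B.1 1 0 = 0 → cls B ∈ Δ → 0 < (B.1 0 0 ^ 2).im →
      (B.1 0 0 ^ 2) ^ 2 - c * B.1 0 0 ^ 2 + 1 = 0 → ∃ γ ∈ Γ, ∃ γ' ∈ Γ, cls B = γ * δ₁ * γ' := by
    intro c
    by_cases hex : ∃ C : SL(2, ℂ), C.1 1 0 = 0 ∧ cls C ∈ Δ ∧ 0 < (C.1 0 0 ^ 2).im ∧
        (C.1 0 0 ^ 2) ^ 2 - c * C.1 0 0 ^ 2 + 1 = 0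
    · obtain ⟨C, hC, hCΔ, hCim, hCq⟩ := hex
      refine ⟨cls C, hCΔ, fun B hB hBΔ hBim hBq => ?_⟩
      exact h.same_coset hzM hL hC hCΔ hB hBΔ (eq_of_quad hBq hCq hBim hCim) hCim.ne'
    · exact ⟨1, Δ.one_mem, fun B hB hBΔ hBim hBq => absurd ⟨B, hB, hBΔ, hBim, hBq⟩ hex⟩
  -- the possible traces
  have hmu : ∀ B : SL(2, ℂ), B.1 1 0 = 0 → cls B ∈ Δ → 0 < (B.1 0 0 ^ 2).im →
      (n = 4 ∧ (B.1 0 0 ^ 2) ^ 2 - (0 : ℝ) * B.1 0 0 ^ 2 + 1 = 0) ∨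
      (n = 3 ∧ (B.1 0 0 ^ 2) ^ 2 - (-1 : ℝ) * B.1 0 0 ^ 2 + 1 = 0) ∨
      (n = 6 ∧ ((B.1 0 0 ^ 2) ^ 2 - (-1 : ℝ) * B.1 0 0 ^ 2 + 1 = 0 ∨
        (B.1 0 0 ^ 2) ^ 2 - (1 : ℝ) * B.1 0 0 ^ 2 + 1 = 0)) := by
    intro B hB hBΔ hBim
    obtain ⟨j, hj, hjb⟩ := hzj _ ⟨B, hB, hBΔ, rfl⟩
    rw [hjb] at hBim ⊢
    rcases htype with ⟨rfl, hz⟩ | ⟨rfl, hz⟩ | ⟨rfl, hz⟩
    · left
      refine ⟨rfl, ?_⟩
      push_cast
      interval_cases j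
      · rw [pow_zero, Complex.one_im] at hBim
        exact absurd hBim (lt_irrefl _)
      · linear_combination hz
      · have h1 : z ^ 2 = -1 := by linear_combination hz
        rw [h1, Complex.neg_im, Complex.one_im, neg_zero] at hBim
        exact absurd hBim (lt_irrefl _)
      · linear_combination (z ^ 4 - z ^ 2 + 1) * hz
    · right
      left
      refine ⟨rfl, ?_⟩
      push_cast
      interval_cases j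
      · rw [pow_zero, Complex.one_im] at hBim
        exact absurd hBim (lt_irrefl _)
      · linear_combination hz
      · linear_combination (z ^ 2 - z + 1) * hz
    · right
      right
      refine ⟨rfl, ?_⟩
      push_cast
      have hz3 : z ^ 3 = -1 := by linear_combination (z + 1) * hz
      interval_cases j
      · rw [pow_zero, Complex.one_im] at hBim
        exact absurd hBim (lt_irrefl _)
      · right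
        linear_combination hz
      · left
        linear_combination (z ^ 2 + z + 1) * hz
      · rw [hz3, Complex.neg_im, Complex.one_im, neg_zero] at hBim
        exact absurd hBim (lt_irrefl _)
      · left
        have h1 : z ^ 4 = -z := by linear_combination z * hz3
        rw [h1]
        linear_combination hz
      · right
        have h1 : z ^ 5 = -z ^ 2 := by linear_combination z ^ 2 * hz3
        rw [h1]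
        linear_combination (z ^ 2 + z + 1) * hz
  obtain ⟨e0, he0, he0'⟩ := hone 0
  obtain ⟨e1, he1, he1'⟩ := hone (-1)
  obtain ⟨e2, he2, he2'⟩ := hone 1
  rcases htype with ⟨hn, hz⟩ | ⟨hn, hz⟩ | ⟨hn, hz⟩
  · refine ⟨e0, he0, e0, he0, fun _ => rfl, fun δ hδ hnn => ?_⟩
    obtain ⟨B, hB, hBΔ, hBim, hBδ⟩ := h.exists_pos htf hδ hnn
    rcases hmu B hB hBΔ hBim with ⟨-, h1⟩ | ⟨h1, -⟩ | ⟨h1, -⟩
    · exact Or.inl (dc_trans hBδ (he0' B hB hBΔ hBim h1))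
    · omega
    · omega
  · refine ⟨e1, he1, e1, he1, fun _ => rfl, fun δ hδ hnn => ?_⟩
    obtain ⟨B, hB, hBΔ, hBim, hBδ⟩ := h.exists_pos htf hδ hnn
    rcases hmu B hB hBΔ hBim with ⟨h1, -⟩ | ⟨-, h1⟩ | ⟨h1, -⟩
    · omega
    · exact Or.inl (dc_trans hBδ (he1' B hB hBΔ hBim h1))
    · omega
  · refine ⟨e1, he1, e2, he2, fun h1 => absurd hn h1, fun δ hδ hnn => ?_⟩
    obtain ⟨B, hB, hBΔ, hBim, hBδ⟩ := h.exists_pos htf hδ hnn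
    rcases hmu B hB hBΔ hBim with ⟨h1, -⟩ | ⟨h1, -⟩ | ⟨-, h1 | h1⟩
    · omega
    · omega
    · exact Or.inl (dc_trans hBδ (he1' B hB hBΔ hBim h1))
    · exact Or.inr (dc_trans hBδ (he2' B hB hBΔ hBim h1))

end Pool.Agent.HSK
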