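import Pool.Agent.HSK.Conj2
import Pool.Agent.HSK.Dc

/-!
# HSK/Conj3: the main theorem
-/

set_option autoImplicit false

noncomputable section

namespace Pool.Agent.HSK

open Matrix
open scoped MatrixGroups commutatorElement Pointwise

/-- the elements of `Δ` which commute with `μ` are products of such conjugates of `μ` in `Δ` -/
def MeridianGenerates (Δ : Subgroup PSL(2, ℂ)) (μ : PSL(2, ℂ)) : Prop :=
  ∀ g ∈ Δ, Commute g μ → g ∈ Subgroup.closure {x | (∃ δ ∈ Δ, x = δ * μ * δ⁻¹) ∧ Commute x μ}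

/-- the rotation group of `Δ` at the fixed point of `μ` has order `n` -/
def IsCuspOrder (Δ : Subgroup PSL(2, ℂ)) (μ : PSL(2, ℂ)) (n : ℕ) : Prop :=
  (∃ δ ∈ Δ, Commute (δ * μ * δ⁻¹) μ ∧ orderOf δ = n) ∧ ∀ δ ∈ Δ, Commute (δ * μ * δ⁻¹) μ → Commute (δ ^ n) μ

section

variable {Γ Δ : Subgroup PSL(2, ℂ)} {k : Subfield ℂ} {μ : PSL(2, ℂ)}

theorem ND.cuspOrder (_h : ND Γ Δ k) {z : ℂ} {n : ℕ} (hn : 0 < n) (hz : z ∈ Mu Δ)
    (hzj : ∀ a ∈ Mu Δ, ∃ j : ℕ, j < n ∧ a = z ^ j) (hz1 : ∀ j : ℕ, 0 < j → j < n → z ^ j ≠ 1)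
    (hzn : z ^ n = 1) (hzne : z ≠ 1) : IsCuspOrder Δ (t 1) n := by
  obtain ⟨A, hA, hAΔ, hAz⟩ := hz
  constructor
  · refine ⟨cls A, hAΔ, ?_, ?_⟩
    · rw [t_conj hA]
      exact t_comm _ _
    · rw [orderOf_eq_iff hn]
      constructor
      · obtain ⟨h1, h2⟩ := pow_up hA n
        obtain ⟨β, hβ⟩ := up_pm h1 (by rw [h2, ← pow_mul, mul_comm, pow_mul, hAz, hzn])
        have h3 := t_conj hA β
        rw [← hβ, cls_pow] at h3
        have h4 : cls A * cls A ^ n * (cls A)⁻¹ = cls A ^ n := by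
          rw [← pow_succ', pow_succ, mul_inv_cancel_right]
        rw [h4, ← cls_pow, hβ, hAz] at h3
        have h5 := t_inj h3
        have h6 : (z - 1) * β = 0 := by linear_combination -h5
        rcases mul_eq_zero.1 h6 with h7 | h7
        · exact absurd (by linear_combination h7) hzne
        · rw [h7, t_zero, cls_pow] at hβ
          exact hβ
      · intro m hmn hm0 hm1
        obtain ⟨-, h2⟩ := pow_up hA m
        refine hz1 m hm0 hmn ?_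
        rw [← cls_pow, ← cls_one, cls_eq] at hm1
        have h9 : ((A ^ m).1 0 0) ^ 2 = 1 := by
          rcases hm1 with hm1 | hm1
          · rw [hm1]
            simp
          · rw [hm1]
            simp
        rw [h2] at h9
        rw [← hAz, ← pow_mul, mul_comm, pow_mul]
        exact h9
  · intro δ hδ hc
    obtain ⟨B, rfl⟩ := cls_surj δ
    have hB := up_of_comm hc
    obtain ⟨j, -, hj⟩ := hzj _ ⟨B, hB, hδ, rfl⟩
    obtain ⟨h1, h2⟩ := pow_up hB n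
    obtain ⟨β, hβ⟩ := up_pm h1 (by
      rw [h2, ← pow_mul, mul_comm, pow_mul, hj, ← pow_mul, mul_comm, pow_mul, hzn, one_pow])
    rw [← cls_pow, hβ]
    exact t_comm _ _

/-- for a rotation group of order three or four the parabolic elements generate -/
theorem ND.full (h : ND Γ Δ k) {z : ℂ} {n : ℕ} (hzj : ∀ a ∈ Mu Δ, ∃ j : ℕ, j < n ∧ a = z ^ j)
    (htype : (n = 4 ∧ z ^ 2 + 1 = 0) ∨ (n = 3 ∧ z ^ 2 + z + 1 = 0) ∨ (n = 6 ∧ z ^ 2 - z + 1 = 0))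
    (hn6 : n ≠ 6) : cuspGen Δ (t 1) = Δ := by
  obtain ⟨B, hB, hBD, h1, h2⟩ := h.exists_rotD
  obtain ⟨i, hi, hib⟩ := hzj _ ⟨B, hB, cuspGen_le hBD, rfl⟩
  rcases htype with ⟨rfl, hz⟩ | ⟨rfl, hz⟩ | ⟨rfl, hz⟩
  · have hz2 : z ^ 2 = -1 := by linear_combination hz
    refine h.of_up fun A hA hAΔ => ?_
    obtain ⟨j, hj, hja⟩ := hzj _ ⟨A, hA, hAΔ, rfl⟩
    interval_cases i
    · exact absurd (by rw [hib, pow_zero]) h1
    · exact of_pow hA hAΔ hB hBD j (by rw [hja, hib, pow_one])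
    · exact absurd (by rw [hib, hz2]) h2
    · refine of_pow hA hAΔ hB hBD (3 * j) ?_
      rw [hja, hib, ← pow_mul]
      have h5 : z ^ (3 * (3 * j)) = (z ^ 2) ^ (4 * j) * z ^ j := by rw [← pow_mul, ← pow_add]; congr 1; ring
      have h6 : (z ^ 2) ^ (4 * j) = 1 := by
        rw [hz2, pow_mul]
        norm_num
      rw [h5, h6, one_mul]
  · have hz3 : z ^ 3 = 1 := by linear_combination (z - 1) * hz
    refine h.of_up fun A hA hAΔ => ?_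
    obtain ⟨j, hj, hja⟩ := hzj _ ⟨A, hA, hAΔ, rfl⟩
    interval_cases i
    · exact absurd (by rw [hib, pow_zero]) h1
    · exact of_pow hA hAΔ hB hBD j (by rw [hja, hib, pow_one])
    · refine of_pow hA hAΔ hB hBD (2 * j) ?_
      rw [hja, hib, ← pow_mul]
      have h5 : z ^ (2 * (2 * j)) = (z ^ 3) ^ j * z ^ j := by rw [← pow_mul, ← pow_add]; congr 1; ring
      rw [h5, hz3, one_pow, one_mul]
  · exact absurd rfl hn6

theorem ND.fieldOf (h : ND Γ Δ k) {z : ℂ} {n : ℕ} (hzj : ∀ a ∈ Mu Δ, ∃ j : ℕ, j < n ∧ a = z ^ j)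
    (htype : (n = 4 ∧ z ^ 2 + 1 = 0) ∨ (n = 3 ∧ z ^ 2 + z + 1 = 0) ∨ (n = 6 ∧ z ^ 2 - z + 1 = 0)) :
    (n ≠ 4 → ∃ s ∈ k, s ^ 2 = -3) ∧ (n = 4 → ∃ s ∈ k, s ^ 4 = -1) := by
  obtain ⟨A0, hA0, hc0⟩ := h.exists_base
  have hs := inK_of_trace h.mem h.tr hA0 hc0
  obtain ⟨B, hB, hBD, h1, h2⟩ := h.exists_rotD
  have hk : B.1 0 0 ∈ k := inP_up (h.D_InP hs hBD) hB
  have hk2 : B.1 0 0 ^ 2 ∈ k := k.pow_mem hk 2
  have h2k : (2 : ℂ) ∈ k := by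
    have := natCast_mem k 2
    simpa using this
  obtain ⟨i, hi, hib⟩ := hzj _ ⟨B, hB, cuspGen_le hBD, rfl⟩
  have hq := h.cryst hB (cuspGen_le hBD)
  set b := B.1 0 0 ^ 2 with hb
  have hz12 : b ^ 2 + 1 = 0 → n = 4 := by
    intro h3
    rcases htype with ⟨h4, -⟩ | ⟨h4, hz⟩ | ⟨h4, hz⟩
    · exact h4
    · exfalso
      subst h4
      have hz3 : z ^ 3 = 1 := by linear_combination (z - 1) * hz
      have h5 : b ^ 3 = 1 := by rw [hib, ← pow_mul, mul_comm, pow_mul, hz3, one_pow]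
      have h6 : b = -1 := by linear_combination b * h3 - h5
      exact h2 h6
    · exfalso
      subst h4
      have hz6 : z ^ 6 = 1 := by linear_combination (z ^ 3 - 1) * (z + 1) * hz
      have h5 : b ^ 6 = 1 := by rw [hib, ← pow_mul, mul_comm, pow_mul, hz6, one_pow]
      have h6 : (2 : ℂ) = 0 := by linear_combination (b ^ 4 - b ^ 2 + 1) * h3 - h5
      norm_num at h6
  have hz4 : n = 4 → b ^ 2 + 1 = 0 := by
    intro h3
    subst h3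
    rcases htype with ⟨-, hz⟩ | ⟨h4, -⟩ | ⟨h4, -⟩
    · have h5 : (b - 1) * (b + 1) * (b ^ 2 + 1) = 0 := by
        have h6 : b ^ 4 = 1 := by
          rw [hib, ← pow_mul, mul_comm, pow_mul]
          have h7 : z ^ 4 = 1 := by linear_combination (z ^ 2 - 1) * hz
          rw [h7, one_pow]
        linear_combination h6
      rcases mul_eq_zero.1 h5 with h6 | h6
      · rcases mul_eq_zero.1 h6 with h7 | h7
        · exact absurd (by linear_combination h7) h1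
        · exact absurd (by linear_combination h7) h2
      · exact h6
    · omega
    · omega
  constructor
  · intro hn4
    rcases hq with h3 | h3 | h3 | h3 | h3
    · exact absurd h3 h1
    · exact absurd h3 h2
    · exact absurd (hz12 h3) hn4
    · refine ⟨2 * b + 1, k.add_mem (k.mul_mem h2k hk2) k.one_mem, ?_⟩
      linear_combination 4 * h3
    · refine ⟨2 * b - 1, k.sub_mem (k.mul_mem h2k hk2) k.one_mem, ?_⟩
      linear_combination 4 * h3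
  · intro hn4
    refine ⟨B.1 0 0, hk, ?_⟩
    have := hz4 hn4
    rw [hb] at this
    linear_combination (B.1 0 0 ^ 2 - 1) * 0 + this

/-- the multipliers do not depend on the coordinates -/
theorem mu_cj {p q : PSL(2, ℂ)} (hpq : p * t 1 * p⁻¹ = q * t 1 * q⁻¹) : Mu (cj p Δ) ⊆ Mu (cj q Δ) := by
  rintro a ⟨A, hA, hAΔ, rfl⟩
  obtain ⟨C, hC⟩ := cls_surj (q⁻¹ * p)
  have h1 : Commute (cls C) (t 1) := by
    rw [hC]
    show q⁻¹ * p * t 1 = t 1 * (q⁻¹ * p)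
    have h2 : q⁻¹ * p * t 1 = q⁻¹ * (p * t 1 * p⁻¹) * p := by group
    rw [h2, hpq]
    group
  obtain ⟨β, hβ⟩ := comm_t1 h1
  have hT : ∀ β, (T β).1 1 0 = 0 ∧ (T β).1 0 0 = 1 := fun β => by rw [T_coe]; simp
  obtain ⟨u1, u2⟩ := up_prod (hT β).1 hA
  obtain ⟨u3, u4⟩ := up_prod u1 (hT (-β)).1
  refine ⟨T β * A * T (-β), u3, ?_, ?_⟩
  · rw [mem_cj] at hAΔ ⊢
    have h2 : cls (T β * A * T (-β)) = t β * cls A * (t β)⁻¹ := by
      rw [cls_mul, cls_mul]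
      have h3 : cls (T (-β)) = (t β)⁻¹ := t_neg β
      rw [h3]
      rfl
    rw [h2, ← hβ, hC]
    have h4 : q * (q⁻¹ * p * cls A * (q⁻¹ * p)⁻¹) * q⁻¹ = p * cls A * p⁻¹ := by group
    rw [h4]
    exact hAΔ
  · rw [u4, u2, (hT _).2, (hT _).2, one_mul, mul_one]

theorem cuspOrder_cj {p : PSL(2, ℂ)} (hp : p * t 1 * p⁻¹ = μ) {n : ℕ} (h : IsCuspOrder (cj p Δ) (t 1) n) :
    IsCuspOrder Δ μ n := by
  obtain ⟨⟨δ, hδ, h1, h2⟩, h3⟩ := h
  constructor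
  · refine ⟨p * δ * p⁻¹, hδ, ?_, ?_⟩
    · have e0 : p * δ * p⁻¹ * μ * (p * δ * p⁻¹)⁻¹ = p * (δ * t 1 * δ⁻¹) * p⁻¹ := by
        rw [← hp]
        group
      rw [e0]
      conv_rhs => rw [← hp]
      exact comm_conj_iff.2 h1
    · rw [← h2]
      exact MulEquiv.orderOf_eq (MulAut.conj p) δ
  · intro ε hε hc
    have h4 := h3 (p⁻¹ * ε * p) (mem_cj' hε) (by
      rw [← comm_conj_iff (p := p), hp]
      have e0 : p * (p⁻¹ * ε * p * t 1 * (p⁻¹ * ε * p)⁻¹) * p⁻¹ = ε * μ * ε⁻¹ := by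
        rw [← hp]
        group
      rw [e0]
      exact hc)
    rw [← comm_conj_iff (p := p), hp] at h4
    have e1 : p * (p⁻¹ * ε * p) ^ n * p⁻¹ = ε ^ n := by
      rw [← conj_pow]
      congr 1
      group
    rwa [e1] at h4

theorem ND.mem_norm {p : PSL(2, ℂ)} (h : ND (cj p Γ) (cj p Δ) k) {δ : PSL(2, ℂ)} (hδ : δ ∈ Δ)
    (hnorm : ∀ x ∈ cj p Γ, (p⁻¹ * δ * p) * x * (p⁻¹ * δ * p)⁻¹ ∈ cj p Γ) :
    δ ∈ Subgroup.normalizer (Γ : Set PSL(2, ℂ)) := by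
  have hnorm2 := h.norm_inv (δ := (p⁻¹ * δ * p)⁻¹) (Subgroup.inv_mem _ (mem_cj' hδ)) (by
    intro x hx
    rw [inv_inv]
    exact hnorm x hx)
  rw [Subgroup.mem_normalizer_iff]
  intro x
  constructor
  · intro hx
    have h3 := hnorm _ (mem_cj' hx)
    rw [mem_cj] at h3
    have h4 : p * (p⁻¹ * δ * p * (p⁻¹ * x * p) * (p⁻¹ * δ * p)⁻¹) * p⁻¹ = δ * x * δ⁻¹ := by group
    rwa [h4] at h3
  · intro hx
    have h3 := hnorm2 _ (mem_cj' (p := p) hx)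
    rw [mem_cj] at h3
    have h4 : p * ((p⁻¹ * δ * p)⁻¹ * (p⁻¹ * (δ * x * δ⁻¹) * p) * ((p⁻¹ * δ * p)⁻¹)⁻¹) * p⁻¹ = x := by group
    rwa [h4] at h3

theorem dc_cj {p δ ε : PSL(2, ℂ)} (he : ∃ γ ∈ cj p Γ, ∃ γ' ∈ cj p Γ, p⁻¹ * δ * p = γ * ε * γ') :
    ∃ γ ∈ Γ, ∃ γ' ∈ Γ, δ = γ * (p * ε * p⁻¹) * γ' := by
  obtain ⟨γ, hγ, γ', hγ', he⟩ := he
  refine ⟨p * γ * p⁻¹, hγ, p * γ' * p⁻¹, hγ', ?_⟩
  have h3 : δ = p * (p⁻¹ * δ * p) * p⁻¹ := by group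
  rw [h3, he]
  group

theorem gen_cj {p : PSL(2, ℂ)} (hp : p * t 1 * p⁻¹ = μ) (hgen : MeridianGenerates Δ μ) :
    ∀ β, t β ∈ cj p Δ → t β ∈ Subgroup.closure {x | (∃ δ ∈ cj p Δ, x = δ * t 1 * δ⁻¹) ∧ Commute x (t 1)} := by
  intro β hβ
  have h1 := hgen _ (mem_cj.1 hβ) (by
    rw [← hp]
    exact comm_conj_iff.2 (t_comm _ _))
  have key : ∀ g ∈ Subgroup.closure {x | (∃ δ ∈ Δ, x = δ * μ * δ⁻¹) ∧ Commute x μ},
      p⁻¹ * g * p ∈ Subgroup.closure {x | (∃ δ ∈ cj p Δ, x = δ * t 1 * δ⁻¹) ∧ Commute x (t 1)} := by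
    intro g hg
    refine Subgroup.closure_induction (p := fun y _ => p⁻¹ * y * p ∈
      Subgroup.closure {x | (∃ δ ∈ cj p Δ, x = δ * t 1 * δ⁻¹) ∧ Commute x (t 1)}) ?_ ?_ ?_ ?_ hg
    · rintro _ ⟨⟨δ, hδ, rfl⟩, hc⟩
      refine Subgroup.subset_closure ⟨⟨p⁻¹ * δ * p, mem_cj' hδ, ?_⟩, ?_⟩
      · rw [← hp]
        group
      · rw [← comm_conj_iff (p := p), hp]
        have h3 : p * (p⁻¹ * (δ * μ * δ⁻¹) * p) * p⁻¹ = δ * μ * δ⁻¹ := by group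
        rw [h3]
        exact hc
    · have h3 : p⁻¹ * 1 * p = 1 := by group
      show p⁻¹ * 1 * p ∈ _
      rw [h3]
      exact Subgroup.one_mem _
    · intro y z _ _ hy hz
      have h3 : p⁻¹ * (y * z) * p = (p⁻¹ * y * p) * (p⁻¹ * z * p) := by group
      rw [h3]
      exact Subgroup.mul_mem _ hy hz
    · intro y _ hy
      have h3 : p⁻¹ * y⁻¹ * p = (p⁻¹ * y * p)⁻¹ := by group
      rw [h3]
      exact Subgroup.inv_mem _ hy
  have h2 := key _ h1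
  have h3 : p⁻¹ * (p * t β * p⁻¹) * p = t β := by group
  rwa [h3] at h2

/-- the main theorem -/
theorem main3 (hΓ : IsKnotGroup Γ μ) (h1 : Γ ≤ Δ) (h2 : Δ ≤ Subgroup.Commensurable.commensurator Γ)
    (hd : DiscreteTopology Δ) (hn : ¬ Δ ≤ Subgroup.normalizer (Γ : Set PSL(2, ℂ))) :
    ∃ n : ℕ, (n = 3 ∨ n = 4 ∨ n = 6) ∧ IsCuspOrder Δ μ n ∧
      (n ≠ 4 → ∃ s ∈ traceField Γ, s ^ 2 = -3) ∧
      (n = 4 → ∃ s ∈ traceField Γ, s ^ 4 = -1) ∧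
      (cuspGen Δ μ = Δ ∨ (n = 6 ∧ (cuspGen Δ μ).relIndex Δ = 2)) ∧
      (∀ A : SL(2, ℂ), cls A ∈ cuspGen Δ μ → A.1.trace ∈ traceField Γ) ∧
      (∀ δ ∈ Δ, Commute (δ * μ * δ⁻¹) μ → δ * μ * δ⁻¹ ≠ μ → δ * μ * δ⁻¹ ≠ μ⁻¹ → δ * μ * δ⁻¹ ∉ Γ) ∧
      (∀ δ ∈ Δ, δ ∈ Subgroup.normalizer (Γ : Set PSL(2, ℂ)) ∨
        ∃ r ∈ Δ, Commute (r * μ * r⁻¹) μ ∧ ¬ Commute (r ^ 2) μ ∧ ∃ γ ∈ Γ, ∃ γ' ∈ Γ, δ = γ * r * γ') ∧
      ((∀ A : SL(2, ℂ), cls A ∈ Γ → IsIntegral ℤ A.1.trace) → MeridianGenerates Δ μ) ∧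
      (MeridianGenerates Δ μ →
        (∀ s : ℂ, IsCuspShape Γ μ s → ∃ (z : ℂ) (x y : ℤ), IsPrimitiveRoot z n ∧ s = x + y * z ∧
          Γ.relIndex Δ = n * y.natAbs) ∧
        (∃ δ₁ ∈ Δ, ∃ δ₂ ∈ Δ, (n ≠ 6 → δ₁ = δ₂) ∧ ∀ δ ∈ Δ, δ ∈ Subgroup.normalizer (Γ : Set PSL(2, ℂ)) ∨
          (∃ γ ∈ Γ, ∃ γ' ∈ Γ, δ = γ * δ₁ * γ') ∨ (∃ γ ∈ Γ, ∃ γ' ∈ Γ, δ = γ * δ₂ * γ'))) := by
  obtain ⟨-, m2, m3, m4, m5⟩ := main2 hΓ h1 h2 hd hn
  obtain ⟨hμ1, M, hM, htr⟩ := hΓ.parabolic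
  have hM1 : M ≠ 1 := by
    rintro rfl
    exact hμ1 (by rw [← hM, cls_one])
  obtain ⟨P, hP⟩ := par_form htr hM1
  have hp : cls P * t 1 * (cls P)⁻¹ = μ := by
    rw [← hM]
    have h3 : cls M * cls P = cls P * t 1 := by
      show cls (M * P) = cls (P * T 1)
      rw [hP]
    rw [← h3]
    group
  have hsurj : ∀ (p : PSL(2, ℂ)) (S : Subgroup PSL(2, ℂ)), (cj p S).map (MulAut.conj p).toMonoidHom = S :=
    fun p S => Subgroup.map_comap_eq_self_of_surjective (MulAut.conj p).surjective S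
  have htfc : ∀ Q : SL(2, ℂ), ∀ g ∈ cj (cls Q) Γ, ∀ n : ℕ, 0 < n → g ^ n = 1 → g = 1 := by
    intro Q g hg n hn0 hgn
    have h3 : cls Q * g * (cls Q)⁻¹ = 1 := by
      refine hΓ.torsionFree _ hg n hn0 ?_
      rw [conj_pow, hgn]
      group
    have h4 : g = (cls Q)⁻¹ * (cls Q * g * (cls Q)⁻¹) * cls Q := by group
    rw [h4, h3]
    group
  have h := nd_of hΓ h1 h2 hd hn hp
  obtain ⟨z, n, hz, hzj, hz1, htype⟩ := h.type
  obtain ⟨hn346, hprim⟩ := type_prim htype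
  have hzne1 : z ≠ 1 := by
    rintro rfl
    rcases htype with ⟨-, h3⟩ | ⟨-, h3⟩ | ⟨-, h3⟩ <;> norm_num at h3
  have hzne2 : z ≠ -1 := by
    rintro rfl
    rcases htype with ⟨-, h3⟩ | ⟨-, h3⟩ | ⟨-, h3⟩ <;> norm_num at h3
  have hn0 : 0 < n := by omega
  have hn1 : 1 < n := by omega
  refine ⟨n, hn346, ?_, (h.fieldOf hzj htype).1, (h.fieldOf hzj htype).2, ?_, m3, m2.2, ?_, fun hint => (m5 hint).1, fun hMG => ⟨?_, ?_⟩⟩
  · exact cuspOrder_cj hp (h.cuspOrder hn0 hz hzj hz1 hprim.pow_eq_one (fun h0 => hz1 1 one_pos hn1 (by rw [pow_one, h0])))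
  · rcases m4 with h3 | ⟨h3, -⟩
    · exact Or.inl h3
    · by_cases h6 : n = 6
      · exact Or.inr ⟨h6, h3⟩
      · left
        have h4 := h.full hzj htype h6
        rw [cuspGen_cj hp] at h4
        rw [← hsurj (cls P) (cuspGen Δ μ), h4, hsurj]
  · intro δ hδ
    obtain ⟨p, hpd⟩ : ∃ p, p = cls P := ⟨_, rfl⟩
    rw [← hpd] at hp h
    by_cases hnorm : ∀ x ∈ cj p Γ, (p⁻¹ * δ * p) * x * (p⁻¹ * δ * p)⁻¹ ∈ cj p Γ
    · exact Or.inl (h.mem_norm hδ hnorm)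
    · right
      obtain ⟨B, hB, hBΔ, him, hBδ⟩ := h.exists_turn (mem_cj' hδ) hnorm
      refine ⟨p * cls B * p⁻¹, hBΔ, ?_, ?_, dc_cj (dc_symm hBδ)⟩
      · have e0 : p * cls B * p⁻¹ * μ * (p * cls B * p⁻¹)⁻¹ = p * (cls B * t 1 * (cls B)⁻¹) * p⁻¹ := by
          rw [← hp]
          group
        rw [e0]
        conv_rhs => rw [← hp]
        refine comm_conj_iff.2 ?_
        rw [t_conj hB]
        exact t_comm _ _
      · intro hc
        have e1 : (p * cls B * p⁻¹) ^ 2 = p * cls B ^ 2 * p⁻¹ := conj_pow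
        rw [e1] at hc
        conv_rhs at hc => rw [← hp]
        have hc2 := comm_conj_iff.1 hc
        have hc3 : cls B ^ 2 * t 1 * (cls B ^ 2)⁻¹ = t 1 := by
          rw [hc2.eq, mul_inv_cancel_right]
        obtain ⟨u1, u2⟩ := pow_up hB 2
        rw [← cls_pow, t_conj u1, u2] at hc3
        have h4 := t_inj hc3
        have h5 : (B.1 0 0 ^ 2) ^ 2 = 1 := by linear_combination h4
        rcases sq_one h5 with h6 | h6
        · rw [h6] at him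
          exact him Complex.one_im
        · rw [h6] at him
          simp at him
  · rintro s ⟨Q, hQ, hs, hgen⟩
    have h' := nd_of hΓ h1 h2 hd hn hQ
    have hPQ : cls P * t 1 * (cls P)⁻¹ = cls Q * t 1 * (cls Q)⁻¹ := hp.trans hQ.symm
    obtain ⟨x, y, e1, e2⟩ := h'.deg (htfc Q) (s := s) hs (fun β hβ => by
      obtain ⟨a, b, hab⟩ := hgen _ hβ (by
        rw [← hQ]
        exact comm_conj_iff.2 (t_comm _ _))
      refine ⟨a, b, t_inj ?_⟩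
      have h3 : t β = (cls Q)⁻¹ * (cls Q * t β * (cls Q)⁻¹) * cls Q := by group
      have h4 : cls Q * t β * (cls Q)⁻¹ = cls Q * t (a + b * s) * (cls Q)⁻¹ := hab
      rw [h3, h4]
      group) (z := z) (n := n) (mu_cj hPQ hz) (fun a ha => hzj a (mu_cj hPQ.symm ha)) hz1
      (h'.lattice_gen (gen_cj hQ hMG) (mu_cj hPQ hz) hzne1 hzne2)
    refine ⟨z, x, y, hprim, e1, ?_⟩
    have h4 := Subgroup.relIndex_map_map_of_injective (f := (MulAut.conj (cls Q)).toMonoidHom)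
      (cj (cls Q) Γ) (cj (cls Q) Δ) (MulAut.conj (cls Q)).injective
    rw [hsurj, hsurj] at h4
    rw [h4]
    exact e2
  · obtain ⟨δ₁, hδ₁, δ₂, hδ₂, h12, hall⟩ := h.cosets (htfc P) hz (h.lattice_gen (gen_cj hp hMG) hz hzne1 hzne2) hzj htype
    set p := cls P with hpd
    clear_value p
    refine ⟨p * δ₁ * p⁻¹, hδ₁, p * δ₂ * p⁻¹, hδ₂, fun h6 => by rw [h12 h6], fun δ hδ => ?_⟩
    by_cases hnorm : ∀ x ∈ cj p Γ, (p⁻¹ * δ * p) * x * (p⁻¹ * δ * p)⁻¹ ∈ cj p Γ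
    · exact Or.inl (h.mem_norm hδ hnorm)
    · right
      rcases hall _ (mem_cj' hδ) hnorm with h3 | h3
      · exact Or.inl (dc_cj h3)
      · exact Or.inr (dc_cj h3)

end

end Pool.Agent.HSK
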