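import Pool.Agent.HSK.Norm

/-!
# HSK/Concl: the conclusions in the normalised case
-/

set_option autoImplicit false

noncomputable section

namespace Pool.Agent.HSK

open Matrix
open scoped MatrixGroups commutatorElement

variable {Γ Δ : Subgroup PSL(2, ℂ)} {k : Subfield ℂ}

theorem up_pm {A : SL(2, ℂ)} (hA : A.1 1 0 = 0) (h : A.1 0 0 ^ 2 = 1) : ∃ β, cls A = t β := by
  have h1 := up_mul hA
  rcases sq_one h with h3 | h3
  · rw [h3, one_mul] at h1
    refine ⟨A.1 0 1, cls_eq.2 (Or.inl ?_)⟩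
    rw [T_coe]
    ext i j
    fin_cases i <;> fin_cases j
    · simpa using h3
    · rfl
    · simpa using hA
    · simpa using h1
  · refine ⟨-A.1 0 1, cls_eq.2 (Or.inr ?_)⟩
    have h4 : A.1 1 1 = -1 := by
      rw [h3] at h1
      linear_combination -h1
    rw [T_coe]
    ext i j
    fin_cases i <;> fin_cases j
    · simpa using h3
    · simp
    · simpa using hA
    · simpa using h4

/-- `Γ` does not fix the cusp -/
theorem ND.exists_base (h : ND Γ Δ k) : ∃ A : SL(2, ℂ), cls A ∈ Γ ∧ A.1 1 0 ≠ 0 := by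
  by_contra hcon
  push Not at hcon
  -- all conjugates of the meridian are translations, so all elements of `Γ` are
  have htr : ∀ x ∈ Γ, ∃ β, x = t β := by
    refine ngen_induction h.mem h.gen (fun x => ∃ β, x = t β) ?_ ?_ ?_ ?_
    · intro γ hγ
      obtain ⟨A, rfl⟩ := cls_surj γ
      exact ⟨_, t_conj (hcon A hγ) 1⟩
    · exact ⟨0, t_zero.symm⟩
    · rintro x _ y _ ⟨β, rfl⟩ ⟨β', rfl⟩
      exact ⟨β + β', (t_add _ _).symm⟩
    · rintro x _ ⟨β, rfl⟩
      exact ⟨-β, (t_neg _).symm⟩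
  have hz : ∀ x ∈ Γ, ∃ j : ℤ, x = t 1 ^ j := by
    refine ngen_induction h.mem h.gen (fun x => ∃ j : ℤ, x = t 1 ^ j) ?_ ?_ ?_ ?_
    · intro γ hγ
      obtain ⟨β, rfl⟩ := htr γ hγ
      refine ⟨1, ?_⟩
      have h1 : t β * t 1 = t 1 * t β := (t_comm β 1).eq
      rw [h1, zpow_one]
      group
    · exact ⟨0, by simp⟩
    · rintro x _ y _ ⟨i, rfl⟩ ⟨j, rfl⟩
      exact ⟨i + j, (_root_.zpow_add _ _ _).symm⟩
    · rintro x _ ⟨i, rfl⟩
      exact ⟨-i, (_root_.zpow_neg _ _).symm⟩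
  obtain ⟨τ, hτ, h1⟩ := h.rank
  obtain ⟨j, hj⟩ := hz _ hτ
  rw [t_one_pow] at hj
  have h2 := t_inj hj
  have h3 := (h1 (-j) 1 (by rw [h2]; push_cast; ring)).2
  exact one_ne_zero h3

/-- the translations lie in `k` -/
theorem ND.Lt_le (h : ND Γ Δ k) {s : ℂ} (hs : ∀ A, cls A ∈ Γ → InK k s A) {β : ℂ} (hβ : t β ∈ Δ) : β ∈ k := by
  have hτk : ∀ τ : ℂ, t τ ∈ Γ → τ ∈ k := by
    intro τ hτ
    obtain ⟨⟨-, h1⟩, -⟩ := inK_iff.1 (hs (T τ) hτ)
    rw [T_coe] at h1
    simpa using h1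
  obtain ⟨τ, hτ, him⟩ := h.tau
  obtain ⟨m, x, y, hm, hmxy⟩ := dep2 h.sep (u := 1) (v := τ) h.one_mem (h.le hτ)
    (by
      rw [Complex.one_re, Complex.one_im, one_mul, zero_mul, sub_zero]
      exact him) (β := β) hβ
  have hmC : (m : ℂ) ≠ 0 := Nat.cast_ne_zero.2 hm.ne'
  have h2 : β = (x * 1 + y * τ) / m := by
    rw [eq_div_iff hmC, ← hmxy]
    ring
  rw [h2]
  exact k.div_mem (k.add_mem (k.mul_mem (intCast_mem k x) k.one_mem) (k.mul_mem (intCast_mem k y) (hτk τ hτ)))
    (natCast_mem k m)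

theorem ND.D_InP (h : ND Γ Δ k) {s : ℂ} (hs : ∀ A, cls A ∈ Γ → InK k s A) {g : PSL(2, ℂ)}
    (hg : g ∈ cuspGen Δ (t 1)) : InP k s g := by
  have hΓ : ∀ x ∈ Γ, InP k s x := by
    intro x hx
    obtain ⟨A, rfl⟩ := cls_surj x
    exact ⟨A, rfl, hs A hx⟩
  unfold cuspGen at hg
  refine Subgroup.closure_induction (p := fun y _ => InP k s y) ?_ (inP_one k s) ?_ ?_ hg
  · rintro _ ⟨δ, hδ, x, hx, -, hx3, rfl⟩
    obtain ⟨X, rfl⟩ := cls_surj x
    obtain ⟨β, hβ⟩ := comm_t1 hx3
    obtain ⟨γ, hγ, A, hA, hA2⟩ := h.up hδ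
    have h1 : δ * cls X * δ⁻¹ = γ⁻¹ * t (A.1 0 0 ^ 2 * β) * γ := by
      rw [← t_conj hA, hA2, hβ]
      group
    rw [h1]
    have h2 : t (A.1 0 0 ^ 2 * β) ∈ Δ := by
      rw [← t_conj hA, hA2, ← hβ]
      exact Δ.mul_mem (Δ.mul_mem (Δ.mul_mem (h.le hγ) hδ) hx) (Δ.inv_mem (Δ.mul_mem (h.le hγ) hδ))
    exact inP_mul (inP_mul (inP_inv (hΓ γ hγ)) (inP_t s (h.Lt_le hs h2))) (hΓ γ hγ)
  · intro y z _ _ hy hz
    exact inP_mul hy hz
  · intro y _ hy
    exact inP_inv hy

/-- conclusion (1) -/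
theorem ND.roots (h : ND Γ Δ k) : (∃ s ∈ k, s ^ 2 = -3) ∨ (∃ s ∈ k, s ^ 4 = -1) := by
  obtain ⟨A0, hA0, hc0⟩ := h.exists_base
  have hs := inK_of_trace h.mem h.tr hA0 hc0
  obtain ⟨A, hA, hAD, h1, h2⟩ := h.exists_rotD
  have hk : A.1 0 0 ∈ k := inP_up (h.D_InP hs hAD) hA
  have hk2 : A.1 0 0 ^ 2 ∈ k := k.pow_mem hk 2
  have h2k : (2 : ℂ) ∈ k := by
    have := natCast_mem k 2
    simpa using this
  rcases h.cryst hA (cuspGen_le hAD) with h3 | h3 | h3 | h3 | h3
  · exact absurd h3 h1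
  · exact absurd h3 h2
  · right
    refine ⟨A.1 0 0, hk, ?_⟩
    linear_combination h3
  · left
    refine ⟨2 * A.1 0 0 ^ 2 + 1, k.add_mem (k.mul_mem h2k hk2) k.one_mem, ?_⟩
    linear_combination 4 * h3
  · left
    refine ⟨2 * A.1 0 0 ^ 2 - 1, k.sub_mem (k.mul_mem h2k hk2) k.one_mem, ?_⟩
    linear_combination 4 * h3

/-- conclusion (2) -/
theorem ND.moves (h : ND Γ Δ k) : ∃ δ ∈ Δ, Commute (δ * t 1 * δ⁻¹) (t 1) ∧ δ * t 1 * δ⁻¹ ∉ Γ := by
  obtain ⟨A, hA, hAΔ, h1⟩ := h.exists_rot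
  refine ⟨cls A, hAΔ, ?_, ?_⟩
  · rw [t_conj hA]
    exact t_comm _ _
  · rw [t_conj hA, mul_one]
    exact h1

/-- conclusion (3) -/
theorem ND.traces (h : ND Γ Δ k) {A : SL(2, ℂ)} (hA : cls A ∈ cuspGen Δ (t 1)) : A.1.trace ∈ k := by
  obtain ⟨A0, hA0, hc0⟩ := h.exists_base
  exact inP_trace (h.D_InP (inK_of_trace h.mem h.tr hA0 hc0) hA)

/-- elements with the same multiplier -/
theorem same_mult {A B : SL(2, ℂ)} (hA : A.1 1 0 = 0) (hAΔ : cls A ∈ Δ) (hB : B.1 1 0 = 0)
    (hBD : cls B ∈ cuspGen Δ (t 1)) (h : A.1 0 0 ^ 2 = B.1 0 0 ^ 2) : cls A ∈ cuspGen Δ (t 1) := by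
  obtain ⟨h1, h2⟩ := up_inv hB
  obtain ⟨h3, h4⟩ := up_prod hA h1
  have h5 : (A * B⁻¹).1 0 0 ^ 2 = 1 := by
    rw [h4, h2, mul_pow, h]
    have h6 := up_mul hB
    linear_combination (B.1 0 0 * B.1 1 1 + 1) * h6
  obtain ⟨β, hβ⟩ := up_pm h3 h5
  have h7 : cls A = t β * cls B := by
    rw [← hβ, cls_mul, cls_inv]
    group
  rw [h7]
  refine Subgroup.mul_mem _ (t_mem_cuspGen ?_) hBD
  rw [← hβ, cls_mul, cls_inv]
  exact Δ.mul_mem hAΔ (Δ.inv_mem (cuspGen_le hBD))

theorem up_one : (1 : SL(2, ℂ)).1 1 0 = 0 ∧ (1 : SL(2, ℂ)).1 0 0 = 1 := by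
  constructor <;> simp

theorem pow_up {A : SL(2, ℂ)} (hA : A.1 1 0 = 0) (n : ℕ) : (A ^ n).1 1 0 = 0 ∧ (A ^ n).1 0 0 = A.1 0 0 ^ n := by
  induction n with
  | zero =>
    rw [pow_zero, pow_zero]
    exact up_one
  | succ n ih =>
    rw [pow_succ]
    obtain ⟨h1, h2⟩ := up_prod ih.1 hA
    exact ⟨h1, by rw [h2, ih.2, pow_succ]⟩

theorem cls_pow (A : SL(2, ℂ)) (n : ℕ) : cls (A ^ n) = cls A ^ n := rfl

/-- a power of the multiplier of an element of `cuspGen` -/
theorem of_pow {A B : SL(2, ℂ)} (hA : A.1 1 0 = 0) (hAΔ : cls A ∈ Δ) (hB : B.1 1 0 = 0)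
    (hBD : cls B ∈ cuspGen Δ (t 1)) (n : ℕ) (h : A.1 0 0 ^ 2 = (B.1 0 0 ^ 2) ^ n) : cls A ∈ cuspGen Δ (t 1) := by
  obtain ⟨h1, h2⟩ := pow_up hB n
  refine same_mult hA hAΔ h1 (by rw [cls_pow]; exact Subgroup.pow_mem _ hBD n) ?_
  rw [h, h2]
  ring

theorem ND.of_up (h : ND Γ Δ k) (hup : ∀ A : SL(2, ℂ), A.1 1 0 = 0 → cls A ∈ Δ → cls A ∈ cuspGen Δ (t 1)) :
    cuspGen Δ (t 1) = Δ := by
  refine le_antisymm cuspGen_le fun g hg => ?_
  obtain ⟨γ, hγ, A, hA, hA2⟩ := h.up hg
  have h1 := hup A hA (by rw [hA2]; exact Δ.mul_mem (h.le hγ) hg)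
  rw [hA2] at h1
  have h2 : g = γ⁻¹ * (γ * g) := by group
  rw [h2]
  exact Subgroup.mul_mem _ (Subgroup.inv_mem _ (h.le_cuspGen hγ)) h1

/-- a rotation of order six -/
theorem order_six {A : SL(2, ℂ)} (hA : A.1 1 0 = 0) (hz : (A.1 0 0 ^ 2) ^ 2 - A.1 0 0 ^ 2 + 1 = 0) :
    orderOf (cls A) = 6 := by
  have h1 := up_mul hA
  set w := A.1 0 0 with hw
  have hw0 : w ≠ 0 := up_ne hA
  have hw3 : (w ^ 2) ^ 3 = -1 := by linear_combination (w ^ 2 + 1) * hz
  have htr : (w + A.1 1 1) ^ 2 = 3 := by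
    have h2 : (w ^ 2) * (A.1 1 1) ^ 2 = 1 := by linear_combination (w * A.1 1 1 + 1) * h1
    have h3 : w ^ 2 + A.1 1 1 ^ 2 = 1 := by
      have h4 : w ^ 2 * (w ^ 2 + A.1 1 1 ^ 2 - 1) = 0 := by linear_combination hz + h2
      rcases mul_eq_zero.1 h4 with h5 | h5
      · exact absurd h5 (pow_ne_zero 2 hw0)
      · linear_combination h5
    linear_combination h3 + 2 * h1
  -- Cayley-Hamilton
  set x := w + A.1 1 1 with hx
  have hCH : A.1 * A.1 = x • A.1 - 1 := by
    ext i j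
    fin_cases i <;> fin_cases j
    · simp only [Matrix.mul_apply, Fin.sum_univ_two, Matrix.sub_apply, Matrix.smul_apply, smul_eq_mul, Matrix.one_apply]
      simp only [Fin.zero_eta, Fin.isValue, if_true]
      rw [hA, ← hw, hx]
      linear_combination -h1
    · simp only [Matrix.mul_apply, Fin.sum_univ_two, Matrix.sub_apply, Matrix.smul_apply, smul_eq_mul, Matrix.one_apply]
      simp only [Fin.zero_eta, Fin.mk_one, Fin.isValue, zero_ne_one, if_false]
      rw [← hw, hx]
      ring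
    · simp only [Matrix.mul_apply, Fin.sum_univ_two, Matrix.sub_apply, Matrix.smul_apply, smul_eq_mul, Matrix.one_apply]
      simp only [Fin.zero_eta, Fin.mk_one, Fin.isValue, one_ne_zero, if_false]
      rw [hA]
      ring
    · simp only [Matrix.mul_apply, Fin.sum_univ_two, Matrix.sub_apply, Matrix.smul_apply, smul_eq_mul, Matrix.one_apply]
      simp only [Fin.mk_one, Fin.isValue, if_true]
      rw [hA, hx]
      linear_combination -h1
  have h3 : A.1 ^ 3 = (2 : ℂ) • A.1 - x • (1 : Matrix (Fin 2) (Fin 2) ℂ) := by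
    have h4 : A.1 ^ 3 = (A.1 * A.1) * A.1 := by rw [pow_succ, pow_two]
    rw [h4, hCH, Matrix.sub_mul, Matrix.one_mul, Matrix.smul_mul, hCH, smul_sub, smul_smul]
    have h5 : x * x = 3 := by rw [← htr]; ring
    rw [h5]
    module
  have h6 : A.1 ^ 6 = -1 := by
    have h4 : A.1 ^ 6 = A.1 ^ 3 * A.1 ^ 3 := by rw [← pow_add]
    rw [h4, h3, Matrix.sub_mul, Matrix.mul_sub, Matrix.mul_sub]
    simp only [Matrix.smul_mul, Matrix.mul_smul, Matrix.mul_one, Matrix.one_mul]
    rw [hCH]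
    simp only [smul_sub, smul_smul]
    have h5 : x * x = 3 := by rw [← htr]; ring
    rw [h5]
    module
  have h6' : cls A ^ 6 = 1 := by
    rw [← cls_pow, ← cls_one, cls_eq]
    right
    rw [Matrix.SpecialLinearGroup.coe_pow, h6, Matrix.SpecialLinearGroup.coe_one]
  refine orderOf_eq_of_pow_and_pow_div_prime (by norm_num) h6' ?_
  intro p hp hp6
  have hp' : p = 2 ∨ p = 3 := by
    have h7 : p ∣ 2 * 3 := by simpa using hp6
    rcases (Nat.Prime.dvd_mul hp).1 h7 with h8 | h8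
    · exact Or.inl ((Nat.prime_dvd_prime_iff_eq hp Nat.prime_two).1 h8)
    · exact Or.inr ((Nat.prime_dvd_prime_iff_eq hp Nat.prime_three).1 h8)
  have hkey : ∀ n : ℕ, cls A ^ n = 1 → (w ^ 2) ^ n = 1 := by
    intro n hn
    rw [← cls_pow, ← cls_one, cls_eq] at hn
    obtain ⟨-, h8⟩ := pow_up hA n
    have h9 : (w ^ n) ^ 2 = 1 := by
      rcases hn with hn | hn
      · rw [← h8, hn]
        simp
      · rw [← h8, hn]
        simp
    rw [← pow_mul, mul_comm, pow_mul]
    exact h9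
  rcases hp' with rfl | rfl
  · intro h7
    have h8 := hkey 3 h7
    rw [hw3] at h8
    norm_num at h8
  · intro h7
    have h8 := hkey 2 h7
    have h9 : w ^ 2 = 2 := by linear_combination h8 - hz
    rw [h9] at h8
    norm_num at h8

/-- conclusion (4) -/
theorem ND.index (h : ND Γ Δ k) : cuspGen Δ (t 1) = Δ ∨
    ((cuspGen Δ (t 1)).relIndex Δ = 2 ∧ ∃ g ∈ Δ, orderOf g = 6) := by
  obtain ⟨B, hB, hBD, hB1, hB2⟩ := h.exists_rotD
  have hBΔ := cuspGen_le hBD
  set b := B.1 0 0 ^ 2 with hb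
  have hprod : ∀ A : SL(2, ℂ), A.1 1 0 = 0 → cls A ∈ Δ →
      A.1 0 0 ^ 2 * b = 1 ∨ A.1 0 0 ^ 2 * b = -1 ∨ (A.1 0 0 ^ 2 * b) ^ 2 + 1 = 0 ∨
        (A.1 0 0 ^ 2 * b) ^ 2 + A.1 0 0 ^ 2 * b + 1 = 0 ∨ (A.1 0 0 ^ 2 * b) ^ 2 - A.1 0 0 ^ 2 * b + 1 = 0 := by
    intro A hA hAΔ
    obtain ⟨h1, h2⟩ := up_prod hA hB
    have h3 := h.cryst h1 (by rw [cls_mul]; exact Δ.mul_mem hAΔ hBΔ)
    have h4 : (A * B).1 0 0 ^ 2 = A.1 0 0 ^ 2 * b := by rw [h2, hb]; ring
    rwa [h4] at h3
  rcases h.cryst hB hBΔ with h3 | h3 | h3 | h3 | h3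
  · exact absurd h3 hB1
  · exact absurd h3 hB2
  · -- order four
    rw [← hb] at h3
    left
    refine h.of_up fun A hA hAΔ => ?_
    set a := A.1 0 0 ^ 2 with ha
    have hp := hprod A hA hAΔ
    rw [← ha] at hp
    have ha2 : a ^ 2 = 1 ∨ a ^ 2 = -1 := by
      rcases h.cryst hA hAΔ with h4 | h4 | h4 | h4 | h4
      · rw [← ha] at h4
        left; rw [h4]; norm_num
      · rw [← ha] at h4
        left; rw [h4]; norm_num
      · rw [← ha] at h4
        right; linear_combination h4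
      · rw [← ha] at h4
        exfalso
        rcases hp with h5 | h5 | h5 | h5 | h5
        · have h6 : a = 0 := by linear_combination h4 + a * b * h5 - a ^ 2 * h3 + h5
          rw [h6] at h4
          norm_num at h4
        · have h6 : a = 0 := by linear_combination h4 + a * b * h5 - a ^ 2 * h3 - h5
          rw [h6] at h4
          norm_num at h4
        · have h6 : a = -2 := by linear_combination h4 + h5 - a ^ 2 * h3
          rw [h6] at h4
          norm_num at h4
        · -- `a b = -(a + 2)`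
          have h6 : a * b = -(a + 2) := by linear_combination h5 + h4 - a ^ 2 * h3
          have h7 : a = -1 := by
            have h8 : (a * b) ^ 2 = (a + 2) ^ 2 := by rw [h6]; ring
            linear_combination (-1 / 2 : ℂ) * h8 + (1 / 2 : ℂ) * a ^ 2 * h3 - h4
          rw [h7] at h4
          norm_num at h4
        · have h6 : a * b = a + 2 := by linear_combination -h5 - h4 + a ^ 2 * h3
          have h7 : a = -1 := by
            have h8 : (a * b) ^ 2 = (a + 2) ^ 2 := by rw [h6]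
            linear_combination (-1 / 2 : ℂ) * h8 + (1 / 2 : ℂ) * a ^ 2 * h3 - h4
          rw [h7] at h4
          norm_num at h4
      · rw [← ha] at h4
        exfalso
        rcases hp with h5 | h5 | h5 | h5 | h5
        · have h6 : a = 0 := by linear_combination -h4 - a * b * h5 + a ^ 2 * h3 - h5
          rw [h6] at h4
          norm_num at h4
        · have h6 : a = 0 := by linear_combination -h4 - a * b * h5 + a ^ 2 * h3 + h5
          rw [h6] at h4
          norm_num at h4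
        · have h6 : a = 2 := by linear_combination -h4 - h5 + a ^ 2 * h3
          rw [h6] at h4
          norm_num at h4
        · have h6 : a * b = a - 2 := by linear_combination h5 + h4 - a ^ 2 * h3
          have h7 : a = 1 := by
            have h8 : (a * b) ^ 2 = (a - 2) ^ 2 := by rw [h6]
            linear_combination (1 / 2 : ℂ) * h8 - (1 / 2 : ℂ) * a ^ 2 * h3 + h4
          rw [h7] at h4
          norm_num at h4
        · have h6 : a * b = -(a - 2) := by linear_combination -h5 - h4 + a ^ 2 * h3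
          have h7 : a = 1 := by
            have h8 : (a * b) ^ 2 = (a - 2) ^ 2 := by rw [h6]; ring
            linear_combination (1 / 2 : ℂ) * h8 - (1 / 2 : ℂ) * a ^ 2 * h3 + h4
          rw [h7] at h4
          norm_num at h4
    rcases ha2 with h4 | h4
    · rcases sq_one h4 with h5 | h5
      · exact of_pow hA hAΔ hB hBD 0 (by rw [← ha, h5, pow_zero])
      · exact of_pow hA hAΔ hB hBD 2 (by rw [← ha, h5, ← hb]; linear_combination -h3)
    · have h5 : (a - b) * (a + b) = 0 := by linear_combination h4 - h3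
      rcases mul_eq_zero.1 h5 with h6 | h6
      · exact of_pow hA hAΔ hB hBD 1 (by rw [← ha, ← hb, pow_one]; linear_combination h6)
      · exact of_pow hA hAΔ hB hBD 3 (by rw [← ha, ← hb]; linear_combination h6 - b * h3)
  · -- order three
    rw [← hb] at h3
    have hb3 : b ^ 3 = 1 := by linear_combination (b - 1) * h3
    -- no element of order four
    have hA6 : ∀ A : SL(2, ℂ), A.1 1 0 = 0 → cls A ∈ Δ →
        (A.1 0 0 ^ 2) ^ 3 = 1 ∨ (A.1 0 0 ^ 2) ^ 3 = -1 := by
      intro A hA hAΔ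
      set a := A.1 0 0 ^ 2 with ha
      have hp := hprod A hA hAΔ
      rw [← ha] at hp
      rcases h.cryst hA hAΔ with h4 | h4 | h4 | h4 | h4
      · rw [← ha] at h4
        left; rw [h4]; norm_num
      · rw [← ha] at h4
        right; rw [h4]; norm_num
      · rw [← ha] at h4
        exfalso
        rcases hp with h5 | h5 | h5 | h5 | h5
        · have h6 : b = 0 := by linear_combination h3 + a * b * h5 - b ^ 2 * h4 + h5
          rw [h6] at h3
          norm_num at h3
        · have h6 : b = 0 := by linear_combination h3 + a * b * h5 - b ^ 2 * h4 - h5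
          rw [h6] at h3
          norm_num at h3
        · have h6 : b = -2 := by linear_combination h3 + h5 - b ^ 2 * h4
          rw [h6] at h3
          norm_num at h3
        · have h6 : a * b = -(b + 2) := by linear_combination h5 + h3 - b ^ 2 * h4
          have h7 : b = -1 := by
            have h8 : (a * b) ^ 2 = (b + 2) ^ 2 := by rw [h6]; ring
            linear_combination (-1 / 2 : ℂ) * h8 + (1 / 2 : ℂ) * b ^ 2 * h4 - h3
          rw [h7] at h3
          norm_num at h3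
        · have h6 : a * b = b + 2 := by linear_combination -h5 - h3 + b ^ 2 * h4
          have h7 : b = -1 := by
            have h8 : (a * b) ^ 2 = (b + 2) ^ 2 := by rw [h6]
            linear_combination (-1 / 2 : ℂ) * h8 + (1 / 2 : ℂ) * b ^ 2 * h4 - h3
          rw [h7] at h3
          norm_num at h3
      · rw [← ha] at h4
        left; linear_combination (a - 1) * h4
      · rw [← ha] at h4
        right; linear_combination (a + 1) * h4
    have hA3 : ∀ A : SL(2, ℂ), A.1 1 0 = 0 → cls A ∈ Δ → (A.1 0 0 ^ 2) ^ 3 = 1 → cls A ∈ cuspGen Δ (t 1) := by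
      intro A hA hAΔ h4
      set a := A.1 0 0 ^ 2 with ha
      have h5 : (a - 1) * ((a - b) * (a - b ^ 2)) = 0 := by
        linear_combination h4 + (a - a ^ 2) * h3 + (a - 1) * hb3
      rcases mul_eq_zero.1 h5 with h6 | h6
      · exact of_pow hA hAΔ hB hBD 0 (by rw [← ha, pow_zero]; linear_combination h6)
      · rcases mul_eq_zero.1 h6 with h7 | h7
        · exact of_pow hA hAΔ hB hBD 1 (by rw [← ha, ← hb, pow_one]; linear_combination h7)
        · exact of_pow hA hAΔ hB hBD 2 (by rw [← ha, ← hb]; linear_combination h7)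
    by_cases hall : ∀ A : SL(2, ℂ), A.1 1 0 = 0 → cls A ∈ Δ → cls A ∈ cuspGen Δ (t 1)
    · exact Or.inl (h.of_up hall)
    · right
      push Not at hall
      obtain ⟨A1, hA1, hA1Δ, hA1D⟩ := hall
      have ha1 : (A1.1 0 0 ^ 2) ^ 3 = -1 := by
        rcases hA6 A1 hA1 hA1Δ with h4 | h4
        · exact absurd (hA3 A1 hA1 hA1Δ h4) hA1D
        · exact h4
      constructor
      · unfold Subgroup.relIndex
        rw [Subgroup.index_eq_two_iff]
        refine ⟨⟨cls A1, hA1Δ⟩, ?_⟩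
        rintro ⟨g, hg⟩
        rw [Subgroup.mem_subgroupOf, Subgroup.mem_subgroupOf]
        show Xor (g * cls A1 ∈ cuspGen Δ (t 1)) (g ∈ cuspGen Δ (t 1))
        by_cases hgD : g ∈ cuspGen Δ (t 1)
        · right
          refine ⟨hgD, fun h4 => hA1D ?_⟩
          have h5 : cls A1 = g⁻¹ * (g * cls A1) := by group
          rw [h5]
          exact Subgroup.mul_mem _ (Subgroup.inv_mem _ hgD) h4
        · left
          refine ⟨?_, hgD⟩
          obtain ⟨γ, hγ, A, hA, hA2⟩ := h.up hg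
          have hAΔ : cls A ∈ Δ := by rw [hA2]; exact Δ.mul_mem (h.le hγ) hg
          have hAD : cls A ∉ cuspGen Δ (t 1) := by
            intro h4
            apply hgD
            have h5 : g = γ⁻¹ * cls A := by rw [hA2]; group
            rw [h5]
            exact Subgroup.mul_mem _ (Subgroup.inv_mem _ (h.le_cuspGen hγ)) h4
          have ha : (A.1 0 0 ^ 2) ^ 3 = -1 := by
            rcases hA6 A hA hAΔ with h4 | h4
            · exact absurd (hA3 A hA hAΔ h4) hAD
            · exact h4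
          obtain ⟨h6, h7⟩ := up_prod hA hA1
          have h8 := hA3 (A * A1) h6 (by rw [cls_mul]; exact Δ.mul_mem hAΔ hA1Δ) (by
            rw [h7]
            have h9 : ((A.1 0 0 * A1.1 0 0) ^ 2) ^ 3 = (A.1 0 0 ^ 2) ^ 3 * (A1.1 0 0 ^ 2) ^ 3 := by ring
            rw [h9, ha, ha1]
            norm_num)
          have h5 : g * cls A1 = γ⁻¹ * cls (A * A1) := by rw [cls_mul, hA2]; group
          rw [h5]
          exact Subgroup.mul_mem _ (Subgroup.inv_mem _ (h.le_cuspGen hγ)) h8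
      · -- an element with multiplier `-b`
        have hA1s : A1.1 0 0 ^ 2 = -1 ∨ A1.1 0 0 ^ 2 = -b ∨ A1.1 0 0 ^ 2 = -b ^ 2 := by
          set a := A1.1 0 0 ^ 2 with ha
          have h5 : (a + 1) * ((a + b) * (a + b ^ 2)) = 0 := by
            linear_combination ha1 + (a ^ 2 + a) * h3 + (a + 1) * hb3
          rcases mul_eq_zero.1 h5 with h6 | h6
          · left; linear_combination h6
          · rcases mul_eq_zero.1 h6 with h7 | h7
            · right; left; linear_combination h7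
            · right; right; linear_combination h7
        have hex : ∃ A : SL(2, ℂ), A.1 1 0 = 0 ∧ cls A ∈ Δ ∧ A.1 0 0 ^ 2 = -b := by
          rcases hA1s with h4 | h4 | h4
          · obtain ⟨h6, h7⟩ := up_prod hA1 hB
            refine ⟨A1 * B, h6, by rw [cls_mul]; exact Δ.mul_mem hA1Δ hBΔ, ?_⟩
            rw [h7, mul_pow, h4, ← hb]
            ring
          · exact ⟨A1, hA1, hA1Δ, h4⟩
          · obtain ⟨h6, h7⟩ := up_prod hA1 hB
            obtain ⟨h8, h9⟩ := up_prod h6 hB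
            refine ⟨A1 * B * B, h8, by rw [cls_mul, cls_mul]; exact Δ.mul_mem (Δ.mul_mem hA1Δ hBΔ) hBΔ, ?_⟩
            rw [h9, h7, mul_pow, mul_pow, h4, ← hb]
            linear_combination (-b) * hb3
        obtain ⟨A, hA, hAΔ, hAb⟩ := hex
        refine ⟨cls A, hAΔ, order_six hA ?_⟩
        rw [hAb]
        linear_combination h3
  · -- order six
    rw [← hb] at h3
    left
    refine h.of_up fun A hA hAΔ => ?_
    set a := A.1 0 0 ^ 2 with ha
    have hb3 : b ^ 3 = -1 := by linear_combination (b + 1) * h3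
    have hp := hprod A hA hAΔ
    rw [← ha] at hp
    rcases h.cryst hA hAΔ with h4 | h4 | h4 | h4 | h4
    · rw [← ha] at h4
      exact of_pow hA hAΔ hB hBD 0 (by rw [← ha, h4, pow_zero])
    · rw [← ha] at h4
      exact of_pow hA hAΔ hB hBD 3 (by rw [← ha, h4, ← hb, hb3])
    · rw [← ha] at h4
      exfalso
      rcases hp with h5 | h5 | h5 | h5 | h5
      · have h6 : b = 0 := by linear_combination -h3 - a * b * h5 + b ^ 2 * h4 - h5
        rw [h6] at h3
        norm_num at h3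
      · have h6 : b = 0 := by linear_combination -h3 - a * b * h5 + b ^ 2 * h4 + h5
        rw [h6] at h3
        norm_num at h3
      · have h6 : b = 2 := by linear_combination -h3 - h5 + b ^ 2 * h4
        rw [h6] at h3
        norm_num at h3
      · have h6 : a * b = b - 2 := by linear_combination h5 + h3 - b ^ 2 * h4
        have h7 : b = 1 := by
          have h8 : (a * b) ^ 2 = (b - 2) ^ 2 := by rw [h6]
          linear_combination (1 / 2 : ℂ) * h8 - (1 / 2 : ℂ) * b ^ 2 * h4 + h3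
        rw [h7] at h3
        norm_num at h3
      · have h6 : a * b = -(b - 2) := by linear_combination -h5 - h3 + b ^ 2 * h4
        have h7 : b = 1 := by
          have h8 : (a * b) ^ 2 = (b - 2) ^ 2 := by rw [h6]; ring
          linear_combination (1 / 2 : ℂ) * h8 - (1 / 2 : ℂ) * b ^ 2 * h4 + h3
        rw [h7] at h3
        norm_num at h3
    · rw [← ha] at h4
      have h5 : (a - b ^ 2) * (a - b ^ 4) = 0 := by
        linear_combination h4 - a * h3 - a * b * hb3 + (b ^ 3 - 1) * hb3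
      rcases mul_eq_zero.1 h5 with h6 | h6
      · exact of_pow hA hAΔ hB hBD 2 (by rw [← ha, ← hb]; linear_combination h6)
      · exact of_pow hA hAΔ hB hBD 4 (by rw [← ha, ← hb]; linear_combination h6)
    · rw [← ha] at h4
      have h5 : (a - b) * (a - b ^ 5) = 0 := by
        linear_combination h4 + a * h3 - a * b ^ 2 * hb3 + (b ^ 3 - 1) * hb3
      rcases mul_eq_zero.1 h5 with h6 | h6
      · exact of_pow hA hAΔ hB hBD 1 (by rw [← ha, ← hb, pow_one]; linear_combination h6)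
      · exact of_pow hA hAΔ hB hBD 5 (by rw [← ha, ← hb]; linear_combination h6)

end Pool.Agent.HSK
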