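import Pool.Agent.HSK.Concl

/-!
# HSK/Conj: reduction to a meridian `z ↦ z + 1`
-/

set_option autoImplicit false

noncomputable section

namespace Pool.Agent.HSK

open Matrix
open scoped MatrixGroups commutatorElement Pointwise

/-- normal form of a parabolic matrix -/
theorem par_form {M : SL(2, ℂ)} (htr : M.1.trace = 2) (hne : M ≠ 1) :
    ∃ P : SL(2, ℂ), M * P = P * T 1 := by
  have hd := det_eq M
  rw [Matrix.trace_fin_two] at htr
  set a := M.1 0 0 with ha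
  set b := M.1 0 1 with hb
  set c := M.1 1 0 with hc
  set d := M.1 1 1 with hdd
  have hM : M.1 = !![a, b; c, d] := by
    rw [ha, hb, hc, hdd]
    exact Matrix.eta_fin_two _
  have hd2 : d = 2 - a := by linear_combination htr
  have hn : (a - 1) ^ 2 + b * c = 0 := by
    rw [hd2] at hd
    linear_combination -hd
  by_cases hc0 : c = 0
  · have ha1 : a = 1 := by
      have h1 : (a - 1) ^ 2 = 0 := by rw [hc0] at hn; linear_combination hn
      have h2 := pow_eq_zero_iff (two_ne_zero) |>.1 h1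
      linear_combination h2
    have hb0 : b ≠ 0 := by
      intro hb0
      apply hne
      apply Subtype.ext
      rw [hM, hd2, ha1, hb0, hc0, Matrix.SpecialLinearGroup.coe_one, Matrix.one_fin_two]
      norm_num
    obtain ⟨s, hs⟩ := IsAlgClosed.exists_pow_nat_eq (b⁻¹) (n := 2) (by norm_num)
    refine ⟨⟨!![b * s, 0; 0, s], ?_⟩, ?_⟩
    · rw [Matrix.det_fin_two_of]
      have h1 : b * s * s = b * s ^ 2 := by ring
      rw [h1, hs]
      field_simp
      ring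
    · apply Subtype.ext
      rw [Matrix.SpecialLinearGroup.coe_mul, Matrix.SpecialLinearGroup.coe_mul, hM, T_coe, hd2, ha1, hc0]
      ext i j
      fin_cases i <;> fin_cases j <;> simp
      norm_num
  · obtain ⟨s, hs⟩ := IsAlgClosed.exists_pow_nat_eq (-c⁻¹) (n := 2) (by norm_num)
    have hcs : c * s ^ 2 = -1 := by
      rw [hs]
      field_simp
    refine ⟨⟨!![(a - 1) * s, s; c * s, 0], ?_⟩, ?_⟩
    · rw [Matrix.det_fin_two_of]
      linear_combination -hcs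
    · apply Subtype.ext
      rw [Matrix.SpecialLinearGroup.coe_mul, Matrix.SpecialLinearGroup.coe_mul, hM, T_coe, hd2]
      ext i j
      fin_cases i <;> fin_cases j
      · simp
        linear_combination s * hn
      · simp
        ring
      · simp
        ring
      · simp

section

variable {Γ Δ : Subgroup PSL(2, ℂ)} {μ : PSL(2, ℂ)}

/-- the conjugate `p⁻¹ S p` -/
def cj (p : PSL(2, ℂ)) (S : Subgroup PSL(2, ℂ)) : Subgroup PSL(2, ℂ) := S.comap (MulAut.conj p).toMonoidHom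

theorem mem_cj {p : PSL(2, ℂ)} {S : Subgroup PSL(2, ℂ)} {x : PSL(2, ℂ)} : x ∈ cj p S ↔ p * x * p⁻¹ ∈ S := Iff.rfl

theorem mem_cj' {p : PSL(2, ℂ)} {S : Subgroup PSL(2, ℂ)} {x : PSL(2, ℂ)} (hx : x ∈ S) : p⁻¹ * x * p ∈ cj p S := by
  rw [mem_cj]
  have h : p * (p⁻¹ * x * p) * p⁻¹ = x := by group
  rwa [h]

theorem par_conj {p g : PSL(2, ℂ)} (hg : IsParabolic g) : IsParabolic (p * g * p⁻¹) := by
  obtain ⟨h1, A, rfl, h2⟩ := hg
  obtain ⟨B, rfl⟩ := cls_surj p
  refine ⟨?_, B * A * B⁻¹, rfl, by rw [trace_conj, h2]⟩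
  intro h
  apply h1
  have h3 : cls A = (cls B)⁻¹ * (cls B * cls A * (cls B)⁻¹) * cls B := by group
  rw [h3, h]
  group

theorem comm_conj_iff {p x y : PSL(2, ℂ)} : Commute (p * x * p⁻¹) (p * y * p⁻¹) ↔ Commute x y := by
  unfold Commute SemiconjBy
  constructor
  · intro h
    have h1 : x * y = p⁻¹ * ((p * x * p⁻¹) * (p * y * p⁻¹)) * p := by group
    have h2 : y * x = p⁻¹ * ((p * y * p⁻¹) * (p * x * p⁻¹)) * p := by group
    rw [h1, h2, h]
  · intro h
    have h1 : (p * x * p⁻¹) * (p * y * p⁻¹) = p * (x * y) * p⁻¹ := by group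
    have h2 : (p * y * p⁻¹) * (p * x * p⁻¹) = p * (y * x) * p⁻¹ := by group
    rw [h1, h2, h]

theorem commutator_cj {p x : PSL(2, ℂ)} (hx : x ∈ ⁅cj p Γ, cj p Γ⁆) : p * x * p⁻¹ ∈ ⁅Γ, Γ⁆ := by
  have h1 : Subgroup.map (MulAut.conj p).toMonoidHom (cj p Γ) ≤ Γ := by
    rintro _ ⟨y, hy, rfl⟩
    exact hy
  have h2 : Subgroup.map (MulAut.conj p).toMonoidHom ⁅cj p Γ, cj p Γ⁆ ≤ ⁅Γ, Γ⁆ := by
    rw [Subgroup.map_commutator]
    exact Subgroup.commutator_mono h1 h1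
  exact h2 ⟨x, hx, rfl⟩

theorem IsKnotGroup.ngen (h : IsKnotGroup Γ μ) : NGen Γ μ := by
  intro x hx
  have h1 : (⟨x, hx⟩ : Γ) ∈ Subgroup.normalClosure ({⟨μ, h.mem⟩} : Set Γ) := by
    rw [h.normalGen]
    exact Subgroup.mem_top _
  unfold Subgroup.normalClosure at h1
  have key : ∀ y : Γ, y ∈ Subgroup.closure (Group.conjugatesOfSet ({⟨μ, h.mem⟩} : Set Γ)) →
      (y : PSL(2, ℂ)) ∈ Subgroup.closure {x | ∃ γ ∈ Γ, x = γ * μ * γ⁻¹} := by
    intro y hy
    refine Subgroup.closure_induction (p := fun (y : Γ) _ => (y : PSL(2, ℂ)) ∈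
      Subgroup.closure {x | ∃ γ ∈ Γ, x = γ * μ * γ⁻¹}) ?_ ?_ ?_ ?_ hy
    · intro z hz
      rw [Group.mem_conjugatesOfSet_iff] at hz
      obtain ⟨w, hw, hc⟩ := hz
      rw [Set.mem_singleton_iff] at hw
      subst hw
      obtain ⟨c, hc⟩ := isConj_iff.1 hc
      refine Subgroup.subset_closure ⟨c, c.2, ?_⟩
      rw [← hc]
      rfl
    · exact Subgroup.one_mem _
    · intro a b _ _ ha hb
      exact Subgroup.mul_mem _ ha hb
    · intro a _ ha
      exact Subgroup.inv_mem _ ha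
  exact key _ h1

theorem IsKnotGroup.inf (h : IsKnotGroup Γ μ) (m : ℕ) (hm : 0 < m) : μ ^ m ∉ ⁅Γ, Γ⁆ := by
  intro hμ
  have hof : ∀ (y : PSL(2, ℂ)) (hy : y ∈ ⁅Γ, Γ⁆) (hyΓ : y ∈ Γ), Abelianization.of (⟨y, hyΓ⟩ : Γ) = 1 := by
    intro y hy hyΓ
    rw [← Subgroup.map_subtype_commutator] at hy
    obtain ⟨z, hz, hzy⟩ := hy
    have h1 : (⟨y, hyΓ⟩ : Γ) = z := Subtype.ext hzy.symm
    rw [h1]
    exact (QuotientGroup.eq_one_iff z).2 hz
  set q : Abelianization Γ := Abelianization.of (⟨μ, h.mem⟩ : Γ) with hq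
  have hqm : q ^ m = 1 := by
    rw [hq, ← map_pow]
    exact hof (μ ^ m) hμ (Γ.pow_mem h.mem m)
  have hgen : ∀ z : Abelianization Γ, z ∈ Subgroup.zpowers q := by
    intro z
    obtain ⟨x, rfl⟩ := QuotientGroup.mk_surjective z
    obtain ⟨j, hj⟩ := cyclic_mod h.mem h.ngen _ x.2
    have h2 : (x : PSL(2, ℂ)) = μ ^ j * (μ ^ (-j) * x) := by
      rw [← mul_assoc, ← _root_.zpow_add, add_neg_cancel, _root_.zpow_zero, one_mul]
    have h3 : x = (⟨μ, h.mem⟩ : Γ) ^ j * (⟨μ ^ (-j) * x, Γ.mul_mem (Γ.zpow_mem h.mem _) x.2⟩ : Γ) := by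
      apply Subtype.ext
      rw [Subgroup.coe_mul, Subgroup.coe_zpow]
      exact h2
    have h4 : (QuotientGroup.mk x : Abelianization Γ) = Abelianization.of x := rfl
    rw [h4, h3, map_mul, map_zpow, hof _ hj, mul_one]
    exact Subgroup.zpow_mem _ (Subgroup.mem_zpowers q) j
  have hfin : IsOfFinOrder q := isOfFinOrder_iff_pow_eq_one.2 ⟨m, hm, hqm⟩
  have h5 : Finite (Subgroup.zpowers q) := Set.finite_coe_iff.2 (finite_zpowers.2 hfin)
  have h6 : Finite (Abelianization Γ) := by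
    refine Finite.of_injective (fun z => (⟨z, hgen z⟩ : Subgroup.zpowers q)) ?_
    intro z w hzw
    exact congrArg Subtype.val hzw
  have := h.infinite
  exact not_finite (Abelianization Γ)

theorem cont_t : Continuous t := by
  unfold t cls
  refine continuous_quotient_mk'.comp ?_
  refine Continuous.subtype_mk ?_ _
  refine continuous_matrix fun i j => ?_
  fin_cases i <;> fin_cases j
  · exact continuous_const
  · exact continuous_id
  · exact continuous_const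
  · exact continuous_const

theorem disc_of (hd : DiscreteTopology Δ) (p : PSL(2, ℂ)) :
    ∃ ε : ℝ, 0 < ε ∧ ∀ β, t β ∈ cj p Δ → ‖β‖ < ε → β = 0 := by
  obtain ⟨U, hU, hU2⟩ : ∃ U : Set PSL(2, ℂ), IsOpen U ∧ (∀ x, x ∈ U ∧ x ∈ Δ ↔ x = 1) := by
    have h1 : IsOpen ({1} : Set Δ) := isOpen_discrete _
    obtain ⟨U, hU, hU2⟩ := isOpen_induced_iff.1 h1
    refine ⟨U, hU, fun x => ⟨fun hx => ?_, fun hx => ?_⟩⟩
    · have h2 : (⟨x, hx.2⟩ : Δ) ∈ ({1} : Set Δ) := by
        rw [← hU2]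
        exact hx.1
      exact congrArg Subtype.val h2
    · subst hx
      refine ⟨?_, Δ.one_mem⟩
      have h2 : (1 : Δ) ∈ ((↑) : Δ → PSL(2, ℂ)) ⁻¹' U := by
        rw [hU2]
        exact Set.mem_singleton _
      exact h2
  have hcont : Continuous (fun β : ℂ => p * t β * p⁻¹) := (continuous_const.mul cont_t).mul continuous_const
  have hopen := hU.preimage hcont
  have h0 : (0 : ℂ) ∈ (fun β : ℂ => p * t β * p⁻¹) ⁻¹' U := by
    show p * t 0 * p⁻¹ ∈ U
    rw [t_zero, mul_one, mul_inv_cancel]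
    exact ((hU2 1).2 rfl).1
  obtain ⟨ε, hε, hball⟩ := Metric.isOpen_iff.1 hopen 0 h0
  refine ⟨ε, hε, fun β hβ hn => ?_⟩
  have h3 : β ∈ Metric.ball (0 : ℂ) ε := by rwa [mem_ball_zero_iff]
  have h4 : p * t β * p⁻¹ = 1 := (hU2 _).1 ⟨hball h3, hβ⟩
  have h5 : t β = 1 := by
    have h6 : t β = p⁻¹ * (p * t β * p⁻¹) * p := by group
    rw [h6, h4]
    group
  rw [← t_zero] at h5
  exact t_inj h5

theorem cuspGen_cj {p : PSL(2, ℂ)} (hp : p * t 1 * p⁻¹ = μ) : cuspGen (cj p Δ) (t 1) = cj p (cuspGen Δ μ) := by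
  apply le_antisymm
  · conv_lhs => unfold cuspGen
    rw [Subgroup.closure_le]
    rintro _ ⟨δ, hδ, s, hs, hs2, hs3, rfl⟩
    show p * (δ * s * δ⁻¹) * p⁻¹ ∈ cuspGen Δ μ
    refine Subgroup.subset_closure ⟨p * δ * p⁻¹, hδ, p * s * p⁻¹, hs, par_conj hs2, ?_, by group⟩
    rw [← hp]
    exact comm_conj_iff.2 hs3
  · intro x hx
    have key : ∀ y ∈ cuspGen Δ μ, p⁻¹ * y * p ∈ cuspGen (cj p Δ) (t 1) := by
      intro y hy
      unfold cuspGen at hy
      refine Subgroup.closure_induction (p := fun y _ => p⁻¹ * y * p ∈ cuspGen (cj p Δ) (t 1)) ?_ ?_ ?_ ?_ hy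
      · rintro _ ⟨δ, hδ, s, hs, hs2, hs3, rfl⟩
        refine Subgroup.subset_closure ⟨p⁻¹ * δ * p, mem_cj' hδ, p⁻¹ * s * p, mem_cj' hs, ?_, ?_, by group⟩
        · have := par_conj (p := p⁻¹) hs2
          rwa [inv_inv] at this
        · rw [← comm_conj_iff (p := p), hp]
          have h1 : p * (p⁻¹ * s * p) * p⁻¹ = s := by group
          rw [h1]
          exact hs3
      · show p⁻¹ * 1 * p ∈ _
        have h1 : p⁻¹ * 1 * p = 1 := by group
        rw [h1]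
        exact Subgroup.one_mem _
      · intro y z _ _ hy hz
        have h1 : p⁻¹ * (y * z) * p = (p⁻¹ * y * p) * (p⁻¹ * z * p) := by group
        rw [h1]
        exact Subgroup.mul_mem _ hy hz
      · intro y _ hy
        have h1 : p⁻¹ * y⁻¹ * p = (p⁻¹ * y * p)⁻¹ := by group
        rw [h1]
        exact Subgroup.inv_mem _ hy
    have h2 := key _ hx
    have h3 : p⁻¹ * ((MulAut.conj p).toMonoidHom x) * p = x := by
      show p⁻¹ * (p * x * p⁻¹) * p = x
      group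
    rwa [h3] at h2

/-- the normalised data of a knot group -/
theorem nd_of (hΓ : IsKnotGroup Γ μ) (h1 : Γ ≤ Δ) (h2 : Δ ≤ Subgroup.Commensurable.commensurator Γ)
    (hd : DiscreteTopology Δ) (hn : ¬ Δ ≤ Subgroup.normalizer (Γ : Set PSL(2, ℂ))) {p : PSL(2, ℂ)}
    (hp : p * t 1 * p⁻¹ = μ) : ND (cj p Γ) (cj p Δ) (traceField Γ) := by
  have hp' : p⁻¹ * μ * p = t 1 := by
    rw [← hp]
    group
  constructor
  · rw [mem_cj, hp]
    exact hΓ.mem
  · intro x hx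
    have key : ∀ y ∈ Subgroup.closure {x | ∃ γ ∈ Γ, x = γ * μ * γ⁻¹},
        p⁻¹ * y * p ∈ Subgroup.closure {x | ∃ γ ∈ cj p Γ, x = γ * t 1 * γ⁻¹} := by
      intro y hy
      refine Subgroup.closure_induction (p := fun y _ => p⁻¹ * y * p ∈
        Subgroup.closure {x | ∃ γ ∈ cj p Γ, x = γ * t 1 * γ⁻¹}) ?_ ?_ ?_ ?_ hy
      · rintro _ ⟨γ, hγ, rfl⟩
        refine Subgroup.subset_closure ⟨p⁻¹ * γ * p, mem_cj' hγ, ?_⟩
        rw [← hp']
        group
      · have h1 : p⁻¹ * 1 * p = 1 := by group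
        show p⁻¹ * 1 * p ∈ _
        rw [h1]
        exact Subgroup.one_mem _
      · intro y z _ _ hy hz
        have h1 : p⁻¹ * (y * z) * p = (p⁻¹ * y * p) * (p⁻¹ * z * p) := by group
        rw [h1]
        exact Subgroup.mul_mem _ hy hz
      · intro y _ hy
        have h1 : p⁻¹ * y⁻¹ * p = (p⁻¹ * y * p)⁻¹ := by group
        rw [h1]
        exact Subgroup.inv_mem _ hy
    have h3 := key _ (hΓ.ngen hx)
    have h4 : p⁻¹ * ((MulAut.conj p).toMonoidHom x) * p = x := by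
      show p⁻¹ * (p * x * p⁻¹) * p = x
      group
    rwa [h4] at h3
  · exact Subgroup.comap_mono h1
  · intro g hg hpar
    obtain ⟨γ, hγ, hc⟩ := hΓ.oneCusp _ (mem_cj.1 hg) (par_conj hpar)
    refine ⟨p⁻¹ * γ * p, mem_cj' hγ, ?_⟩
    rw [← comm_conj_iff (p := p), hp]
    have h3 : p * ((p⁻¹ * γ * p) * g * (p⁻¹ * γ * p)⁻¹) * p⁻¹ = γ * (p * g * p⁻¹) * γ⁻¹ := by group
    rw [h3]
    exact hc
  · obtain ⟨τ, hτ, hc, hab⟩ := hΓ.rankTwo
    obtain ⟨C, hC⟩ := cls_surj (p⁻¹ * τ * p)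
    have h3 : Commute (cls C) (t 1) := by
      rw [← comm_conj_iff (p := p), hp, hC]
      have h4 : p * (p⁻¹ * τ * p) * p⁻¹ = τ := by group
      rw [h4]
      exact hc
    obtain ⟨β, hβ⟩ := comm_t1 h3
    refine ⟨β, ?_, fun a b hab2 => hab a b ?_⟩
    · rw [← hβ, hC]
      exact mem_cj' hτ
    · have h4 : t 1 ^ a * t β ^ b = 1 := by
        rw [← t_int, ← t_int, ← t_add, mul_one, hab2, t_zero]
      have h5 : τ = p * t β * p⁻¹ := by
        rw [← hβ, hC]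
        group
      rw [← hp, h5, conj_zpow, conj_zpow]
      have h6 : p * t 1 ^ a * p⁻¹ * (p * t β ^ b * p⁻¹) = p * (t 1 ^ a * t β ^ b) * p⁻¹ := by group
      rw [h6, h4]
      group
  · intro m hm hmem
    have h3 := commutator_cj hmem
    have h4 : p * t (m : ℂ) * p⁻¹ = μ ^ m := by
      have h5 := t_nat m 1
      rw [mul_one] at h5
      rw [h5, ← hp, conj_pow]
    rw [h4] at h3
    exact hΓ.inf m hm h3
  · intro g hg
    have hcm := h2 (mem_cj.1 hg)
    rw [Subgroup.Commensurable.commensurator_mem_iff] at hcm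
    set G := p * g * p⁻¹ with hG
    have hx : G * μ * G⁻¹ ∈ ConjAct.toConjAct G • Γ := by
      have h3 := Subgroup.smul_mem_pointwise_smul μ (ConjAct.toConjAct G) Γ hΓ.mem
      rwa [ConjAct.smul_def, ConjAct.ofConjAct_toConjAct] at h3
    obtain ⟨m, hm, -, hm2⟩ := Subgroup.exists_pow_mem_of_relIndex_ne_zero hcm.2 hx
    refine ⟨m, hm, ?_⟩
    rw [mem_cj]
    have h3 := (Subgroup.mem_inf.1 hm2).1
    rw [conj_pow] at h3
    have h4 := t_nat m 1
    rw [mul_one] at h4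
    have h5 : p * (g * t (m : ℂ) * g⁻¹) * p⁻¹ = G * μ ^ m * G⁻¹ := by
      rw [h4, ← hp, conj_pow, hG]
      group
    rw [h5]
    exact h3
  · exact disc_of hd p
  · intro A hA
    obtain ⟨P, rfl⟩ := cls_surj p
    refine Subfield.subset_closure ⟨P * A * P⁻¹, hA, trace_conj P A⟩
  · intro hall
    apply hn
    have key : ∀ g ∈ Δ, ∀ x ∈ Γ, g * x * g⁻¹ ∈ Γ := by
      intro g hg x hx
      have h3 := hall _ (mem_cj' hg) _ (mem_cj' hx)
      rw [mem_cj] at h3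
      have h4 : p * (p⁻¹ * g * p * (p⁻¹ * x * p) * (p⁻¹ * g * p)⁻¹) * p⁻¹ = g * x * g⁻¹ := by group
      rwa [h4] at h3
    intro g hg
    rw [Subgroup.mem_normalizer_iff]
    intro x
    refine ⟨key g hg x, fun h3 => ?_⟩
    have h4 := key g⁻¹ (Δ.inv_mem hg) _ h3
    have h5 : g⁻¹ * (g * x * g⁻¹) * g⁻¹⁻¹ = x := by group
    rwa [h5] at h4

/-- the main theorem -/
theorem main (hΓ : IsKnotGroup Γ μ) (h1 : Γ ≤ Δ) (h2 : Δ ≤ Subgroup.Commensurable.commensurator Γ)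
    (hd : DiscreteTopology Δ) (hn : ¬ Δ ≤ Subgroup.normalizer (Γ : Set PSL(2, ℂ))) :
    ((∃ s ∈ traceField Γ, s ^ 2 = -3) ∨ (∃ s ∈ traceField Γ, s ^ 4 = -1)) ∧
    (∃ δ ∈ Δ, Commute (δ * μ * δ⁻¹) μ ∧ δ * μ * δ⁻¹ ∉ Γ) ∧
    (∀ A : SL(2, ℂ), cls A ∈ cuspGen Δ μ → A.1.trace ∈ traceField Γ) ∧
    (cuspGen Δ μ = Δ ∨ ((cuspGen Δ μ).relIndex Δ = 2 ∧ ∃ g ∈ Δ, orderOf g = 6)) := by
  obtain ⟨hμ1, M, hM, htr⟩ := hΓ.parabolic
  have hM1 : M ≠ 1 := by
    rintro rfl
    exact hμ1 (by rw [← hM, cls_one])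
  obtain ⟨P, hP⟩ := par_form htr hM1
  have hp : cls P * t 1 * (cls P)⁻¹ = μ := by
    rw [← hM]
    have h3 : cls M * cls P = cls P * t 1 := by
      show cls (M * P) = cls (P * T 1)
      rw [hP]
    rw [← h3]
    group
  set p := cls P with hpdef
  have h := nd_of hΓ h1 h2 hd hn hp
  have hcg := cuspGen_cj (Δ := Δ) hp
  refine ⟨h.roots, ?_, ?_, ?_⟩
  · obtain ⟨δ, hδ, hc, hnot⟩ := h.moves
    refine ⟨p * δ * p⁻¹, hδ, ?_, ?_⟩
    · have h3 : p * δ * p⁻¹ * μ * (p * δ * p⁻¹)⁻¹ = p * (δ * t 1 * δ⁻¹) * p⁻¹ := by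
        rw [← hp]
        group
      rw [h3]
      conv_rhs => rw [← hp]
      exact comm_conj_iff.2 hc
    · intro h4
      apply hnot
      rw [mem_cj]
      have h3 : p * (δ * t 1 * δ⁻¹) * p⁻¹ = p * δ * p⁻¹ * μ * (p * δ * p⁻¹)⁻¹ := by
        rw [← hp]
        group
      rw [h3]
      exact h4
  · intro A hA
    have h3 : cls (P⁻¹ * A * P) ∈ cuspGen (cj p Δ) (t 1) := by
      rw [hcg, mem_cj]
      have h4 : p * cls (P⁻¹ * A * P) * p⁻¹ = cls A := by
        rw [cls_mul, cls_mul, cls_inv, ← hpdef]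
        group
      rw [h4]
      exact hA
    have h4 := h.traces h3
    have h5 := trace_conj P⁻¹ A
    rw [inv_inv] at h5
    rwa [h5] at h4
  · have hsurj : ∀ S : Subgroup PSL(2, ℂ), (cj p S).map (MulAut.conj p).toMonoidHom = S := fun S =>
      Subgroup.map_comap_eq_self_of_surjective (MulAut.conj p).surjective S
    rcases h.index with h3 | ⟨h3, g, hg, hg6⟩
    · left
      rw [hcg] at h3
      rw [← hsurj (cuspGen Δ μ), h3, hsurj]
    · right
      refine ⟨?_, p * g * p⁻¹, hg, ?_⟩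
      · rw [hcg] at h3
        have h4 := Subgroup.relIndex_map_map_of_injective (f := (MulAut.conj p).toMonoidHom)
          (cj p (cuspGen Δ μ)) (cj p Δ) (MulAut.conj p).injective
        rw [hsurj, hsurj] at h4
        rw [h4]
        exact h3
      · have h4 := MulEquiv.orderOf_eq (MulAut.conj p) g
        rw [← hg6, ← h4]
        rfl

end

end Pool.Agent.HSK
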