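import Pool.Agent.HSK.Fin

/-!
# HSK/Deg: the lattice of translations and the index in the case of integral traces
-/

set_option autoImplicit false

noncomputable section

namespace Pool.Agent.HSK

open Matrix
open scoped MatrixGroups commutatorElement

variable {Γ Δ : Subgroup PSL(2, ℂ)} {k : Subfield ℂ}

/-- the multipliers of `Δ` at the cusp -/
def Mu (Δ : Subgroup PSL(2, ℂ)) : Set ℂ := {a | ∃ A : SL(2, ℂ), A.1 1 0 = 0 ∧ cls A ∈ Δ ∧ A.1 0 0 ^ 2 = a}

theorem mu_mul {a b : ℂ} (ha : a ∈ Mu Δ) (hb : b ∈ Mu Δ) : a * b ∈ Mu Δ := by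
  obtain ⟨A, hA, hA2, rfl⟩ := ha
  obtain ⟨B, hB, hB2, rfl⟩ := hb
  obtain ⟨h1, h2⟩ := up_prod hA hB
  exact ⟨A * B, h1, by rw [cls_mul]; exact Δ.mul_mem hA2 hB2, by rw [h2]; ring⟩

theorem ND.mu_cryst (h : ND Γ Δ k) {a : ℂ} (ha : a ∈ Mu Δ) :
    a = 1 ∨ a = -1 ∨ a ^ 2 + 1 = 0 ∨ a ^ 2 + a + 1 = 0 ∨ a ^ 2 - a + 1 = 0 := by
  obtain ⟨A, hA, hA2, rfl⟩ := ha
  exact h.cryst hA hA2

theorem no12 {a b : ℂ} (ha : a ^ 2 + 1 = 0) (hb : b ^ 2 + b + 1 = 0)
    (hp : a * b = 1 ∨ a * b = -1 ∨ (a * b) ^ 2 + 1 = 0 ∨ (a * b) ^ 2 + a * b + 1 = 0 ∨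
      (a * b) ^ 2 - a * b + 1 = 0) : False := by
  have h12 : ∀ x : ℂ, x ^ 2 = -b ^ 2 → x = 1 ∨ x = -1 ∨ x ^ 2 + 1 = 0 ∨ x ^ 2 + x + 1 = 0 ∨ x ^ 2 - x + 1 = 0 →
      b = 0 ∨ b = 1 ∨ b = -1 := by
    intro x hx hx2
    have hb3 : b ^ 3 = 1 := by linear_combination (b - 1) * hb
    rcases hx2 with h | h | h | h | h
    · -- `b ^ 2 = -1`
      rw [h] at hx
      left
      linear_combination hb - hx
    · rw [h] at hx
      left
      linear_combination hb - hx
    · have h1 : b ^ 2 = 1 := by linear_combination -h + hx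
      rcases sq_one h1 with h2 | h2
      · exact Or.inr (Or.inl h2)
      · exact Or.inr (Or.inr h2)
    · have h1 : x = b ^ 2 - 1 := by linear_combination h - hx
      have h2 : (b ^ 2 - 1) ^ 2 = -b ^ 2 := by rw [← h1]; exact hx
      have h3 : b = b ^ 2 - 1 := by linear_combination h2 - b * hb3
      right
      right
      linear_combination (1 / 2 : ℂ) * (h3 + hb)
    · have h1 : x = -(b ^ 2 - 1) := by linear_combination -h + hx
      have h2 : (b ^ 2 - 1) ^ 2 = -b ^ 2 := by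
        have h4 : (b ^ 2 - 1) ^ 2 = (-(b ^ 2 - 1)) ^ 2 := by ring
        rw [h4, ← h1]; exact hx
      have h3 : b = b ^ 2 - 1 := by linear_combination h2 - b * hb3
      right
      right
      linear_combination (1 / 2 : ℂ) * (h3 + hb)
  rcases h12 (a * b) (by linear_combination b ^ 2 * ha) hp with h | h | h
  · rw [h] at hb
    norm_num at hb
  · rw [h] at hb
    norm_num at hb
  · rw [h] at hb
    norm_num at hb

theorem no12' {a b : ℂ} (ha : a ^ 2 + 1 = 0) (hb : b ^ 2 - b + 1 = 0)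
    (hp : a * b = 1 ∨ a * b = -1 ∨ (a * b) ^ 2 + 1 = 0 ∨ (a * b) ^ 2 + a * b + 1 = 0 ∨
      (a * b) ^ 2 - a * b + 1 = 0) : False := by
  refine no12 (a := a) (b := -b) ha (by linear_combination hb) ?_
  rcases hp with h | h | h | h | h
  · right; left; linear_combination -h
  · left; linear_combination -h
  · right; right; left; linear_combination h
  · right; right; right; right; linear_combination h
  · right; right; right; left; linear_combination h

/-- the rotation group at the cusp -/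
theorem ND.type (h : ND Γ Δ k) : ∃ (z : ℂ) (n : ℕ), z ∈ Mu Δ ∧ (∀ a ∈ Mu Δ, ∃ j : ℕ, j < n ∧ a = z ^ j) ∧
    (∀ j : ℕ, 0 < j → j < n → z ^ j ≠ 1) ∧
    ((n = 4 ∧ z ^ 2 + 1 = 0) ∨ (n = 3 ∧ z ^ 2 + z + 1 = 0) ∨ (n = 6 ∧ z ^ 2 - z + 1 = 0)) := by
  by_cases hA : ∃ z ∈ Mu Δ, z ^ 2 - z + 1 = 0
  · obtain ⟨z, hz, hz2⟩ := hA
    have hz3 : z ^ 3 = -1 := by linear_combination (z + 1) * hz2
    refine ⟨z, 6, hz, ?_, ?_, Or.inr (Or.inr ⟨rfl, hz2⟩)⟩
    · intro a ha
      rcases h.mu_cryst ha with h1 | h1 | h1 | h1 | h1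
      · exact ⟨0, by norm_num, by rw [pow_zero, h1]⟩
      · exact ⟨3, by norm_num, by rw [hz3, h1]⟩
      · exact (no12' h1 hz2 (h.mu_cryst (mu_mul ha hz))).elim
      · have h5 : (a - z ^ 2) * (a - z ^ 4) = 0 := by
          linear_combination h1 - a * hz2 - a * z * hz3 + (z ^ 3 - 1) * hz3
        rcases mul_eq_zero.1 h5 with h6 | h6
        · exact ⟨2, by norm_num, by linear_combination h6⟩
        · exact ⟨4, by norm_num, by linear_combination h6⟩
      · have h5 : (a - z) * (a - z ^ 5) = 0 := by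
          linear_combination h1 + a * hz2 - a * z ^ 2 * hz3 + (z ^ 3 - 1) * hz3
        rcases mul_eq_zero.1 h5 with h6 | h6
        · exact ⟨1, by norm_num, by linear_combination h6⟩
        · exact ⟨5, by norm_num, by linear_combination h6⟩
    · intro j hj hj6 h1
      have hz1 : z ≠ 1 := by
        rintro rfl
        norm_num at hz2
      have hz0 : z ≠ 0 := by
        rintro rfl
        norm_num at hz2
      interval_cases j
      · exact hz1 (by linear_combination h1)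
      · have h3 : z = 2 := by linear_combination h1 - hz2
        rw [h3] at hz2
        norm_num at hz2
      · rw [hz3] at h1
        norm_num at h1
      · have h3 : z = -1 := by linear_combination z * hz3 - h1
        rw [h3] at hz2
        norm_num at hz2
      · have h3 : z ^ 2 = -1 := by linear_combination z ^ 2 * hz3 - h1
        have h4 : z = 0 := by linear_combination h3 - hz2
        exact hz0 h4
  · have hA' : ∀ z ∈ Mu Δ, z ^ 2 - z + 1 ≠ 0 := fun z hz hz2 => hA ⟨z, hz, hz2⟩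
    by_cases hB : ∃ z ∈ Mu Δ, z ^ 2 + 1 = 0
    · obtain ⟨z, hz, hz2⟩ := hB
      refine ⟨z, 4, hz, ?_, ?_, Or.inl ⟨rfl, hz2⟩⟩
      · intro a ha
        rcases h.mu_cryst ha with h1 | h1 | h1 | h1 | h1
        · exact ⟨0, by norm_num, by rw [pow_zero, h1]⟩
        · exact ⟨2, by norm_num, by rw [h1]; linear_combination -hz2⟩
        · have h5 : (a - z) * (a + z) = 0 := by linear_combination h1 - hz2
          rcases mul_eq_zero.1 h5 with h6 | h6
          · exact ⟨1, by norm_num, by linear_combination h6⟩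
          · exact ⟨3, by norm_num, by linear_combination h6 - z * hz2⟩
        · exact (no12 hz2 h1 (h.mu_cryst (mu_mul hz ha))).elim
        · exact (hA' a ha h1).elim
      · intro j hj hj4 h1
        interval_cases j
        · have h3 : z = 1 := by linear_combination h1
          rw [h3] at hz2
          norm_num at hz2
        · have h3 : (2 : ℂ) = 0 := by linear_combination hz2 - h1
          norm_num at h3
        · have h3 : z = -1 := by linear_combination z * hz2 - h1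
          rw [h3] at hz2
          norm_num at hz2
    · have hB' : ∀ z ∈ Mu Δ, z ^ 2 + 1 ≠ 0 := fun z hz hz2 => hB ⟨z, hz, hz2⟩
      obtain ⟨R, hR, hRΔ, hRn⟩ := h.exists_rot
      have hR1 : R.1 0 0 ^ 2 ≠ 1 := fun h1 => hRn (by rw [h1]; exact h.mem)
      have hR2 : R.1 0 0 ^ 2 ≠ -1 := fun h1 => hRn (by rw [h1, t_neg]; exact Γ.inv_mem h.mem)
      have hz : R.1 0 0 ^ 2 ∈ Mu Δ := ⟨R, hR, hRΔ, rfl⟩
      set z := R.1 0 0 ^ 2 with hzd
      clear_value z
      have hz2 : z ^ 2 + z + 1 = 0 := by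
        rcases h.mu_cryst hz with h1 | h1 | h1 | h1 | h1
        · exact absurd h1 hR1
        · exact absurd h1 hR2
        · exact (hB' z hz h1).elim
        · exact h1
        · exact (hA' z hz h1).elim
      have hz3 : z ^ 3 = 1 := by linear_combination (z - 1) * hz2
      refine ⟨z, 3, hz, ?_, ?_, Or.inr (Or.inl ⟨rfl, hz2⟩)⟩
      · intro a ha
        rcases h.mu_cryst ha with h1 | h1 | h1 | h1 | h1
        · exact ⟨0, by norm_num, by rw [pow_zero, h1]⟩
        · exact (hA' (a * z) (mu_mul ha hz) (by rw [h1]; linear_combination hz2)).elim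
        · exact (hB' a ha h1).elim
        · have h5 : (a - z) * (a - z ^ 2) = 0 := by linear_combination h1 - a * hz2 + hz3
          rcases mul_eq_zero.1 h5 with h6 | h6
          · exact ⟨1, by norm_num, by linear_combination h6⟩
          · exact ⟨2, by norm_num, by linear_combination h6⟩
        · exact (hA' a ha h1).elim
      · intro j hj hj3 h1
        interval_cases j
        · exact hR1 (by linear_combination h1)
        · have h3 : z = -2 := by linear_combination hz2 - h1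
          rw [h3] at hz2
          norm_num at hz2

/-- the translations in the case of integral traces -/
theorem ND.lattice (h : ND Γ Δ k) (hint : ∀ A, cls A ∈ Γ → IsIntegral ℤ A.1.trace) {z : ℂ} (hz : z ∈ Mu Δ)
    {c : ℤ} (hc : |c| ≤ 1) (hq : z ^ 2 - c * z + 1 = 0) {β : ℂ} (hβ : t β ∈ Δ) : ∃ x y : ℤ, β = x + y * z := by
  obtain ⟨A, hA, hAΔ, hAz⟩ := hz
  have hn : ‖z‖ = 1 := by rw [← hAz]; exact h.norm hA hAΔ
  have hzL : z ∈ Lt Δ := by
    have := h.mult hA hAΔ h.one_mem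
    rwa [hAz, mul_one] at this
  have hz1 : z ≠ 1 := by
    rintro rfl
    have h1 : (c : ℂ) = 2 := by linear_combination -hq
    have h2 : c = 2 := by exact_mod_cast h1
    rw [h2] at hc
    norm_num at hc
  have hz2 : z ≠ -1 := by
    rintro rfl
    have h1 : (c : ℂ) = -2 := by linear_combination hq
    have h2 : c = -2 := by exact_mod_cast h1
    rw [h2] at hc
    norm_num at hc
  have him := im_ne hn hz1 hz2
  have hsq : z.re ^ 2 + z.im ^ 2 = 1 := by
    have h3 := Complex.sq_norm z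
    rw [hn, Complex.normSq_apply] at h3
    linarith
  have hre : 2 * z.re = c := by
    have h1 := congrArg Complex.im hq
    simp only [Complex.add_im, Complex.sub_im, Complex.mul_im, Complex.intCast_re, Complex.intCast_im,
      Complex.one_im, Complex.zero_im, pow_two, zero_mul, add_zero] at h1
    have h2 : z.im * (2 * z.re - c) = 0 := by linear_combination h1
    rcases mul_eq_zero.1 h2 with h3 | h3
    · exact absurd h3 him
    · linear_combination h3
  have hns : ∀ u v : ℝ, Complex.normSq ((u : ℂ) + v * z) = u ^ 2 + c * u * v + v ^ 2 := by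
    intro u v
    rw [Complex.normSq_apply]
    simp only [Complex.add_re, Complex.add_im, Complex.ofReal_re, Complex.ofReal_im, Complex.mul_re, Complex.mul_im,
      zero_mul, sub_zero, zero_add, add_zero]
    rw [← hre]
    linear_combination v ^ 2 * hsq
  -- coordinates
  set r : ℝ := β.im / z.im with hr
  set s : ℝ := β.re - r * z.re with hs
  have hβ2 : β = (s : ℂ) + (r : ℂ) * z := by
    apply Complex.ext
    · simp only [Complex.add_re, Complex.mul_re, Complex.ofReal_re, Complex.ofReal_im, zero_mul, sub_zero]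
      rw [hs]
      ring
    · simp only [Complex.add_im, Complex.mul_im, Complex.ofReal_re, Complex.ofReal_im, zero_mul, add_zero, zero_add]
      rw [hr]
      field_simp
  refine ⟨round s, round r, ?_⟩
  by_contra hne
  set β' : ℂ := β - (round s : ℤ) * 1 - (round r : ℤ) * z with hβ'
  have hβ'0 : β' ≠ 0 := by
    intro h0
    apply hne
    linear_combination h0
  have hβ'Δ : β' ∈ Lt Δ :=
    (Lt Δ).sub_mem ((Lt Δ).sub_mem hβ (sep_mul_mem h.one_mem _)) (sep_mul_mem hzL _)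
  have hβ'2 : β' = ((s - round s : ℝ) : ℂ) + ((r - round r : ℝ) : ℂ) * z := by
    rw [hβ']
    conv_lhs => rw [hβ2]
    push_cast
    ring
  obtain ⟨m, x, y, hm, hmxy⟩ := dep2 h.sep (u := 1) (v := z) h.one_mem hzL
    (by
      rw [Complex.one_re, Complex.one_im, one_mul, zero_mul, sub_zero]
      exact him) (β := β') hβ'Δ
  have hj : ((m ^ 2 : ℕ) : ℝ) * Complex.normSq β' = ((x ^ 2 + c * x * y + y ^ 2 : ℤ) : ℝ) := by
    have h1 : Complex.normSq ((m : ℂ) * β') = (m : ℝ) ^ 2 * Complex.normSq β' := by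
      rw [Complex.normSq_mul, Complex.normSq_natCast]
      ring
    have h2 : (m : ℂ) * β' = ((x : ℝ) : ℂ) + ((y : ℝ) : ℂ) * z := by
      rw [hmxy]
      push_cast
      ring
    rw [h2, hns] at h1
    push_cast
    linarith
  have h1 := h.short hint hβ'Δ hβ'0 (pow_pos hm 2) hj
  rw [hβ'2, hns] at h1
  have hs2 := abs_sub_round s
  have hr2 := abs_sub_round r
  set u := s - round s
  set v := r - round r
  obtain ⟨hs3, hs4⟩ := abs_le.1 hs2
  obtain ⟨hr3, hr4⟩ := abs_le.1 hr2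
  have hcR : |(c : ℝ)| ≤ 1 := by exact_mod_cast hc
  have h2 : (c : ℝ) * u * v ≤ 1 / 4 := by
    have h3 : |(c : ℝ) * u * v| ≤ 1 * (1 / 2) * (1 / 2) := by
      rw [abs_mul, abs_mul]
      gcongr
    have h4 := le_abs_self ((c : ℝ) * u * v)
    linarith
  have h3 : u ^ 2 ≤ 1 / 4 := by nlinarith
  have h4 : v ^ 2 ≤ 1 / 4 := by nlinarith
  linarith

theorem ND.lattice_type (h : ND Γ Δ k) (hint : ∀ A, cls A ∈ Γ → IsIntegral ℤ A.1.trace) {z : ℂ} {n : ℕ}
    (hz : z ∈ Mu Δ)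
    (htype : (n = 4 ∧ z ^ 2 + 1 = 0) ∨ (n = 3 ∧ z ^ 2 + z + 1 = 0) ∨ (n = 6 ∧ z ^ 2 - z + 1 = 0)) :
    ∀ β, t β ∈ Δ → ∃ x y : ℤ, β = x + y * z := by
  obtain ⟨c, hc, hq⟩ : ∃ c : ℤ, |c| ≤ 1 ∧ z ^ 2 - c * z + 1 = 0 := by
    rcases htype with ⟨-, h1⟩ | ⟨-, h1⟩ | ⟨-, h1⟩
    · exact ⟨0, by norm_num, by push_cast; linear_combination h1⟩
    · exact ⟨-1, by norm_num, by push_cast; linear_combination h1⟩
    · exact ⟨1, by norm_num, by push_cast; linear_combination h1⟩
  exact fun β hβ => h.lattice hint hz hc hq hβ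

theorem ND.mu_span (h : ND Γ Δ k) {a b : ℂ} (ha : a ∈ Mu Δ) (hb : b ∈ Mu Δ) (h1 : a ≠ 1) (h2 : a ≠ -1) :
    ∃ x y : ℤ, b = x + y * a := by
  have hab := h.mu_cryst (mu_mul ha hb)
  have hba := h.mu_cryst (mu_mul hb ha)
  rcases h.mu_cryst hb with h4 | h4 | h4 | h4 | h4
  · exact ⟨1, 0, by push_cast; linear_combination h4⟩
  · exact ⟨-1, 0, by push_cast; linear_combination h4⟩
  · rcases h.mu_cryst ha with h3 | h3 | h3 | h3 | h3
    · exact absurd h3 h1
    · exact absurd h3 h2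
    · have h5 : (b - a) * (b + a) = 0 := by linear_combination h4 - h3
      rcases mul_eq_zero.1 h5 with h6 | h6
      · exact ⟨0, 1, by push_cast; linear_combination h6⟩
      · exact ⟨0, -1, by push_cast; linear_combination h6⟩
    · exact (no12 h4 h3 hba).elim
    · exact (no12' h4 h3 hba).elim
  · rcases h.mu_cryst ha with h3 | h3 | h3 | h3 | h3
    · exact absurd h3 h1
    · exact absurd h3 h2
    · exact (no12 h3 h4 hab).elim
    · have h5 : (b - a) * (b + a + 1) = 0 := by linear_combination h4 - h3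
      rcases mul_eq_zero.1 h5 with h6 | h6
      · exact ⟨0, 1, by push_cast; linear_combination h6⟩
      · exact ⟨-1, -1, by push_cast; linear_combination h6⟩
    · have h5 : (b + a) * (b - a + 1) = 0 := by linear_combination h4 - h3
      rcases mul_eq_zero.1 h5 with h6 | h6
      · exact ⟨0, -1, by push_cast; linear_combination h6⟩
      · exact ⟨-1, 1, by push_cast; linear_combination h6⟩
  · rcases h.mu_cryst ha with h3 | h3 | h3 | h3 | h3
    · exact absurd h3 h1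
    · exact absurd h3 h2
    · exact (no12' h3 h4 hab).elim
    · have h5 : (b + a) * (b - a - 1) = 0 := by linear_combination h4 - h3
      rcases mul_eq_zero.1 h5 with h6 | h6
      · exact ⟨0, -1, by push_cast; linear_combination h6⟩
      · exact ⟨1, 1, by push_cast; linear_combination h6⟩
    · have h5 : (b - a) * (b + a - 1) = 0 := by linear_combination h4 - h3
      rcases mul_eq_zero.1 h5 with h6 | h6
      · exact ⟨0, 1, by push_cast; linear_combination h6⟩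
      · exact ⟨1, -1, by push_cast; linear_combination h6⟩

theorem up_of_comm {B : SL(2, ℂ)} (hc : Commute (cls B * t 1 * (cls B)⁻¹) (t 1)) : B.1 1 0 = 0 := by
  have h3 : cls B * t 1 * (cls B)⁻¹ = cls (B * T 1 * B⁻¹) := rfl
  rw [h3] at hc
  obtain ⟨β, hβ⟩ := comm_t1 hc
  exact up_of_conj (m := 1) (β := β) one_ne_zero (by rw [h3, hβ])

/-- the lattice in the case that the conjugates of the meridian generate the translations -/
theorem ND.lattice_gen (h : ND Γ Δ k)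
    (hgen : ∀ β, t β ∈ Δ → t β ∈ Subgroup.closure {x | (∃ δ ∈ Δ, x = δ * t 1 * δ⁻¹) ∧ Commute x (t 1)})
    {z : ℂ} (hz : z ∈ Mu Δ) (h1 : z ≠ 1) (h2 : z ≠ -1) : ∀ β, t β ∈ Δ → ∃ x y : ℤ, β = x + y * z := by
  intro β hβ
  have key : ∀ g ∈ Subgroup.closure {x | (∃ δ ∈ Δ, x = δ * t 1 * δ⁻¹) ∧ Commute x (t 1)},
      ∃ x y : ℤ, g = t (x + y * z) := by
    intro g hg
    refine Subgroup.closure_induction (p := fun g _ => ∃ x y : ℤ, g = t (x + y * z)) ?_ ?_ ?_ ?_ hg
    · rintro _ ⟨⟨δ, hδ, rfl⟩, hc⟩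
      obtain ⟨B, rfl⟩ := cls_surj δ
      have hB := up_of_comm hc
      obtain ⟨x, y, hxy⟩ := h.mu_span hz ⟨B, hB, hδ, rfl⟩ h1 h2
      exact ⟨x, y, by rw [t_conj hB, mul_one, hxy]⟩
    · exact ⟨0, 0, by push_cast; rw [zero_mul, add_zero, t_zero]⟩
    · rintro _ _ _ _ ⟨x, y, rfl⟩ ⟨x', y', rfl⟩
      refine ⟨x + x', y + y', ?_⟩
      rw [← t_add]
      congr 1
      push_cast
      ring
    · rintro _ _ ⟨x, y, rfl⟩
      refine ⟨-x, -y, ?_⟩
      rw [← t_neg]
      congr 1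
      push_cast
      ring
  obtain ⟨x, y, hxy⟩ := key _ (hgen β hβ)
  exact ⟨x, y, t_inj hxy⟩

/-- the elements of `Γ` which fix the cusp are translations -/
theorem ND.gamma_up (h : ND Γ Δ k) (htf : ∀ g ∈ Γ, ∀ n : ℕ, 0 < n → g ^ n = 1 → g = 1) {A : SL(2, ℂ)}
    (hA : A.1 1 0 = 0) (hAΓ : cls A ∈ Γ) : A.1 0 0 ^ 2 = 1 := by
  by_contra hne
  have h12 := cryst_pow (h.cryst hA (h.le hAΓ))
  obtain ⟨h1, h2⟩ := pow_up hA 12
  obtain ⟨β, hβ⟩ := up_pm h1 (by rw [h2, ← pow_mul, mul_comm, pow_mul]; exact h12)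
  have h3 := t_conj hA β
  rw [← hβ, cls_pow] at h3
  have h4 : cls A * cls A ^ 12 * (cls A)⁻¹ = cls A ^ 12 := by group
  rw [h4, ← cls_pow, hβ] at h3
  have h5 := t_inj h3
  have h6 : (A.1 0 0 ^ 2 - 1) * β = 0 := by linear_combination -h5
  rcases mul_eq_zero.1 h6 with h7 | h7
  · exact hne (by linear_combination h7)
  · rw [h7, t_zero, cls_pow] at hβ
    have h8 := htf _ hAΓ 12 (by norm_num) hβ
    rw [← cls_one, cls_eq] at h8
    rcases h8 with h9 | h9
    · exact hne (by rw [h9]; simp)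
    · exact hne (by rw [h9]; simp)

/-- the index -/
theorem ND.deg (h : ND Γ Δ k) (htf : ∀ g ∈ Γ, ∀ n : ℕ, 0 < n → g ^ n = 1 → g = 1)
    {s : ℂ} (hs : t s ∈ Γ)
    (hsg : ∀ β, t β ∈ Γ → ∃ a b : ℤ, β = a + b * s) {z : ℂ} {n : ℕ} (hz : z ∈ Mu Δ)
    (hzj : ∀ a ∈ Mu Δ, ∃ j : ℕ, j < n ∧ a = z ^ j) (hz1 : ∀ j : ℕ, 0 < j → j < n → z ^ j ≠ 1)
    (hlat : ∀ β, t β ∈ Δ → ∃ x y : ℤ, β = x + y * z) :
    ∃ (x y : ℤ), s = x + y * z ∧ Γ.relIndex Δ = n * y.natAbs := by
  obtain ⟨x, y, hxy⟩ := hlat s (h.le hs)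
  refine ⟨x, y, hxy, ?_⟩
  obtain ⟨A, hA, hAΔ, hAz⟩ := hz
  have hzL : z ∈ Lt Δ := by
    have := h.mult hA hAΔ h.one_mem
    rwa [hAz, mul_one] at this
  have hzim : z.im ≠ 0 := by
    intro h0
    obtain ⟨τ, hτ, him⟩ := h.tau
    obtain ⟨a, b, hab⟩ := hlat τ (h.le hτ)
    apply him
    rw [hab]
    simp [h0]
  have hy : y ≠ 0 := by
    intro h0
    obtain ⟨τ, hτ, him⟩ := h.tau
    obtain ⟨a, b, hab⟩ := hsg τ hτ
    apply him
    rw [hab, hxy, h0]
    simp
  have hcoord : ∀ a b a' b' : ℤ, (a : ℂ) + b * z = a' + b' * z → a = a' ∧ b = b' := by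
    intro a b a' b' hab
    have h1 := congrArg Complex.im hab
    simp at h1
    have h2 : b = b' := by
      rcases h1 with h1 | h1
      · exact h1
      · exact absurd h1 hzim
    subst h2
    have h3 : (a : ℂ) = a' := by linear_combination hab
    exact ⟨by exact_mod_cast h3, rfl⟩
  have hmem : ∀ (j l : ℕ), cls (A ^ j) * t (l * z) ∈ Δ := by
    intro j l
    rw [cls_pow]
    refine Δ.mul_mem (Δ.pow_mem hAΔ j) ?_
    rw [t_nat]
    exact Δ.pow_mem hzL l
  -- the bijection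
  set φ : Fin n × Fin y.natAbs → Δ ⧸ Γ.subgroupOf Δ :=
    fun p => QuotientGroup.mk ⟨cls (A ^ (p.1 : ℕ)) * t ((p.2 : ℕ) * z), hmem p.1 p.2⟩ with hφ
  have hinj : Function.Injective φ := by
    rintro ⟨j, l⟩ ⟨j', l'⟩ heq
    rw [hφ] at heq
    have h1 := QuotientGroup.eq.1 heq
    rw [Subgroup.mem_subgroupOf] at h1
    have h2 : (cls (A ^ (j : ℕ)) * t ((l : ℕ) * z))⁻¹ * (cls (A ^ (j' : ℕ)) * t ((l' : ℕ) * z)) ∈ Γ := h1
    obtain ⟨u1, u2⟩ := pow_up hA (j : ℕ)
    obtain ⟨u3, u4⟩ := pow_up hA (j' : ℕ)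
    obtain ⟨u5, u6⟩ := up_inv u1
    obtain ⟨u7, u8⟩ := up_prod u5 u3
    have hT : ∀ β, (T β).1 1 0 = 0 ∧ (T β).1 0 0 = 1 := fun β => by rw [T_coe]; simp
    obtain ⟨u9, u10⟩ := up_prod (hT (-((l : ℕ) * z))).1 u7
    obtain ⟨u11, u12⟩ := up_prod u9 (hT ((l' : ℕ) * z)).1
    have h3 : (cls (A ^ (j : ℕ)) * t ((l : ℕ) * z))⁻¹ * (cls (A ^ (j' : ℕ)) * t ((l' : ℕ) * z)) =
        cls (T (-((l : ℕ) * z)) * ((A ^ (j : ℕ))⁻¹ * A ^ (j' : ℕ)) * T ((l' : ℕ) * z)) := by
      rw [cls_mul, cls_mul, cls_mul, cls_inv]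
      have h4 : cls (T (-((l : ℕ) * z))) = (t ((l : ℕ) * z))⁻¹ := t_neg _
      rw [h4]
      show _ = (t ((l : ℕ) * z))⁻¹ * ((cls (A ^ (j : ℕ)))⁻¹ * cls (A ^ (j' : ℕ))) * t ((l' : ℕ) * z)
      group
    rw [h3] at h2
    have h5 := h.gamma_up htf u11 h2
    have hj0 : A.1 0 0 ≠ 0 := up_ne hA
    have hinvj : (A ^ (j : ℕ)).1 1 1 * A.1 0 0 ^ (j : ℕ) = 1 := by
      have := up_mul u1
      rw [u2] at this
      linear_combination this
    have h6 : z ^ (j' : ℕ) = z ^ (j : ℕ) := by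
      rw [u12, u10, u8, u6, u4, (hT _).2, (hT _).2, one_mul, mul_one] at h5
      have h7 : z ^ (j' : ℕ) = (A.1 0 0 ^ (j' : ℕ)) ^ 2 := by rw [← hAz]; ring
      have h8 : z ^ (j : ℕ) = (A.1 0 0 ^ (j : ℕ)) ^ 2 := by rw [← hAz]; ring
      rw [h7, h8]
      set P := (A ^ (j : ℕ)).1 1 1
      set X := A.1 0 0 ^ (j : ℕ)
      set Y := A.1 0 0 ^ (j' : ℕ)
      -- `(P Y)^2 = 1`, `P X = 1`
      linear_combination X ^ 2 * h5 - Y ^ 2 * (P * X + 1) * hinvj
    have hz0 : z ≠ 0 := by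
      rintro h0
      rw [h0] at hzim
      exact hzim rfl
    have hjj : (j : ℕ) = j' := by
      rcases lt_trichotomy (j : ℕ) (j' : ℕ) with h7 | h7 | h7
      · exfalso
        refine hz1 (j' - j) (Nat.sub_pos_of_lt h7) (lt_of_le_of_lt (Nat.sub_le _ _) j'.2) ?_
        have h8 : z ^ (j : ℕ) * z ^ ((j' : ℕ) - j) = z ^ (j : ℕ) * 1 := by
          rw [← pow_add, Nat.add_sub_cancel' h7.le, mul_one, h6]
        exact mul_left_cancel₀ (pow_ne_zero _ hz0) h8
      · exact h7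
      · exfalso
        refine hz1 (j - j') (Nat.sub_pos_of_lt h7) (lt_of_le_of_lt (Nat.sub_le _ _) j.2) ?_
        have h8 : z ^ (j' : ℕ) * z ^ ((j : ℕ) - j') = z ^ (j' : ℕ) * 1 := by
          rw [← pow_add, Nat.add_sub_cancel' h7.le, mul_one, h6]
        exact mul_left_cancel₀ (pow_ne_zero _ hz0) h8
    have hjj2 : j = j' := Fin.ext hjj
    subst hjj2
    have h9 : t ((((l' : ℕ) : ℤ) - ((l : ℕ) : ℤ) : ℤ) * z) ∈ Γ := by
      have h10 : t ((((l' : ℕ) : ℤ) - ((l : ℕ) : ℤ) : ℤ) * z) =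
          cls (T (-((l : ℕ) * z)) * ((A ^ (j : ℕ))⁻¹ * A ^ (j : ℕ)) * T ((l' : ℕ) * z)) := by
        rw [inv_mul_cancel, mul_one, ← T_add]
        unfold t
        congr 2
        push_cast
        ring
      rw [h10]
      exact h2
    obtain ⟨a, b, hab⟩ := hsg _ h9
    rw [hxy] at hab
    have h11 := (hcoord 0 (((l' : ℕ) : ℤ) - ((l : ℕ) : ℤ)) (a + b * x) (b * y)
      (by push_cast; push_cast at hab; linear_combination hab)).2
    have hl1 := l.2
    have hl2 := l'.2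
    have h12 : b = 0 := by
      by_contra hb
      have h13 : 1 ≤ |b| := Int.one_le_abs hb
      have h14 : |((l' : ℕ) : ℤ) - ((l : ℕ) : ℤ)| < |y| := by
        rw [abs_lt]
        have h15 : ((l : ℕ) : ℤ) < |y| := by rw [Int.abs_eq_natAbs]; exact_mod_cast hl1
        have h16 : ((l' : ℕ) : ℤ) < |y| := by rw [Int.abs_eq_natAbs]; exact_mod_cast hl2
        constructor <;> omega
      rw [h11, abs_mul] at h14
      nlinarith [abs_nonneg y]
    rw [h12, zero_mul] at h11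
    have h17 : (l : ℕ) = l' := by omega
    rw [Fin.ext h17]
  have hsurj : Function.Surjective φ := by
    intro q
    obtain ⟨⟨δ, hδ⟩, rfl⟩ := QuotientGroup.mk_surjective q
    obtain ⟨γ, hγ, C, hC, hC2⟩ := h.up (Δ.inv_mem hδ)
    obtain ⟨hB, -⟩ := up_inv hC
    set B := C⁻¹ with hBd
    have hBΔ : cls B ∈ Δ := by
      rw [hBd, cls_inv, hC2]
      exact Δ.inv_mem (Δ.mul_mem (h.le hγ) (Δ.inv_mem hδ))
    have hδ2 : δ = cls B * γ := by
      rw [hBd, cls_inv, hC2]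
      group
    obtain ⟨j, hj, hjB⟩ := hzj _ ⟨B, hB, hBΔ, rfl⟩
    obtain ⟨u1, u2⟩ := pow_up hA j
    obtain ⟨u3, u4⟩ := up_inv u1
    obtain ⟨u5, u6⟩ := up_prod u3 hB
    have hinvj : (A ^ j).1 1 1 * A.1 0 0 ^ j = 1 := by
      have := up_mul u1
      rw [u2] at this
      linear_combination this
    obtain ⟨β, hβ⟩ := up_pm u5 (by
      rw [u6, u4, mul_pow, hjB]
      have h8 : z ^ j = (A.1 0 0 ^ j) ^ 2 := by rw [← hAz]; ring
      rw [h8]
      linear_combination ((A ^ j).1 1 1 * A.1 0 0 ^ j + 1) * hinvj)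
    have hBβ : cls B = cls (A ^ j) * t β := by
      rw [← hβ, ← cls_mul, mul_inv_cancel_left]
    have hβΔ : t β ∈ Δ := by
      rw [← hβ, cls_mul, cls_inv, cls_pow]
      exact Δ.mul_mem (Δ.inv_mem (Δ.pow_mem hAΔ j)) hBΔ
    obtain ⟨x1, y1, hxy1⟩ := hlat β hβΔ
    have hl0 : 0 ≤ y1 % y := Int.emod_nonneg _ hy
    have hl1 : y1 % y < |y| := Int.emod_lt_abs _ hy
    set l := (y1 % y).toNat with hl
    have hlC : (l : ℤ) = y1 % y := Int.toNat_of_nonneg hl0
    have hly : l < y.natAbs := by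
      rw [Int.abs_eq_natAbs, ← hlC] at hl1
      exact_mod_cast hl1
    refine ⟨⟨⟨j, hj⟩, ⟨l, hly⟩⟩, ?_⟩
    rw [hφ]
    refine QuotientGroup.eq.2 ?_
    rw [Subgroup.mem_subgroupOf]
    show (cls (A ^ j) * t ((l : ℕ) * z))⁻¹ * δ ∈ Γ
    set e := y1 / y with he
    have hdiv : y1 = y * e + l := by
      rw [hlC, he]
      exact (Int.mul_ediv_add_emod y1 y).symm
    have hβ3 : β = (l : ℂ) * z + (((x1 - e * x : ℤ) : ℂ) * 1 + (e : ℂ) * s) := by
      rw [hxy1, hxy, hdiv]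
      push_cast
      ring
    rw [hδ2, hBβ, hβ3, t_add, t_add, t_int, t_int]
    have h1 : (cls (A ^ j) * t ((l : ℕ) * z))⁻¹ * (cls (A ^ j) * (t ((l : ℂ) * z) * (t 1 ^ (x1 - e * x) * t s ^ e)) * γ) =
        t 1 ^ (x1 - e * x) * t s ^ e * γ := by group
    rw [h1]
    exact Γ.mul_mem (Γ.mul_mem (Γ.zpow_mem h.mem _) (Γ.zpow_mem hs _)) hγ
  show (Γ.subgroupOf Δ).index = _
  unfold Subgroup.index
  rw [← Nat.card_congr (Equiv.ofBijective φ ⟨hinj, hsurj⟩), Nat.card_prod, Nat.card_fin, Nat.card_fin]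

end Pool.Agent.HSK
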