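import Pool.Agent.HSK.Conj
import Pool.Agent.HSK.Deg

/-!
# HSK/Conj2: the theorem with the case of integral traces
-/

set_option autoImplicit false

noncomputable section

namespace Pool.Agent.HSK

open Matrix
open scoped MatrixGroups commutatorElement Pointwise

/-- `s` is a cusp shape of `(Γ, μ)`: after conjugation `μ` is `z ↦ z + 1` and the elements of `Γ` which commute
with `μ` are the translations by the elements of `ℤ + ℤ s` -/
def IsCuspShape (Γ : Subgroup PSL(2, ℂ)) (μ : PSL(2, ℂ)) (s : ℂ) : Prop :=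
  ∃ P : SL(2, ℂ), cls P * t 1 * (cls P)⁻¹ = μ ∧ cls P * t s * (cls P)⁻¹ ∈ Γ ∧
    ∀ g ∈ Γ, Commute g μ → ∃ a b : ℤ, g = cls P * t (a + b * s) * (cls P)⁻¹

section

variable {Γ Δ : Subgroup PSL(2, ℂ)} {k : Subfield ℂ} {μ : PSL(2, ℂ)}

/-- conclusion (1), with the index -/
theorem ND.roots' (h : ND Γ Δ k) : (∃ s ∈ k, s ^ 2 = -3) ∨ ((∃ s ∈ k, s ^ 4 = -1) ∧ cuspGen Δ (t 1) = Δ) := by
  obtain ⟨A0, hA0, hc0⟩ := h.exists_base
  have hs := inK_of_trace h.mem h.tr hA0 hc0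
  obtain ⟨B, hB, hBD, h1, h2⟩ := h.exists_rotD
  have hk : B.1 0 0 ∈ k := inP_up (h.D_InP hs hBD) hB
  have hk2 : B.1 0 0 ^ 2 ∈ k := k.pow_mem hk 2
  have h2k : (2 : ℂ) ∈ k := by
    have := natCast_mem k 2
    simpa using this
  rcases h.cryst hB (cuspGen_le hBD) with h3 | h3 | h3 | h3 | h3
  · exact absurd h3 h1
  · exact absurd h3 h2
  · right
    refine ⟨⟨B.1 0 0, hk, by linear_combination h3⟩, ?_⟩
    have hbMu : B.1 0 0 ^ 2 ∈ Mu Δ := ⟨B, hB, cuspGen_le hBD, rfl⟩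
    set b := B.1 0 0 ^ 2 with hb
    refine h.of_up fun A hA hAΔ => ?_
    have haMu : A.1 0 0 ^ 2 ∈ Mu Δ := ⟨A, hA, hAΔ, rfl⟩
    rcases h.cryst hA hAΔ with h4 | h4 | h4 | h4 | h4
    · exact of_pow hA hAΔ hB hBD 0 (by rw [h4, pow_zero])
    · exact of_pow hA hAΔ hB hBD 2 (by rw [h4, ← hb]; linear_combination -h3)
    · have h5 : (A.1 0 0 ^ 2 - b) * (A.1 0 0 ^ 2 + b) = 0 := by linear_combination h4 - h3
      rcases mul_eq_zero.1 h5 with h6 | h6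
      · exact of_pow hA hAΔ hB hBD 1 (by rw [← hb, pow_one]; linear_combination h6)
      · exact of_pow hA hAΔ hB hBD 3 (by rw [← hb]; linear_combination h6 - b * h3)
    · exact (no12 h3 h4 (h.mu_cryst (mu_mul hbMu haMu))).elim
    · exact (no12' h3 h4 (h.mu_cryst (mu_mul hbMu haMu))).elim
  · left
    refine ⟨2 * B.1 0 0 ^ 2 + 1, k.add_mem (k.mul_mem h2k hk2) k.one_mem, ?_⟩
    linear_combination 4 * h3
  · left
    refine ⟨2 * B.1 0 0 ^ 2 - 1, k.sub_mem (k.mul_mem h2k hk2) k.one_mem, ?_⟩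
    linear_combination 4 * h3

/-- every translation of `Δ` is a product of conjugates of the meridian -/
theorem ND.gen_trans (h : ND Γ Δ k) (hint : ∀ A, cls A ∈ Γ → IsIntegral ℤ A.1.trace) {β : ℂ} (hβ : t β ∈ Δ) :
    t β ∈ Subgroup.closure {x | (∃ δ ∈ Δ, x = δ * t 1 * δ⁻¹) ∧ Commute x (t 1)} := by
  obtain ⟨z, n, hz, -, -, htype⟩ := h.type
  obtain ⟨c, hc, hq⟩ : ∃ c : ℤ, |c| ≤ 1 ∧ z ^ 2 - c * z + 1 = 0 := by
    rcases htype with ⟨-, h1⟩ | ⟨-, h1⟩ | ⟨-, h1⟩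
    · exact ⟨0, by norm_num, by push_cast; linear_combination h1⟩
    · exact ⟨-1, by norm_num, by push_cast; linear_combination h1⟩
    · exact ⟨1, by norm_num, by push_cast; linear_combination h1⟩
  obtain ⟨x, y, hxy⟩ := h.lattice hint hz hc hq hβ
  obtain ⟨A, hA, hAΔ, hAz⟩ := hz
  have h1 : t 1 ∈ Subgroup.closure {x | (∃ δ ∈ Δ, x = δ * t 1 * δ⁻¹) ∧ Commute x (t 1)} :=
    Subgroup.subset_closure ⟨⟨1, Δ.one_mem, by group⟩, t_comm _ _⟩
  have h2 : t z ∈ Subgroup.closure {x | (∃ δ ∈ Δ, x = δ * t 1 * δ⁻¹) ∧ Commute x (t 1)} := by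
    refine Subgroup.subset_closure ⟨⟨cls A, hAΔ, ?_⟩, t_comm _ _⟩
    rw [t_conj hA, hAz, mul_one]
  have h3 : t β = t 1 ^ x * t z ^ y := by
    rw [hxy, t_add, t_int, ← t_one_pow]
  rw [h3]
  exact Subgroup.mul_mem _ (Subgroup.zpow_mem _ h1 _) (Subgroup.zpow_mem _ h2 _)

theorem type_prim {z : ℂ} {n : ℕ}
    (htype : (n = 4 ∧ z ^ 2 + 1 = 0) ∨ (n = 3 ∧ z ^ 2 + z + 1 = 0) ∨ (n = 6 ∧ z ^ 2 - z + 1 = 0)) :
    (n = 3 ∨ n = 4 ∨ n = 6) ∧ IsPrimitiveRoot z n := by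
  rcases htype with ⟨rfl, h⟩ | ⟨rfl, h⟩ | ⟨rfl, h⟩
  · refine ⟨by norm_num, IsPrimitiveRoot.mk_of_lt z (by norm_num) (by linear_combination (z ^ 2 - 1) * h) ?_⟩
    intro j hj hj4 h1
    interval_cases j
    · have h3 : z = 1 := by linear_combination h1
      rw [h3] at h
      norm_num at h
    · have h3 : (2 : ℂ) = 0 := by linear_combination h - h1
      norm_num at h3
    · have h3 : z = -1 := by linear_combination z * h - h1
      rw [h3] at h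
      norm_num at h
  · refine ⟨by norm_num, IsPrimitiveRoot.mk_of_lt z (by norm_num) (by linear_combination (z - 1) * h) ?_⟩
    intro j hj hj3 h1
    interval_cases j
    · have h3 : z = 1 := by linear_combination h1
      rw [h3] at h
      norm_num at h
    · have h3 : z = -2 := by linear_combination h - h1
      rw [h3] at h
      norm_num at h
  · have hz3 : z ^ 3 = -1 := by linear_combination (z + 1) * h
    refine ⟨by norm_num, IsPrimitiveRoot.mk_of_lt z (by norm_num) (by linear_combination (z ^ 3 - 1) * hz3) ?_⟩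
    intro j hj hj6 h1
    interval_cases j
    · have h3 : z = 1 := by linear_combination h1
      rw [h3] at h
      norm_num at h
    · have h3 : z = 2 := by linear_combination h1 - h
      rw [h3] at h
      norm_num at h
    · rw [hz3] at h1
      norm_num at h1
    · have h3 : z = -1 := by linear_combination z * hz3 - h1
      rw [h3] at h
      norm_num at h
    · have h3 : z ^ 2 = -1 := by linear_combination z ^ 2 * hz3 - h1
      have h4 : z = 0 := by linear_combination h3 - h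
      rw [h4] at h
      norm_num at h

/-- conclusion (2) -/
theorem ND.turns (h : ND Γ Δ k) :
    (∃ δ ∈ Δ, Commute (δ * t 1 * δ⁻¹) (t 1) ∧ δ * t 1 * δ⁻¹ ≠ t 1 ∧ δ * t 1 * δ⁻¹ ≠ (t 1)⁻¹) ∧
    (∀ δ ∈ Δ, Commute (δ * t 1 * δ⁻¹) (t 1) → δ * t 1 * δ⁻¹ ≠ t 1 → δ * t 1 * δ⁻¹ ≠ (t 1)⁻¹ →
      δ * t 1 * δ⁻¹ ∉ Γ) := by
  obtain ⟨A, hA, hAΔ, h1⟩ := h.exists_rot
  have e1 : cls A * t 1 * (cls A)⁻¹ = t (A.1 0 0 ^ 2) := by rw [t_conj hA, mul_one]
  constructor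
  · refine ⟨cls A, hAΔ, ?_, ?_, ?_⟩
    · rw [e1]
      exact t_comm _ _
    · rw [e1]
      intro h3
      exact h1 (by rw [h3]; exact h.mem)
    · rw [e1]
      intro h3
      exact h1 (by rw [h3]; exact Γ.inv_mem h.mem)
  · intro δ hδ hc hn1 hn2 hmem
    obtain ⟨B, rfl⟩ := cls_surj δ
    have h3 : cls B * t 1 * (cls B)⁻¹ = cls (B * T 1 * B⁻¹) := rfl
    rw [h3] at hc
    obtain ⟨β, hβ⟩ := comm_t1 hc
    have hB : B.1 1 0 = 0 := up_of_conj (m := 1) (β := β) one_ne_zero (by rw [h3, hβ])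
    have e2 : cls B * t 1 * (cls B)⁻¹ = t (B.1 0 0 ^ 2) := by rw [t_conj hB, mul_one]
    rw [e2] at hn1 hn2 hmem
    have hb1 : B.1 0 0 ^ 2 ≠ 1 := fun h4 => hn1 (by rw [h4])
    have hb2 : B.1 0 0 ^ 2 ≠ -1 := fun h4 => hn2 (by rw [h4, t_neg])
    obtain ⟨x, y, hxy⟩ := h.mu_span (a := B.1 0 0 ^ 2) (b := A.1 0 0 ^ 2) ⟨B, hB, hδ, rfl⟩ ⟨A, hA, hAΔ, rfl⟩ hb1 hb2
    apply h1
    rw [hxy, t_add, ← t_one_pow, t_int]
    exact Γ.mul_mem (Γ.zpow_mem h.mem _) (Γ.zpow_mem hmem _)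

theorem closure_cj {p : PSL(2, ℂ)} (hp : p * t 1 * p⁻¹ = μ) {x : PSL(2, ℂ)}
    (hx : x ∈ Subgroup.closure {x | (∃ δ ∈ cj p Δ, x = δ * t 1 * δ⁻¹) ∧ Commute x (t 1)}) :
    p * x * p⁻¹ ∈ Subgroup.closure {x | (∃ δ ∈ Δ, x = δ * μ * δ⁻¹) ∧ Commute x μ} := by
  refine Subgroup.closure_induction (p := fun y _ => p * y * p⁻¹ ∈
    Subgroup.closure {x | (∃ δ ∈ Δ, x = δ * μ * δ⁻¹) ∧ Commute x μ}) ?_ ?_ ?_ ?_ hx
  · rintro _ ⟨⟨δ, hδ, rfl⟩, hc⟩
    refine Subgroup.subset_closure ⟨⟨p * δ * p⁻¹, hδ, ?_⟩, ?_⟩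
    · rw [← hp]
      group
    · rw [← hp]
      exact comm_conj_iff.2 hc
  · have h1 : p * 1 * p⁻¹ = 1 := by group
    show p * 1 * p⁻¹ ∈ _
    rw [h1]
    exact Subgroup.one_mem _
  · intro y z _ _ hy hz
    have h1 : p * (y * z) * p⁻¹ = (p * y * p⁻¹) * (p * z * p⁻¹) := by group
    rw [h1]
    exact Subgroup.mul_mem _ hy hz
  · intro y _ hy
    have h1 : p * y⁻¹ * p⁻¹ = (p * y * p⁻¹)⁻¹ := by group
    rw [h1]
    exact Subgroup.inv_mem _ hy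

/-- the main theorem -/
theorem main2 (hΓ : IsKnotGroup Γ μ) (h1 : Γ ≤ Δ) (h2 : Δ ≤ Subgroup.Commensurable.commensurator Γ)
    (hd : DiscreteTopology Δ) (hn : ¬ Δ ≤ Subgroup.normalizer (Γ : Set PSL(2, ℂ))) :
    ((∃ s ∈ traceField Γ, s ^ 2 = -3) ∨ ((∃ s ∈ traceField Γ, s ^ 4 = -1) ∧ cuspGen Δ μ = Δ)) ∧
    ((∃ δ ∈ Δ, Commute (δ * μ * δ⁻¹) μ ∧ δ * μ * δ⁻¹ ≠ μ ∧ δ * μ * δ⁻¹ ≠ μ⁻¹) ∧
      (∀ δ ∈ Δ, Commute (δ * μ * δ⁻¹) μ → δ * μ * δ⁻¹ ≠ μ → δ * μ * δ⁻¹ ≠ μ⁻¹ → δ * μ * δ⁻¹ ∉ Γ)) ∧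
    (∀ A : SL(2, ℂ), cls A ∈ cuspGen Δ μ → A.1.trace ∈ traceField Γ) ∧
    (cuspGen Δ μ = Δ ∨ ((cuspGen Δ μ).relIndex Δ = 2 ∧ ∃ g ∈ Δ, orderOf g = 6)) ∧
    ((∀ A : SL(2, ℂ), cls A ∈ Γ → IsIntegral ℤ A.1.trace) →
      (∀ g ∈ Δ, Commute g μ → g ∈ Subgroup.closure {x | (∃ δ ∈ Δ, x = δ * μ * δ⁻¹) ∧ Commute x μ}) ∧
      (∀ s : ℂ, IsCuspShape Γ μ s → ∃ (n : ℕ) (z : ℂ) (x y : ℤ), (n = 3 ∨ n = 4 ∨ n = 6) ∧
        IsPrimitiveRoot z n ∧ s = x + y * z ∧ Γ.relIndex Δ = n * y.natAbs)) := by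
  obtain ⟨-, -, m3, m4⟩ := main hΓ h1 h2 hd hn
  obtain ⟨hμ1, M, hM, htr⟩ := hΓ.parabolic
  have hM1 : M ≠ 1 := by
    rintro rfl
    exact hμ1 (by rw [← hM, cls_one])
  obtain ⟨P, hP⟩ := par_form htr hM1
  have hp : cls P * t 1 * (cls P)⁻¹ = μ := by
    rw [← hM]
    have h3 : cls M * cls P = cls P * t 1 := by
      show cls (M * P) = cls (P * T 1)
      rw [hP]
    rw [← h3]
    group
  have hsurj : ∀ (p : PSL(2, ℂ)) (S : Subgroup PSL(2, ℂ)), (cj p S).map (MulAut.conj p).toMonoidHom = S :=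
    fun p S => Subgroup.map_comap_eq_self_of_surjective (MulAut.conj p).surjective S
  have hintc : (∀ A : SL(2, ℂ), cls A ∈ Γ → IsIntegral ℤ A.1.trace) → ∀ P : SL(2, ℂ),
      ∀ A : SL(2, ℂ), cls A ∈ cj (cls P) Γ → IsIntegral ℤ A.1.trace := by
    intro hint P A hA
    have h3 := hint (P * A * P⁻¹) hA
    rwa [trace_conj] at h3
  refine ⟨?_, ?_, m3, m4, fun hint => ⟨?_, ?_⟩⟩
  · rcases (nd_of hΓ h1 h2 hd hn hp).roots' with h3 | ⟨h3, h4⟩
    · exact Or.inl h3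
    · right
      refine ⟨h3, ?_⟩
      rw [cuspGen_cj hp] at h4
      rw [← hsurj (cls P) (cuspGen Δ μ), h4, hsurj]
  · obtain ⟨⟨δ, hδ, q1, q2, q3⟩, q4⟩ := (nd_of hΓ h1 h2 hd hn hp).turns
    set p := cls P with hpd
    clear_value p
    have hpi : p * (t 1)⁻¹ * p⁻¹ = μ⁻¹ := by
      rw [← hp]
      group
    have hcan : ∀ x y : PSL(2, ℂ), p * x * p⁻¹ = p * y * p⁻¹ → x = y := by
      intro x y hxy
      have h3 : x = p⁻¹ * (p * x * p⁻¹) * p := by group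
      rw [h3, hxy]
      group
    constructor
    · have e0 : p * δ * p⁻¹ * μ * (p * δ * p⁻¹)⁻¹ = p * (δ * t 1 * δ⁻¹) * p⁻¹ := by
        rw [← hp]
        group
      refine ⟨p * δ * p⁻¹, hδ, ?_, ?_, ?_⟩
      · rw [e0]
        conv_rhs => rw [← hp]
        exact comm_conj_iff.2 q1
      · rw [e0]
        intro h3
        rw [← hp] at h3
        exact q2 (hcan _ _ h3)
      · rw [e0]
        intro h3
        rw [← hpi] at h3
        exact q3 (hcan _ _ h3)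
    · intro ε hε c1 c2 c3 c4
      have e0 : ε * μ * ε⁻¹ = p * ((p⁻¹ * ε * p) * t 1 * (p⁻¹ * ε * p)⁻¹) * p⁻¹ := by
        rw [← hp]
        group
      rw [e0] at c1 c2 c3 c4
      refine q4 (p⁻¹ * ε * p) (mem_cj' hε) ?_ ?_ ?_ c4
      · conv_rhs at c1 => rw [← hp]
        exact comm_conj_iff.1 c1
      · intro h3
        rw [h3] at c2
        exact c2 hp
      · intro h3
        rw [h3] at c3
        exact c3 hpi
  · intro g hg hgμ
    have h := nd_of hΓ h1 h2 hd hn hp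
    obtain ⟨C, hC⟩ := cls_surj ((cls P)⁻¹ * g * cls P)
    have h3 : Commute (cls C) (t 1) := by
      rw [← comm_conj_iff (p := cls P), hp, hC]
      have h4 : cls P * ((cls P)⁻¹ * g * cls P) * (cls P)⁻¹ = g := by group
      rw [h4]
      exact hgμ
    obtain ⟨β, hβ⟩ := comm_t1 h3
    have h5 : t β ∈ cj (cls P) Δ := by
      rw [← hβ, hC]
      exact mem_cj' hg
    have h6 := closure_cj hp (h.gen_trans (hintc hint P) h5)
    rw [← hβ, hC] at h6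
    have h7 : cls P * ((cls P)⁻¹ * g * cls P) * (cls P)⁻¹ = g := by group
    rwa [h7] at h6
  · rintro s ⟨Q, hQ, hs, hgen⟩
    have h := nd_of hΓ h1 h2 hd hn hQ
    have htf : ∀ g ∈ cj (cls Q) Γ, ∀ n : ℕ, 0 < n → g ^ n = 1 → g = 1 := by
      intro g hg n hn0 hgn
      have h3 : cls Q * g * (cls Q)⁻¹ = 1 := by
        refine hΓ.torsionFree _ hg n hn0 ?_
        rw [conj_pow, hgn]
        group
      have h4 : g = (cls Q)⁻¹ * (cls Q * g * (cls Q)⁻¹) * cls Q := by group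
      rw [h4, h3]
      group
    obtain ⟨z, n, hz, hzj, hz1, e3⟩ := h.type
    obtain ⟨x, y, e1, e2⟩ := h.deg htf (s := s) hs (fun β hβ => by
      obtain ⟨a, b, hab⟩ := hgen _ hβ (by
        rw [← hQ]
        exact comm_conj_iff.2 (t_comm _ _))
      refine ⟨a, b, t_inj ?_⟩
      have h3 : t β = (cls Q)⁻¹ * (cls Q * t β * (cls Q)⁻¹) * cls Q := by group
      have h4 : cls Q * t β * (cls Q)⁻¹ = cls Q * t (a + b * s) * (cls Q)⁻¹ := hab
      rw [h3, h4]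
      group) hz hzj hz1 (h.lattice_type (hintc hint Q) hz e3)
    refine ⟨n, z, x, y, (type_prim e3).1, (type_prim e3).2, e1, ?_⟩
    have h4 := Subgroup.relIndex_map_map_of_injective (f := (MulAut.conj (cls Q)).toMonoidHom)
      (cj (cls Q) Γ) (cj (cls Q) Δ) (MulAut.conj (cls Q)).injective
    rw [hsurj, hsurj] at h4
    rw [h4]
    exact e2

end

end Pool.Agent.HSK
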