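import Mathlib

/-!
# HSK/Defs: hyperbolic knot groups in `PSL(2, ℂ)` (MP_412ec3_gt)
-/

set_option autoImplicit false

noncomputable section

namespace Pool.Agent.HSK

open Matrix
open scoped MatrixGroups

/-- the image in `PSL(2, ℂ)` of a matrix of determinant one -/
def cls (A : SL(2, ℂ)) : PSL(2, ℂ) := QuotientGroup.mk A

/-- parabolic elements of `PSL(2, ℂ)`: the nontrivial elements represented by a matrix of trace `2` -/
def IsParabolic (g : PSL(2, ℂ)) : Prop := g ≠ 1 ∧ ∃ A : SL(2, ℂ), cls A = g ∧ A.1.trace = 2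

/-- `Γ` is a hyperbolic knot group with meridian `μ`: discrete, torsion free, normally generated by the
parabolic element `μ`, with one cusp (every parabolic element is conjugate in `Γ` to an element which fixes the
fixed point of `μ`, that is, commutes with `μ`) of rank two, and with infinite abelianization. -/
structure IsKnotGroup (Γ : Subgroup PSL(2, ℂ)) (μ : PSL(2, ℂ)) : Prop where
  discrete : DiscreteTopology Γ
  torsionFree : ∀ g ∈ Γ, ∀ n : ℕ, 0 < n → g ^ n = 1 → g = 1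
  mem : μ ∈ Γ
  parabolic : IsParabolic μ
  normalGen : Subgroup.normalClosure ({⟨μ, mem⟩} : Set Γ) = ⊤
  oneCusp : ∀ g ∈ Γ, IsParabolic g → ∃ γ ∈ Γ, Commute (γ * g * γ⁻¹) μ
  rankTwo : ∃ τ ∈ Γ, Commute τ μ ∧ ∀ a b : ℤ, μ ^ a * τ ^ b = 1 → a = 0 ∧ b = 0
  infinite : Infinite (Abelianization Γ)

/-- the trace field of a subgroup of `PSL(2, ℂ)` -/
def traceField (Γ : Subgroup PSL(2, ℂ)) : Subfield ℂ :=
  Subfield.closure {t | ∃ A : SL(2, ℂ), cls A ∈ Γ ∧ A.1.trace = t}

/-- the subgroup of `Δ` generated by the conjugates (in `Δ`) of the parabolic elements of `Δ` which fix the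
fixed point of `μ` -/
def cuspGen (Δ : Subgroup PSL(2, ℂ)) (μ : PSL(2, ℂ)) : Subgroup PSL(2, ℂ) :=
  Subgroup.closure {g | ∃ δ ∈ Δ, ∃ t ∈ Δ, IsParabolic t ∧ Commute t μ ∧ g = δ * t * δ⁻¹}

end Pool.Agent.HSK
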