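import Pool.Agent.HSK.Concl

/-!
# HSK/Fin: `Δ / Γ` is finite, integral traces
-/

set_option autoImplicit false

noncomputable section

namespace Pool.Agent.HSK

open Matrix
open scoped MatrixGroups commutatorElement

variable {Γ Δ : Subgroup PSL(2, ℂ)} {k : Subfield ℂ}

theorem reduce {u v : ℂ} (huv : u.re * v.im - u.im * v.re ≠ 0) (β : ℂ) :
    ∃ x y : ℤ, ‖β - (x * u + y * v)‖ ≤ ‖u‖ + ‖v‖ := by
  set d : ℝ := u.re * v.im - u.im * v.re with hd
  set s : ℝ := (β.re * v.im - β.im * v.re) / d with hs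
  set r : ℝ := (u.re * β.im - u.im * β.re) / d with hr
  have hβ2 : β = (s : ℂ) * u + (r : ℂ) * v := by
    apply Complex.ext
    · simp only [Complex.add_re, Complex.mul_re, Complex.ofReal_re, Complex.ofReal_im, zero_mul, sub_zero]
      rw [hs, hr]
      field_simp
      rw [hd]
      ring
    · simp only [Complex.add_im, Complex.mul_im, Complex.ofReal_re, Complex.ofReal_im, zero_mul, add_zero]
      rw [hs, hr]
      field_simp
      rw [hd]
      ring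
  refine ⟨⌊s⌋, ⌊r⌋, ?_⟩
  have h2 : β - ((⌊s⌋ : ℤ) * u + (⌊r⌋ : ℤ) * v) = ((Int.fract s : ℝ) : ℂ) * u + ((Int.fract r : ℝ) : ℂ) * v := by
    rw [Int.fract, Int.fract]
    conv_lhs => rw [hβ2]
    push_cast
    ring
  rw [h2]
  refine (norm_add_le _ _).trans ?_
  rw [norm_mul, norm_mul, Complex.norm_real, Complex.norm_real, Real.norm_eq_abs, Real.norm_eq_abs,
    abs_of_nonneg (Int.fract_nonneg _), abs_of_nonneg (Int.fract_nonneg _)]
  have h3 := (Int.fract_lt_one s).le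
  have h4 := (Int.fract_lt_one r).le
  have h5 := mul_le_of_le_one_left (norm_nonneg u) h3
  have h6 := mul_le_of_le_one_left (norm_nonneg v) h4
  linarith

theorem cryst_pow {a : ℂ} (h : a = 1 ∨ a = -1 ∨ a ^ 2 + 1 = 0 ∨ a ^ 2 + a + 1 = 0 ∨ a ^ 2 - a + 1 = 0) :
    a ^ 12 = 1 := by
  rcases h with h | h | h | h | h
  · rw [h]; norm_num
  · rw [h]; norm_num
  · have h1 : a ^ 2 = -1 := by linear_combination h
    have h2 : a ^ 12 = (a ^ 2) ^ 6 := by ring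
    rw [h2, h1]; norm_num
  · have h1 : a ^ 3 = 1 := by linear_combination (a - 1) * h
    have h2 : a ^ 12 = (a ^ 3) ^ 4 := by ring
    rw [h2, h1]; norm_num
  · have h1 : a ^ 3 = -1 := by linear_combination (a + 1) * h
    have h2 : a ^ 12 = (a ^ 3) ^ 4 := by ring
    rw [h2, h1]; norm_num

theorem roots_finite : {a : ℂ | a ^ 12 = 1}.Finite := by
  refine Set.Finite.subset (Polynomial.nthRootsFinset 12 (1 : ℂ)).finite_toSet ?_
  intro a ha
  rw [Finset.mem_coe, Polynomial.mem_nthRootsFinset (by norm_num)]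
  exact ha

/-- two elements fixing the cusp with the same multiplier differ by a translation -/
theorem same_t {A B : SL(2, ℂ)} (hA : A.1 1 0 = 0) (hB : B.1 1 0 = 0) (h : A.1 0 0 ^ 2 = B.1 0 0 ^ 2) :
    ∃ β, cls A = t β * cls B := by
  obtain ⟨h1, h2⟩ := up_inv hB
  obtain ⟨h3, h4⟩ := up_prod hA h1
  have h5 : (A * B⁻¹).1 0 0 ^ 2 = 1 := by
    rw [h4, h2, mul_pow, h]
    have h6 := up_mul hB
    linear_combination (B.1 0 0 * B.1 1 1 + 1) * h6
  obtain ⟨β, hβ⟩ := up_pm h3 h5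
  refine ⟨β, ?_⟩
  rw [← hβ, cls_mul, cls_inv]
  group

theorem ND.fin (h : ND Γ Δ k) : ∃ Q : Set PSL(2, ℂ), Q.Finite ∧ ∀ δ ∈ Δ, ∃ q ∈ Q, ∃ γ ∈ Γ, δ = q * γ := by
  classical
  obtain ⟨τ, hτ, him⟩ := h.tau
  set w : ℂ → PSL(2, ℂ) := fun a =>
    if h : ∃ A : SL(2, ℂ), A.1 1 0 = 0 ∧ cls A ∈ Δ ∧ A.1 0 0 ^ 2 = a then cls h.choose else 1 with hw
  refine ⟨⋃ a ∈ {a : ℂ | a ^ 12 = 1}, (fun β => t β * w a) '' {β : ℂ | β ∈ Lt Δ ∧ ‖β‖ ≤ 1 + ‖τ‖},
    roots_finite.biUnion fun a _ => (sep_finite h.sep _).image _, ?_⟩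
  intro δ hδ
  obtain ⟨γ, hγ, A, hA, hA2⟩ := h.up (Δ.inv_mem hδ)
  obtain ⟨hB, -⟩ := up_inv hA
  set B := A⁻¹ with hBd
  have hBΔ : cls B ∈ Δ := by
    rw [hBd, cls_inv, hA2]
    exact Δ.inv_mem (Δ.mul_mem (h.le hγ) (Δ.inv_mem hδ))
  have hδ2 : δ = cls B * γ := by
    rw [hBd, cls_inv, hA2]
    group
  set a := B.1 0 0 ^ 2 with ha
  have hex : ∃ A : SL(2, ℂ), A.1 1 0 = 0 ∧ cls A ∈ Δ ∧ A.1 0 0 ^ 2 = a := ⟨B, hB, hBΔ, rfl⟩
  have hwa : w a = cls hex.choose := dif_pos hex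
  obtain ⟨hC, hCΔ, hCa⟩ := hex.choose_spec
  set C := hex.choose with hCd
  obtain ⟨β, hβ⟩ := same_t hB hC (ha.symm.trans hCa.symm)
  have hβΔ : β ∈ Lt Δ := by
    rw [mem_Lt]
    have h1 : t β = cls B * (cls C)⁻¹ := by rw [hβ]; group
    rw [h1]
    exact Δ.mul_mem hBΔ (Δ.inv_mem hCΔ)
  have hna : ‖a‖ = 1 := h.norm hB hBΔ
  obtain ⟨x, y, hxy⟩ := reduce (u := a) (v := a * τ) (by
    have h1 : a.re * (a * τ).im - a.im * (a * τ).re = τ.im * (a.re ^ 2 + a.im ^ 2) := by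
      rw [Complex.mul_im, Complex.mul_re]
      ring
    rw [h1]
    have h2 : a.re ^ 2 + a.im ^ 2 = 1 := by
      have h3 := Complex.sq_norm a
      rw [hna, Complex.normSq_apply] at h3
      linarith
    rw [h2, mul_one]
    exact him) β
  rw [norm_mul, hna, one_mul] at hxy
  set β' := β - (x * a + y * (a * τ)) with hβ'
  have ht2 : t ((x : ℂ) + y * τ) ∈ Γ := by
    rw [t_add, t_int]
    have h1 : t (x : ℂ) ∈ Γ := by
      have h2 := t_int x 1
      rw [mul_one] at h2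
      rw [h2]
      exact Γ.zpow_mem h.mem x
    exact Γ.mul_mem h1 (Γ.zpow_mem hτ y)
  have haΔ : a * ((x : ℂ) + y * τ) ∈ Lt Δ := h.mult hB hBΔ (h.le ht2)
  have hβ'Δ : β' ∈ Lt Δ := by
    have h1 : β' = β - a * ((x : ℂ) + y * τ) := by rw [hβ']; ring
    rw [h1]
    exact (Lt Δ).sub_mem hβΔ haΔ
  refine ⟨t β' * w a, ?_, t ((x : ℂ) + y * τ) * γ, Γ.mul_mem ht2 hγ, ?_⟩
  · rw [Set.mem_iUnion₂]
    exact ⟨a, cryst_pow (h.cryst hB hBΔ), β', ⟨hβ'Δ, hxy⟩, rfl⟩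
  · have h1 := t_conj hC ((x : ℂ) + y * τ)
    rw [hCa] at h1
    have h2 : β = β' + a * ((x : ℂ) + y * τ) := by rw [hβ']; ring
    rw [hδ2, hβ, hwa, h2, t_add, ← h1]
    group

theorem ND.pow_mem (h : ND Γ Δ k) {g : PSL(2, ℂ)} (hg : g ∈ Δ) : ∃ n : ℕ, 0 < n ∧ g ^ n ∈ Γ := by
  obtain ⟨Q, hQ, hQ2⟩ := h.fin
  choose! q hq c hc hqc using hQ2
  obtain ⟨n, n', hn, heq⟩ := Set.Finite.exists_lt_map_eq_of_forall_mem (f := fun n : ℕ => q (g ^ n))
    (fun n => hq _ (Δ.pow_mem hg n)) hQ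
  refine ⟨n' - n, Nat.sub_pos_of_lt hn, ?_⟩
  have h1 := hqc _ (Δ.pow_mem hg n)
  have h2 := hqc _ (Δ.pow_mem hg n')
  have heq' : q (g ^ n) = q (g ^ n') := heq
  have h3 : g ^ n' = g ^ n * g ^ (n' - n) := by rw [← pow_add, Nat.add_sub_cancel' hn.le]
  have h4 : g ^ (n' - n) = (c (g ^ n))⁻¹ * c (g ^ n') := by
    have h5 : g ^ (n' - n) = (g ^ n)⁻¹ * g ^ n' := by rw [h3]; group
    rw [h5]
    conv_lhs => rw [h1, h2, heq']
    group
  rw [h4]
  exact Γ.mul_mem (Γ.inv_mem (hc _ (Δ.pow_mem hg n))) (hc _ (Δ.pow_mem hg n'))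

/-! ### integrality -/

theorem quad_int {y y' : ℂ} (h1 : y * y' = 1) (h2 : IsIntegral ℤ (y + y')) : IsIntegral ℤ y := by
  have h3 : IsIntegral (integralClosure ℤ ℂ) y := by
    set T : integralClosure ℤ ℂ := ⟨y + y', h2⟩ with hT
    refine ⟨Polynomial.X ^ 2 + (Polynomial.C (-T) * Polynomial.X + Polynomial.C 1), ?_, ?_⟩
    · refine Polynomial.monic_X_pow_add ?_
      exact lt_of_le_of_lt (Polynomial.degree_linear_le) (by norm_num)
    · have hT2 : algebraMap (integralClosure ℤ ℂ) ℂ (-T) = -(y + y') := rfl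
      have hT3 : algebraMap (integralClosure ℤ ℂ) ℂ 1 = 1 := rfl
      rw [Polynomial.eval₂_add, Polynomial.eval₂_add, Polynomial.eval₂_pow, Polynomial.eval₂_X,
        Polynomial.eval₂_mul, Polynomial.eval₂_X, Polynomial.eval₂_C, Polynomial.eval₂_C, hT2, hT3]
      linear_combination -h1
  exact isIntegral_trans _ h3

theorem trace_pow_int {X : SL(2, ℂ)} {n : ℕ} (hn : 0 < n) (h : IsIntegral ℤ (X ^ n).1.trace) :
    IsIntegral ℤ X.1.trace := by
  set x := X.1.trace with hx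
  obtain ⟨s, hs⟩ := IsAlgClosed.exists_pow_nat_eq (x ^ 2 - 4) (n := 2) (by norm_num)
  set l : ℂ := (x + s) / 2 with hl
  set l' : ℂ := (x - s) / 2 with hl'
  have h1 : l * l' = 1 := by
    rw [hl, hl']
    linear_combination (-1 / 4 : ℂ) * hs
  have h2 : l + l' = x := by
    rw [hl, hl']
    ring
  clear_value l l'
  have hCH : X.1 * X.1 = x • X.1 - 1 := by
    have hd := det_eq X
    rw [Matrix.trace_fin_two] at hx
    ext i j
    fin_cases i <;> fin_cases j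
    · simp only [Matrix.mul_apply, Fin.sum_univ_two, Matrix.sub_apply, Matrix.smul_apply, smul_eq_mul, Matrix.one_apply]
      simp only [Fin.zero_eta, Fin.isValue, if_true]
      rw [hx]
      linear_combination -hd
    · simp only [Matrix.mul_apply, Fin.sum_univ_two, Matrix.sub_apply, Matrix.smul_apply, smul_eq_mul, Matrix.one_apply]
      simp only [Fin.zero_eta, Fin.mk_one, Fin.isValue, zero_ne_one, if_false]
      rw [hx]
      ring
    · simp only [Matrix.mul_apply, Fin.sum_univ_two, Matrix.sub_apply, Matrix.smul_apply, smul_eq_mul, Matrix.one_apply]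
      simp only [Fin.zero_eta, Fin.mk_one, Fin.isValue, one_ne_zero, if_false]
      rw [hx]
      ring
    · simp only [Matrix.mul_apply, Fin.sum_univ_two, Matrix.sub_apply, Matrix.smul_apply, smul_eq_mul, Matrix.one_apply]
      simp only [Fin.mk_one, Fin.isValue, if_true]
      rw [hx]
      linear_combination -hd
  have hrec : ∀ m : ℕ, (X ^ m).1.trace = l ^ m + l' ^ m ∧ (X ^ (m + 1)).1.trace = l ^ (m + 1) + l' ^ (m + 1) := by
    intro m
    induction m with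
    | zero =>
      refine ⟨?_, ?_⟩
      · rw [pow_zero, pow_zero, pow_zero, Matrix.SpecialLinearGroup.coe_one, Matrix.trace_one, Fintype.card_fin]
        norm_num
      · rw [zero_add, pow_one, pow_one, pow_one, ← hx, h2]
    | succ m ih =>
      refine ⟨ih.2, ?_⟩
      have h4 : (X ^ (m + 1 + 1)).1 = x • (X ^ (m + 1)).1 - (X ^ m).1 := by
        have h5 : (X ^ (m + 1 + 1)).1 = (X ^ m).1 * (X.1 * X.1) := by
          rw [Matrix.SpecialLinearGroup.coe_pow, Matrix.SpecialLinearGroup.coe_pow, pow_succ, pow_succ, mul_assoc]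
        rw [h5, hCH, Matrix.mul_sub, Matrix.mul_one, Matrix.mul_smul, Matrix.SpecialLinearGroup.coe_pow,
          Matrix.SpecialLinearGroup.coe_pow, pow_succ]
      rw [h4, Matrix.trace_sub, Matrix.trace_smul, ih.1, ih.2, smul_eq_mul]
      linear_combination (l ^ m + l' ^ m) * h1 - (l ^ (m + 1) + l' ^ (m + 1)) * h2
  have h5 := (hrec n).1
  rw [h5] at h
  have h6 : l ^ n * l' ^ n = 1 := by rw [← mul_pow, h1, one_pow]
  have h7 : IsIntegral ℤ l := IsIntegral.of_pow hn (quad_int h6 h)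
  have h8 : IsIntegral ℤ l' := IsIntegral.of_pow hn (quad_int (by rw [mul_comm]; exact h6) (by rw [add_comm]; exact h))
  rw [← h2]
  exact h7.add h8

theorem ND.trace_int (h : ND Γ Δ k) (hint : ∀ A, cls A ∈ Γ → IsIntegral ℤ A.1.trace) {X : SL(2, ℂ)}
    (hX : cls X ∈ Δ) : IsIntegral ℤ X.1.trace := by
  obtain ⟨n, hn, h1⟩ := h.pow_mem hX
  rw [← cls_pow] at h1
  exact trace_pow_int hn (hint _ h1)

theorem ND.beta_c (h : ND Γ Δ k) (hint : ∀ A, cls A ∈ Γ → IsIntegral ℤ A.1.trace) {β : ℂ} (hβ : t β ∈ Δ)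
    {A : SL(2, ℂ)} (hA : cls A ∈ Γ) : IsIntegral ℤ (β * A.1 1 0) := by
  have h2 := h.trace_int hint (X := T β * A) (by rw [cls_mul]; exact Δ.mul_mem hβ (h.le hA))
  have h3 : (T β * A).1.trace = A.1.trace + β * A.1 1 0 := by
    rw [Matrix.SpecialLinearGroup.coe_mul, T_coe, Matrix.trace_fin_two, Matrix.trace_fin_two]
    simp [Matrix.mul_apply, Fin.sum_univ_two]
    ring
  rw [h3] at h2
  have h4 := h2.sub (hint A hA)
  rwa [add_sub_cancel_left] at h4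

/-- the ideal generated by the lower left entries is idempotent -/
theorem ND.idem (h : ND Γ Δ k) {b : ℂ} (hb : ∀ A, cls A ∈ Γ → IsIntegral ℤ (b * A.1 1 0)) :
    ∀ A, cls A ∈ Γ → IsIntegral ℤ (b ^ 2 * A.1 1 0) := by
  have key : ∀ x ∈ Γ, ∃ X : SL(2, ℂ), cls X = x ∧ ∀ H : SL(2, ℂ), cls H ∈ Γ →
      IsIntegral ℤ (b ^ 2 * ((X * H).1 1 0 - H.1 1 0)) := by
    refine ngen_induction h.mem h.gen (fun x => ∃ X : SL(2, ℂ), cls X = x ∧ ∀ H : SL(2, ℂ), cls H ∈ Γ →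
      IsIntegral ℤ (b ^ 2 * ((X * H).1 1 0 - H.1 1 0))) ?_ ?_ ?_ ?_
    · intro γ hγ
      obtain ⟨G, rfl⟩ := cls_surj γ
      refine ⟨G * T 1 * G⁻¹, rfl, fun H hH => ?_⟩
      have h1 := hb G hγ
      have h2 := hb (G⁻¹ * H) (by rw [cls_mul, cls_inv]; exact Γ.mul_mem (Γ.inv_mem hγ) hH)
      have h3 : G * T 1 * G⁻¹ * H = G * (T 1 * (G⁻¹ * H)) := by group
      have h4 : H.1 = (G * (G⁻¹ * H)).1 := by rw [mul_inv_cancel_left]
      have h5 : (G * T 1 * G⁻¹ * H).1 1 0 - H.1 1 0 = G.1 1 0 * (G⁻¹ * H).1 1 0 := by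
        rw [h3]
        conv_lhs => rw [h4]
        obtain ⟨K, hK⟩ : ∃ K, K = G⁻¹ * H := ⟨_, rfl⟩
        rw [← hK, Matrix.SpecialLinearGroup.coe_mul, Matrix.SpecialLinearGroup.coe_mul, Matrix.SpecialLinearGroup.coe_mul,
          T_coe]
        simp [Matrix.mul_apply, Fin.sum_univ_two, Matrix.vecMul, dotProduct]
        ring
      rw [h5]
      have h6 : b ^ 2 * (G.1 1 0 * (G⁻¹ * H).1 1 0) = (b * G.1 1 0) * (b * (G⁻¹ * H).1 1 0) := by ring
      rw [h6]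
      exact h1.mul h2
    · refine ⟨1, cls_one, fun H _ => ?_⟩
      rw [one_mul, sub_self, mul_zero]
      exact isIntegral_zero
    · rintro x hx y hy ⟨X, rfl, hX⟩ ⟨Y, rfl, hY⟩
      refine ⟨X * Y, cls_mul X Y, fun H hH => ?_⟩
      have h1 := hX (Y * H) (by rw [cls_mul]; exact Γ.mul_mem hy hH)
      have h2 := hY H hH
      have h3 : b ^ 2 * ((X * Y * H).1 1 0 - H.1 1 0) =
          b ^ 2 * ((X * (Y * H)).1 1 0 - (Y * H).1 1 0) + b ^ 2 * ((Y * H).1 1 0 - H.1 1 0) := by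
        rw [mul_assoc]
        ring
      rw [h3]
      exact h1.add h2
    · rintro x hx ⟨X, rfl, hX⟩
      refine ⟨X⁻¹, cls_inv X, fun H hH => ?_⟩
      have h1 := hX (X⁻¹ * H) (by rw [cls_mul, cls_inv]; exact Γ.mul_mem (Γ.inv_mem hx) hH)
      rw [mul_inv_cancel_left] at h1
      have h2 := h1.neg
      have h3 : -(b ^ 2 * (H.1 1 0 - (X⁻¹ * H).1 1 0)) = b ^ 2 * ((X⁻¹ * H).1 1 0 - H.1 1 0) := by ring
      rwa [h3] at h2
  intro A hA
  obtain ⟨X, hX, h1⟩ := key _ hA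
  have h2 := h1 1 (by rw [cls_one]; exact Γ.one_mem)
  rw [mul_one] at h2
  have h3 : (1 : SL(2, ℂ)).1 1 0 = 0 := up_one.1
  rw [h3, sub_zero] at h2
  rcases cls_eq.1 hX with h4 | h4
  · rwa [h4] at h2
  · rw [h4, Matrix.neg_apply, mul_neg] at h2
    have := h2.neg
    rwa [neg_neg] at this

theorem ND.iter (h : ND Γ Δ k) (hint : ∀ A, cls A ∈ Γ → IsIntegral ℤ A.1.trace) {β : ℂ} (hβ : t β ∈ Δ) (n : ℕ) :
    ∀ A, cls A ∈ Γ → IsIntegral ℤ (β ^ (2 ^ n) * A.1 1 0) := by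
  induction n with
  | zero =>
    intro A hA
    rw [pow_zero, pow_one]
    exact h.beta_c hint hβ hA
  | succ n ih =>
    intro A hA
    rw [pow_succ 2 n, pow_mul]
    exact h.idem ih A hA

theorem conj_int {x : ℂ} (hx : IsIntegral ℤ x) : IsIntegral ℤ ((starRingEnd ℂ) x) := by
  have := hx.map (starRingEnd ℂ).toIntAlgHom
  exact this

/-- the translations of `Δ` are not shorter than the meridian -/
theorem ND.short (h : ND Γ Δ k) (hint : ∀ A, cls A ∈ Γ → IsIntegral ℤ A.1.trace) {β : ℂ} (hβ : t β ∈ Δ)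
    (h0 : β ≠ 0) {m : ℕ} (hm : 0 < m) {j : ℤ} (hj : (m : ℝ) * Complex.normSq β = j) : 1 ≤ Complex.normSq β := by
  by_contra hlt
  push Not at hlt
  obtain ⟨A0, hA0, hc0⟩ := h.exists_base
  have hf0 : 0 < Complex.normSq β := Complex.normSq_pos.2 h0
  set f := Complex.normSq β with hf
  set c := A0.1 1 0 with hc
  -- an integer multiple of `c⁻¹`
  have hcint : IsIntegral ℤ c := by
    have := h.beta_c hint (h.le h.mem) hA0
    rwa [one_mul] at this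
  have hcalg : IsAlgebraic ℤ c⁻¹ := hcint.isAlgebraic.inv
  obtain ⟨r, hr, hrint⟩ := hcalg.exists_integral_multiple
  have hrR : (0 : ℝ) < (r : ℝ) ^ 2 := by
    have : (r : ℝ) ≠ 0 := by exact_mod_cast hr
    positivity
  obtain ⟨n, hn⟩ : ∃ n : ℕ, f ^ n < 1 / (r : ℝ) ^ 2 := exists_pow_lt_of_lt_one (by positivity) hlt
  have hn2 : f ^ (2 ^ n) < 1 / (r : ℝ) ^ 2 := by
    refine lt_of_le_of_lt ?_ hn
    exact pow_le_pow_of_le_one hf0.le hlt.le (Nat.lt_two_pow_self).le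
  have h1 := h.iter hint hβ n A0 hA0
  have h2 : IsIntegral ℤ ((r : ℂ) * β ^ (2 ^ n)) := by
    have h3 := hrint.mul h1
    have h4 : r • c⁻¹ * (β ^ (2 ^ n) * A0.1 1 0) = (r : ℂ) * β ^ (2 ^ n) := by
      rw [zsmul_eq_mul, ← hc]
      field_simp
    rwa [h4] at h3
  have h3 := h2.mul (conj_int h2)
  have h4 : (r : ℂ) * β ^ (2 ^ n) * (starRingEnd ℂ) ((r : ℂ) * β ^ (2 ^ n)) = (((r : ℝ) ^ 2 * f ^ (2 ^ n) : ℝ) : ℂ) := by
    rw [map_mul, map_pow, map_intCast]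
    have h5 : β * (starRingEnd ℂ) β = (f : ℂ) := by rw [Complex.mul_conj]
    have h6 : (r : ℂ) * β ^ (2 ^ n) * ((r : ℂ) * (starRingEnd ℂ) β ^ (2 ^ n)) =
        (r : ℂ) ^ 2 * (β * (starRingEnd ℂ) β) ^ (2 ^ n) := by ring
    rw [h6, h5]
    push_cast
    ring
  rw [h4] at h3
  -- it is rational
  have hmR : (m : ℝ) ≠ 0 := Nat.cast_ne_zero.2 hm.ne'
  have hfq : f = (((j : ℚ) / m : ℚ) : ℝ) := by
    push_cast
    rw [eq_div_iff hmR, mul_comm]
    exact hj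
  obtain ⟨z, hz⟩ : ∃ z : ℤ, (r : ℝ) ^ 2 * f ^ (2 ^ n) = z := by
    have h5 : (((r : ℝ) ^ 2 * f ^ (2 ^ n) : ℝ) : ℂ) = algebraMap ℚ ℂ ((r : ℚ) ^ 2 * ((j : ℚ) / m) ^ (2 ^ n)) := by
      rw [hfq, eq_ratCast]
      push_cast
      ring
    have h6 := h3
    rw [h5] at h6
    have h7 : IsIntegral ℤ ((r : ℚ) ^ 2 * ((j : ℚ) / m) ^ (2 ^ n)) :=
      (isIntegral_algebraMap_iff (algebraMap ℚ ℂ).injective).1 h6
    obtain ⟨z, hz⟩ := IsIntegrallyClosed.isIntegral_iff.1 h7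
    refine ⟨z, ?_⟩
    have h8 : (((r : ℝ) ^ 2 * f ^ (2 ^ n) : ℝ) : ℂ) = (z : ℂ) := by
      rw [h5, ← hz]
      simp
    exact_mod_cast h8
  have h5 : 0 < (r : ℝ) ^ 2 * f ^ (2 ^ n) := by positivity
  have h6 : (r : ℝ) ^ 2 * f ^ (2 ^ n) < 1 := by
    have := mul_lt_mul_of_pos_left hn2 hrR
    rwa [mul_one_div_cancel hrR.ne'] at this
  rw [hz] at h5 h6
  have h7 : (0 : ℤ) < z := by exact_mod_cast h5
  have h8 : z < 1 := by exact_mod_cast h6
  omega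

end Pool.Agent.HSK
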