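import Pool.Agent.HSK.Mat

/-!
# HSK/Fld: the field of definition
-/

set_option autoImplicit false

noncomputable section

namespace Pool.Agent.HSK

open Matrix
open scoped MatrixGroups

/-- after conjugation by `T s` the entries of `B` lie in `k` -/
def InK (k : Subfield ℂ) (s : ℂ) (B : SL(2, ℂ)) : Prop := ∀ i j, (T (-s) * B * T s).1 i j ∈ k

/-- elements of `PSL(2, ℂ)` represented by such matrices -/
def InP (k : Subfield ℂ) (s : ℂ) (g : PSL(2, ℂ)) : Prop := ∃ B, cls B = g ∧ InK k s B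

theorem inK_coe (s : ℂ) (B : SL(2, ℂ)) : (T (-s) * B * T s).1 =
    !![B.1 0 0 - s * B.1 1 0, B.1 0 1 + s * (B.1 0 0 - B.1 1 1) - s ^ 2 * B.1 1 0; B.1 1 0, B.1 1 1 + s * B.1 1 0] := by
  rw [Matrix.SpecialLinearGroup.coe_mul, Matrix.SpecialLinearGroup.coe_mul, T_coe, T_coe]
  ext i j
  fin_cases i <;> fin_cases j
  · simp [Matrix.mul_apply, Fin.sum_univ_two, Matrix.vecMul, dotProduct]
    ring
  · simp [Matrix.mul_apply, Fin.sum_univ_two, Matrix.vecMul, dotProduct]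
    ring
  · simp [Matrix.mul_apply, Fin.sum_univ_two, Matrix.vecMul, dotProduct]
  · simp [Matrix.mul_apply, Fin.sum_univ_two, Matrix.vecMul, dotProduct]
    ring

theorem inK_iff {k : Subfield ℂ} {s : ℂ} {B : SL(2, ℂ)} : InK k s B ↔
    (B.1 0 0 - s * B.1 1 0 ∈ k ∧ B.1 0 1 + s * (B.1 0 0 - B.1 1 1) - s ^ 2 * B.1 1 0 ∈ k) ∧
      (B.1 1 0 ∈ k ∧ B.1 1 1 + s * B.1 1 0 ∈ k) := by
  unfold InK
  rw [inK_coe]
  constructor
  · intro h
    exact ⟨⟨h 0 0, h 0 1⟩, ⟨h 1 0, h 1 1⟩⟩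
  · rintro ⟨⟨h1, h2⟩, ⟨h3, h4⟩⟩ i j
    fin_cases i <;> fin_cases j
    · exact h1
    · exact h2
    · exact h3
    · exact h4

theorem inK_mul {k : Subfield ℂ} {s : ℂ} {A B : SL(2, ℂ)} (hA : InK k s A) (hB : InK k s B) : InK k s (A * B) := by
  intro i j
  have h1 : T (-s) * (A * B) * T s = (T (-s) * A * T s) * (T (-s) * B * T s) := by
    rw [T_neg]
    group
  rw [h1, Matrix.SpecialLinearGroup.coe_mul, Matrix.mul_apply]
  exact k.sum_mem fun l _ => k.mul_mem (hA i l) (hB l j)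

theorem inK_inv {k : Subfield ℂ} {s : ℂ} {A : SL(2, ℂ)} (hA : InK k s A) : InK k s A⁻¹ := by
  intro i j
  have h1 : T (-s) * A⁻¹ * T s = (T (-s) * A * T s)⁻¹ := by
    rw [T_neg]
    group
  rw [h1, Matrix.SpecialLinearGroup.coe_inv, Matrix.adjugate_fin_two]
  fin_cases i <;> fin_cases j
  · exact hA 1 1
  · exact k.neg_mem (hA 0 1)
  · exact k.neg_mem (hA 1 0)
  · exact hA 0 0

theorem inP_mul {k : Subfield ℂ} {s : ℂ} {g g' : PSL(2, ℂ)} (hg : InP k s g) (hg' : InP k s g') :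
    InP k s (g * g') := by
  obtain ⟨B, rfl, hB⟩ := hg
  obtain ⟨B', rfl, hB'⟩ := hg'
  exact ⟨B * B', cls_mul _ _, inK_mul hB hB'⟩

theorem inP_inv {k : Subfield ℂ} {s : ℂ} {g : PSL(2, ℂ)} (hg : InP k s g) : InP k s g⁻¹ := by
  obtain ⟨B, rfl, hB⟩ := hg
  exact ⟨B⁻¹, cls_inv _, inK_inv hB⟩

theorem inP_t {k : Subfield ℂ} (s : ℂ) {β : ℂ} (hβ : β ∈ k) : InP k s (t β) := by
  refine ⟨T β, rfl, inK_iff.2 ⟨⟨?_, ?_⟩, ?_, ?_⟩⟩
  · rw [T_coe]
    simp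
  · rw [T_coe]
    simpa using hβ
  · rw [T_coe]
    simp
  · rw [T_coe]
    simp

theorem inP_one (k : Subfield ℂ) (s : ℂ) : InP k s 1 := by
  rw [← t_zero]
  exact inP_t s k.zero_mem

theorem inP_trace {k : Subfield ℂ} {s : ℂ} {A : SL(2, ℂ)} (h : InP k s (cls A)) : A.1.trace ∈ k := by
  obtain ⟨B, hB, hB2⟩ := h
  have h1 : B.1.trace ∈ k := by
    rw [Matrix.trace_fin_two]
    obtain ⟨⟨h1, -⟩, -, h2⟩ := inK_iff.1 hB2
    have h3 := k.add_mem h1 h2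
    have h4 : B.1 0 0 - s * B.1 1 0 + (B.1 1 1 + s * B.1 1 0) = B.1 0 0 + B.1 1 1 := by ring
    rwa [h4] at h3
  rcases cls_eq.1 hB.symm with h2 | h2
  · rw [h2]
    exact h1
  · rw [h2, Matrix.trace_neg]
    exact k.neg_mem h1

theorem inP_up {k : Subfield ℂ} {s : ℂ} {A : SL(2, ℂ)} (h : InP k s (cls A)) (hA : A.1 1 0 = 0) : A.1 0 0 ∈ k := by
  obtain ⟨B, hB, hB2⟩ := h
  obtain ⟨⟨h1, -⟩, -⟩ := inK_iff.1 hB2
  rcases cls_eq.1 hB.symm with h2 | h2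
  · rw [← h2, hA, mul_zero, sub_zero] at h1
    exact h1
  · have h3 : B.1 = -A.1 := by rw [h2, neg_neg]
    rw [h3, Matrix.neg_apply, Matrix.neg_apply, hA, neg_zero, mul_zero, sub_zero] at h1
    have := k.neg_mem h1
    rwa [neg_neg] at this

/-- the field of definition -/
theorem inK_of_trace {k : Subfield ℂ} {Γ : Subgroup PSL(2, ℂ)} (h1 : t 1 ∈ Γ)
    (htr : ∀ A, cls A ∈ Γ → A.1.trace ∈ k) {A0 : SL(2, ℂ)} (hA0 : cls A0 ∈ Γ) (hc0 : A0.1 1 0 ≠ 0) :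
    ∀ A, cls A ∈ Γ → InK k (A0.1 0 0 / A0.1 1 0) A := by
  set s := A0.1 0 0 / A0.1 1 0 with hs
  have hs0 : A0.1 0 0 = s * A0.1 1 0 := by
    rw [hs]
    field_simp
  have hc : ∀ A, cls A ∈ Γ → A.1 1 0 ∈ k := by
    intro A hA
    have h2 := htr (T 1 * A) (Γ.mul_mem h1 hA)
    have h3 : (T 1 * A).1.trace = A.1.trace + A.1 1 0 := by
      rw [Matrix.SpecialLinearGroup.coe_mul, T_coe, Matrix.trace_fin_two, Matrix.trace_fin_two]
      simp [Matrix.mul_apply, Fin.sum_univ_two]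
      ring
    rw [h3] at h2
    have h4 := k.sub_mem h2 (htr A hA)
    rwa [add_sub_cancel_left] at h4
  have hd : ∀ A, cls A ∈ Γ → A.1 1 1 + s * A.1 1 0 ∈ k := by
    intro A hA
    have h2 := hc (A * A0) (Γ.mul_mem hA hA0)
    have h3 : (A * A0).1 1 0 = (A.1 1 1 + s * A.1 1 0) * A0.1 1 0 := by
      rw [Matrix.SpecialLinearGroup.coe_mul]
      simp only [Matrix.mul_apply, Fin.sum_univ_two]
      rw [hs0]
      ring
    rw [h3] at h2
    have h4 := k.div_mem h2 (hc A0 hA0)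
    rwa [mul_div_cancel_right₀ _ hc0] at h4
  have ha : ∀ A, cls A ∈ Γ → A.1 0 0 - s * A.1 1 0 ∈ k := by
    intro A hA
    have h2 := k.sub_mem (htr A hA) (hd A hA)
    rw [Matrix.trace_fin_two] at h2
    have h3 : A.1 0 0 + A.1 1 1 - (A.1 1 1 + s * A.1 1 0) = A.1 0 0 - s * A.1 1 0 := by ring
    rwa [h3] at h2
  intro A hA
  refine inK_iff.2 ⟨⟨ha A hA, ?_⟩, hc A hA, hd A hA⟩
  have h2 := ha (A * A0) (Γ.mul_mem hA hA0)
  have h3 : (A * A0).1 0 0 - s * (A * A0).1 1 0 =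
      (A.1 0 1 + s * (A.1 0 0 - A.1 1 1) - s ^ 2 * A.1 1 0) * A0.1 1 0 := by
    rw [Matrix.SpecialLinearGroup.coe_mul]
    simp only [Matrix.mul_apply, Fin.sum_univ_two]
    rw [hs0]
    ring
  rw [h3] at h2
  have h4 := k.div_mem h2 (hc A0 hA0)
  rwa [mul_div_cancel_right₀ _ hc0] at h4

end Pool.Agent.HSK
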