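import Mathlib

/-!
# HSK/Grp: the group theoretic core

`Γ` is normally generated by `μ`, `Γ ≤ D`, `r` normalises `D`.  If every element of `D` is, up to a factor of `Γ`,
an element `p` such that `p` and `r p r⁻¹` normalise `⟨μ⟩`, then `r⁻¹ [Γ, Γ] r ≤ [Γ, Γ]`.
-/

set_option autoImplicit false

namespace Pool.Agent.HSK

open scoped commutatorElement

variable {G : Type*} [Group G]

theorem comm_conj {Γ : Subgroup G} {d : G} (h : ∀ x ∈ Γ, d * x * d⁻¹ ∈ Γ) {x : G} (hx : x ∈ ⁅Γ, Γ⁆) :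
    d * x * d⁻¹ ∈ ⁅Γ, Γ⁆ := by
  have h1 : Subgroup.map (MulAut.conj d).toMonoidHom Γ ≤ Γ := by
    rintro _ ⟨y, hy, rfl⟩
    exact h y hy
  have h2 : Subgroup.map (MulAut.conj d).toMonoidHom ⁅Γ, Γ⁆ ≤ ⁅Γ, Γ⁆ := by
    rw [Subgroup.map_commutator]
    exact Subgroup.commutator_mono h1 h1
  exact h2 ⟨x, hx, rfl⟩

/-- the closure form of normal generation -/
def NGen (Γ : Subgroup G) (μ : G) : Prop := Γ ≤ Subgroup.closure {x | ∃ γ ∈ Γ, x = γ * μ * γ⁻¹}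

theorem ngen_induction {Γ : Subgroup G} {μ : G} (hμ : μ ∈ Γ) (hg : NGen Γ μ) (p : G → Prop)
    (h1 : ∀ γ ∈ Γ, p (γ * μ * γ⁻¹)) (h2 : p 1) (h3 : ∀ x ∈ Γ, ∀ y ∈ Γ, p x → p y → p (x * y))
    (h4 : ∀ x ∈ Γ, p x → p x⁻¹) : ∀ x ∈ Γ, p x := by
  intro x hx
  have h5 := hg hx
  have h6 : Subgroup.closure {x | ∃ γ ∈ Γ, x = γ * μ * γ⁻¹} ≤ Γ := by
    rw [Subgroup.closure_le]
    rintro _ ⟨γ, hγ, rfl⟩
    exact Γ.mul_mem (Γ.mul_mem hγ hμ) (Γ.inv_mem hγ)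
  refine Subgroup.closure_induction (p := fun y _ => p y) ?_ h2 ?_ ?_ h5
  · rintro _ ⟨γ, hγ, rfl⟩
    exact h1 γ hγ
  · intro y z hy hz hpy hpz
    exact h3 y (h6 hy) z (h6 hz) hpy hpz
  · intro y hy hpy
    exact h4 y (h6 hy) hpy

theorem norm_of {Γ D : Subgroup G} {μ : G} (hμ : μ ∈ Γ) (hg : NGen Γ μ) (hΓD : Γ ≤ D)
    (h : ∀ g ∈ D, ∃ γ ∈ Γ, (γ * g) * μ * (γ * g)⁻¹ ∈ Γ) : ∀ g ∈ D, ∀ x ∈ Γ, g * x * g⁻¹ ∈ Γ := by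
  intro g hgD
  refine ngen_induction hμ hg (fun x => g * x * g⁻¹ ∈ Γ) ?_ ?_ ?_ ?_
  · intro γ hγ
    obtain ⟨δ, hδ, h1⟩ := h (g * γ) (D.mul_mem hgD (hΓD hγ))
    have h2 : g * (γ * μ * γ⁻¹) * g⁻¹ = δ⁻¹ * ((δ * (g * γ)) * μ * (δ * (g * γ))⁻¹) * δ := by group
    show g * (γ * μ * γ⁻¹) * g⁻¹ ∈ Γ
    rw [h2]
    exact Γ.mul_mem (Γ.mul_mem (Γ.inv_mem hδ) h1) hδ
  · show g * 1 * g⁻¹ ∈ Γ
    rw [mul_one, mul_inv_cancel]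
    exact Γ.one_mem
  · intro x _ y _ hx hy
    show g * (x * y) * g⁻¹ ∈ Γ
    have h2 : g * (x * y) * g⁻¹ = (g * x * g⁻¹) * (g * y * g⁻¹) := by group
    rw [h2]
    exact Γ.mul_mem hx hy
  · intro x _ hx
    show g * x⁻¹ * g⁻¹ ∈ Γ
    have h2 : g * x⁻¹ * g⁻¹ = (g * x * g⁻¹)⁻¹ := by group
    rw [h2]
    exact Γ.inv_mem hx

theorem cyclic_mod {Γ : Subgroup G} {μ : G} (hμ : μ ∈ Γ) (hg : NGen Γ μ) :
    ∀ x ∈ Γ, ∃ j : ℤ, μ ^ (-j) * x ∈ ⁅Γ, Γ⁆ := by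
  have hn : ∀ g ∈ Γ, ∀ x ∈ ⁅Γ, Γ⁆, g * x * g⁻¹ ∈ ⁅Γ, Γ⁆ := fun g hg x hx =>
    comm_conj (fun y hy => Γ.mul_mem (Γ.mul_mem hg hy) (Γ.inv_mem hg)) hx
  have hz : ∀ n : ℤ, μ ^ n ∈ Γ := fun n => Γ.zpow_mem hμ n
  refine ngen_induction hμ hg (fun x => ∃ j : ℤ, μ ^ (-j) * x ∈ ⁅Γ, Γ⁆) ?_ ?_ ?_ ?_
  · intro γ hγ
    refine ⟨1, ?_⟩
    have h1 : μ ^ (-1 : ℤ) * (γ * μ * γ⁻¹) = ⁅μ⁻¹, γ⁆ := by
      rw [commutatorElement_def]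
      group
    rw [h1]
    exact Subgroup.commutator_mem_commutator (Γ.inv_mem hμ) hγ
  · exact ⟨0, by simp⟩
  · rintro x _ y _ ⟨i, hi⟩ ⟨j, hj⟩
    refine ⟨i + j, ?_⟩
    have h1 : μ ^ (-(i + j)) * (x * y) = (μ ^ (-j) * (μ ^ (-i) * x) * (μ ^ (-j))⁻¹) * (μ ^ (-j) * y) := by
      rw [neg_add, zpow_add]
      have h2 : μ ^ (-i) * μ ^ (-j) = μ ^ (-j) * μ ^ (-i) := by rw [← zpow_add, ← zpow_add, add_comm]
      rw [h2]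
      group
    rw [h1]
    exact Subgroup.mul_mem _ (hn _ (hz _) _ hi) hj
  · rintro x hx ⟨i, hi⟩
    refine ⟨-i, ?_⟩
    have h1 : μ ^ (-(-i)) * x⁻¹ = x * (x⁻¹ * (μ ^ i * x⁻¹) * x) * x⁻¹ := by
      rw [neg_neg]
      group
    have h2 : μ ^ (-(-i)) * x⁻¹ = μ ^ i * (μ ^ (-i) * x)⁻¹ * (μ ^ i)⁻¹ := by
      rw [neg_neg]
      group
    rw [h2]
    exact hn _ (hz _) _ (Subgroup.inv_mem _ hi)

/-- the core -/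
theorem core {Γ D : Subgroup G} {μ r : G} (hμ : μ ∈ Γ) (hg : NGen Γ μ) (hΓD : Γ ≤ D)
    (hr2 : ∀ d ∈ D, r⁻¹ * d * r ∈ D) (hr1 : ∀ d ∈ D, r * d * r⁻¹ ∈ D)
    (hP : ∀ d ∈ D, ∃ γ ∈ Γ, (γ * d) * μ * (γ * d)⁻¹ ∈ Subgroup.zpowers μ ∧
      (r * (γ * d) * r⁻¹) * μ * (r * (γ * d) * r⁻¹)⁻¹ ∈ Subgroup.zpowers μ)
    (hν : Commute μ (r * μ * r⁻¹)) : ∀ x ∈ ⁅Γ, Γ⁆, r⁻¹ * x * r ∈ ⁅Γ, Γ⁆ := by
  have hz : Subgroup.zpowers μ ≤ Γ := by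
    rw [Subgroup.zpowers_le]
    exact hμ
  have S1 : ∀ g ∈ D, ∀ x ∈ Γ, g * x * g⁻¹ ∈ Γ := by
    refine norm_of hμ hg hΓD fun g hgD => ?_
    obtain ⟨γ, hγ, h1, -⟩ := hP g hgD
    exact ⟨γ, hγ, hz h1⟩
  -- `N = r Γ r⁻¹`, `N' = r [Γ, Γ] r⁻¹`
  obtain ⟨N, hN⟩ : ∃ N : Subgroup G, ∀ x, x ∈ N ↔ r⁻¹ * x * r ∈ Γ :=
    ⟨Γ.comap (MulAut.conj r⁻¹).toMonoidHom, fun x => by
      rw [Subgroup.mem_comap]
      show r⁻¹ * x * r⁻¹⁻¹ ∈ Γ ↔ _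
      rw [inv_inv]⟩
  obtain ⟨N', hN'⟩ : ∃ N' : Subgroup G, ∀ x, x ∈ N' ↔ r⁻¹ * x * r ∈ ⁅Γ, Γ⁆ :=
    ⟨⁅Γ, Γ⁆.comap (MulAut.conj r⁻¹).toMonoidHom, fun x => by
      rw [Subgroup.mem_comap]
      show r⁻¹ * x * r⁻¹⁻¹ ∈ ⁅Γ, Γ⁆ ↔ _
      rw [inv_inv]⟩
  have hcle : ⁅Γ, Γ⁆ ≤ Γ := by
    rw [Subgroup.commutator_le]
    intro x hx y hy
    rw [commutatorElement_def]
    exact Γ.mul_mem (Γ.mul_mem (Γ.mul_mem hx hy) (Γ.inv_mem hx)) (Γ.inv_mem hy)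
  have hN'N : N' ≤ N := fun x hx => (hN x).2 (hcle ((hN' x).1 hx))
  have hND : N ≤ D := fun x hx => by
    have h1 := hr1 _ (hΓD ((hN x).1 hx))
    have h2 : r * (r⁻¹ * x * r) * r⁻¹ = x := by group
    rwa [h2] at h1
  have S2 : ∀ d ∈ D, ∀ x ∈ N, d * x * d⁻¹ ∈ N := by
    intro d hd x hx
    rw [hN] at hx ⊢
    have h2 : r⁻¹ * (d * x * d⁻¹) * r = (r⁻¹ * d * r) * (r⁻¹ * x * r) * (r⁻¹ * d * r)⁻¹ := by group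
    rw [h2]
    exact S1 _ (hr2 d hd) _ hx
  have S3 : ∀ d ∈ D, ∀ x ∈ N', d * x * d⁻¹ ∈ N' := by
    intro d hd x hx
    rw [hN'] at hx ⊢
    have h2 : r⁻¹ * (d * x * d⁻¹) * r = (r⁻¹ * d * r) * (r⁻¹ * x * r) * (r⁻¹ * d * r)⁻¹ := by group
    rw [h2]
    exact comm_conj (S1 _ (hr2 d hd)) hx
  have S3' : ∀ x ∈ N, ∀ y ∈ N, x * y * x⁻¹ * y⁻¹ ∈ N' := by
    intro x hx y hy
    rw [hN] at hx hy
    rw [hN']
    have h2 : r⁻¹ * (x * y * x⁻¹ * y⁻¹) * r = ⁅r⁻¹ * x * r, r⁻¹ * y * r⁆ := by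
      rw [commutatorElement_def]
      group
    rw [h2]
    exact Subgroup.commutator_mem_commutator hx hy
  have hμD : μ ∈ D := hΓD hμ
  have S4 : ∀ x ∈ N, μ * x * μ⁻¹ * x⁻¹ ∈ N' := by
    intro x hx
    obtain ⟨j, hj⟩ := cyclic_mod hμ hg _ ((hN x).1 hx)
    set ν := r * μ * r⁻¹ with hνd
    have hνN : ν ∈ N := by
      rw [hN, hνd]
      have h2 : r⁻¹ * (r * μ * r⁻¹) * r = μ := by group
      rw [h2]
      exact hμ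
    set w := ν ^ (-j) * x with hw
    have hνz : ∀ n : ℤ, ν ^ n = r * μ ^ n * r⁻¹ := fun n => by rw [hνd, conj_zpow]
    have hwN : w ∈ N' := by
      rw [hN', hw, hνz]
      have h2 : r⁻¹ * (r * μ ^ (-j) * r⁻¹ * x) * r = μ ^ (-j) * (r⁻¹ * x * r) := by group
      rw [h2]
      exact hj
    have hx2 : x = ν ^ j * w := by
      rw [hw, ← mul_assoc, ← zpow_add, add_neg_cancel, zpow_zero, one_mul]
    have hcomm : μ * ν ^ j = ν ^ j * μ := (hν.zpow_right j).eq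
    have h3 : μ * x * μ⁻¹ * x⁻¹ = ν ^ j * ((μ * w * μ⁻¹) * w⁻¹) * (ν ^ j)⁻¹ := by
      rw [hx2]
      have h4 : μ * (ν ^ j * w) = ν ^ j * (μ * w) := by rw [← mul_assoc, hcomm, mul_assoc]
      rw [h4]
      group
    rw [h3]
    exact S3 _ (hND (N.zpow_mem hνN j)) _ (N'.mul_mem (S3 _ hμD _ hwN) (N'.inv_mem hwN))
  have S5 : ∀ n : ℤ, ∀ x ∈ N, μ ^ n * x * (μ ^ n)⁻¹ * x⁻¹ ∈ N' := by
    have hnat : ∀ n : ℕ, ∀ x ∈ N, μ ^ n * x * (μ ^ n)⁻¹ * x⁻¹ ∈ N' := by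
      intro n
      induction n with
      | zero =>
        intro x _
        simp
      | succ n ih =>
        intro x hx
        have h1 := ih x hx
        have h2 : μ ^ (n + 1) * x * (μ ^ (n + 1))⁻¹ * x⁻¹ =
            (μ * (μ ^ n * x * (μ ^ n)⁻¹ * x⁻¹) * μ⁻¹) * (μ * x * μ⁻¹ * x⁻¹) := by
          rw [pow_succ']
          group
        rw [h2]
        exact N'.mul_mem (S3 _ hμD _ h1) (S4 x hx)
    intro n x hx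
    cases n with
    | ofNat n =>
      have := hnat n x hx
      rw [Int.ofNat_eq_natCast, zpow_natCast]
      exact this
    | negSucc n =>
      have hy : (μ ^ (n + 1))⁻¹ * x * (μ ^ (n + 1)) ∈ N := by
        have := S2 ((μ ^ (n + 1))⁻¹) (D.inv_mem (D.pow_mem hμD _)) x hx
        rwa [inv_inv] at this
      have h1 := hnat (n + 1) _ hy
      rw [zpow_negSucc]
      have h2 : (μ ^ (n + 1))⁻¹ * x * ((μ ^ (n + 1))⁻¹)⁻¹ * x⁻¹ =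
          (μ ^ (n + 1) * ((μ ^ (n + 1))⁻¹ * x * (μ ^ (n + 1))) * (μ ^ (n + 1))⁻¹ *
            ((μ ^ (n + 1))⁻¹ * x * (μ ^ (n + 1)))⁻¹)⁻¹ := by group
      rw [h2]
      exact N'.inv_mem h1
  have S6 : ∀ x ∈ Γ, ∃ (n : ℤ) (h : G), h ∈ N ∧ x = μ ^ n * h := by
    refine ngen_induction hμ hg (fun x => ∃ (n : ℤ) (h : G), h ∈ N ∧ x = μ ^ n * h) ?_ ?_ ?_ ?_
    · intro γ hγ
      obtain ⟨δ, hδ, -, h2⟩ := hP _ (hr2 γ (hΓD hγ))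
      obtain ⟨e, he⟩ := Subgroup.mem_zpowers_iff.1 h2
      set h := (r * δ * r⁻¹)⁻¹ with hh
      have hhN : h ∈ N := by
        rw [hh]
        refine N.inv_mem ?_
        rw [hN]
        have h3 : r⁻¹ * (r * δ * r⁻¹) * r = δ := by group
        rw [h3]
        exact hδ
      set p := r * (δ * (r⁻¹ * γ * r)) * r⁻¹ with hp
      have hγ2 : γ = h * p := by
        rw [hh, hp]
        group
      refine ⟨e, (μ ^ e)⁻¹ * h * μ ^ e * h⁻¹, ?_, ?_⟩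
      · refine N.mul_mem ?_ (N.inv_mem hhN)
        have := S2 ((μ ^ e)⁻¹) (D.inv_mem (D.zpow_mem hμD e)) h hhN
        rwa [inv_inv] at this
      · have h4 : γ * μ * γ⁻¹ = h * (p * μ * p⁻¹) * h⁻¹ := by
          rw [hγ2]
          group
        rw [h4, ← he]
        group
    · exact ⟨0, 1, N.one_mem, by simp⟩
    · rintro x _ y _ ⟨n, h, hh, rfl⟩ ⟨m, k, hk, rfl⟩
      refine ⟨n + m, (μ ^ m)⁻¹ * h * μ ^ m * k, ?_, ?_⟩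
      · refine N.mul_mem ?_ hk
        have := S2 ((μ ^ m)⁻¹) (D.inv_mem (D.zpow_mem hμD m)) h hh
        rwa [inv_inv] at this
      · rw [zpow_add]
        group
    · rintro x _ ⟨n, h, hh, rfl⟩
      refine ⟨-n, μ ^ n * h⁻¹ * (μ ^ n)⁻¹, S2 _ (D.zpow_mem hμD n) _ (N.inv_mem hh), ?_⟩
      rw [zpow_neg]
      group
  have S7 : ⁅Γ, Γ⁆ ≤ N' := by
    rw [Subgroup.commutator_le]
    intro x hx y hy
    obtain ⟨n, h, hh, rfl⟩ := S6 x hx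
    obtain ⟨m, k, hk, rfl⟩ := S6 y hy
    rw [commutatorElement_def]
    have hhD := hND hh
    have hkD := hND hk
    have u1 := S5 n h hh
    have u2 := S5 (n + m) (k * h⁻¹) (N.mul_mem hk (N.inv_mem hh))
    have u3 := S5 m k⁻¹ (N.inv_mem hk)
    have u4 := S3' h hh k hk
    have h2 : μ ^ n * h * (μ ^ m * k) * (μ ^ n * h)⁻¹ * (μ ^ m * k)⁻¹ =
        (μ ^ n * h * (μ ^ n)⁻¹ * h⁻¹) *
        (h * (μ ^ (n + m) * (k * h⁻¹) * (μ ^ (n + m))⁻¹ * (k * h⁻¹)⁻¹) * h⁻¹) *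
        (h * k * h⁻¹ * k⁻¹) * (k * (μ ^ m * k⁻¹ * (μ ^ m)⁻¹ * k⁻¹⁻¹) * k⁻¹) := by
      rw [zpow_add]
      have h3 : μ ^ n * μ ^ m = μ ^ m * μ ^ n := by rw [← zpow_add, ← zpow_add, add_comm]
      have h4 : (μ ^ n * μ ^ m)⁻¹ = (μ ^ n)⁻¹ * (μ ^ m)⁻¹ := by rw [h3, mul_inv_rev]
      rw [h4]
      group
    rw [h2]
    exact N'.mul_mem (N'.mul_mem (N'.mul_mem u1 (S3 _ hhD _ u2)) u4) (S3 _ hkD _ u3)
  intro x hx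
  exact (hN' x).1 (S7 hx)

end Pool.Agent.HSK
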