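import Mathlib

/-!
# HSK/Lat: discrete subgroups of `ℂ`
-/

set_option autoImplicit false

noncomputable section

namespace Pool.Agent.HSK

/-- discreteness at `0` -/
def Sep (L : AddSubgroup ℂ) : Prop := ∃ ε : ℝ, 0 < ε ∧ ∀ β ∈ L, ‖β‖ < ε → β = 0

theorem sep_finite {L : AddSubgroup ℂ} (hL : Sep L) (R : ℝ) : {β : ℂ | β ∈ L ∧ ‖β‖ ≤ R}.Finite := by
  obtain ⟨ε, hε, h⟩ := hL
  obtain ⟨s, -, hs, hs2⟩ := (isCompact_closedBall (0 : ℂ) R).finite_cover_balls (half_pos hε)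
  refine Set.Finite.subset (Set.Finite.biUnion hs (t := fun x => {β : ℂ | β ∈ L ∧ β ∈ Metric.ball x (ε / 2)})
    fun x _ => ?_) ?_
  · refine Set.Subsingleton.finite ?_
    rintro β ⟨hβ, hβ2⟩ β' ⟨hβ', hβ2'⟩
    rw [← sub_eq_zero]
    refine h _ (L.sub_mem hβ hβ') ?_
    rw [← dist_eq_norm]
    have h1 := dist_triangle_right β β' x
    rw [Metric.mem_ball] at hβ2 hβ2'
    linarith
  · rintro β ⟨hβ, hβ2⟩
    have h1 : β ∈ Metric.closedBall (0 : ℂ) R := by rwa [mem_closedBall_zero_iff]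
    have h2 := hs2 h1
    rw [Set.mem_iUnion₂] at h2 ⊢
    obtain ⟨x, hx, hx2⟩ := h2
    exact ⟨x, hx, hβ, hx2⟩

theorem sep_pigeon {L : AddSubgroup ℂ} (hL : Sep L) (R : ℝ) (f : ℕ → ℂ) (hf : ∀ n, f n ∈ L)
    (hf2 : ∀ n, ‖f n‖ ≤ R) : ∃ n n' : ℕ, n < n' ∧ f n = f n' :=
  Set.Finite.exists_lt_map_eq_of_forall_mem (t := {β : ℂ | β ∈ L ∧ ‖β‖ ≤ R}) (fun n => ⟨hf n, hf2 n⟩)
    (sep_finite hL R)

theorem sep_mul_mem {L : AddSubgroup ℂ} {u : ℂ} (hu : u ∈ L) (n : ℤ) : (n : ℂ) * u ∈ L := by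
  rw [← zsmul_eq_mul]
  exact L.zsmul_mem hu n

theorem dep1 {L : AddSubgroup ℂ} (hL : Sep L) (h1 : (1 : ℂ) ∈ L) {x : ℂ} (hx : x ∈ L) (hx2 : x.im = 0) :
    ∃ (m : ℕ) (j : ℤ), 0 < m ∧ (m : ℂ) * x = j := by
  have hxr : x = (x.re : ℂ) := Complex.ext rfl (by rw [hx2, Complex.ofReal_im])
  obtain ⟨n, n', hn, h⟩ := sep_pigeon hL 1 (fun n => ((n : ℤ) : ℂ) * x - ((⌊(n : ℝ) * x.re⌋ : ℤ) : ℂ) * 1)
    (fun n => L.sub_mem (sep_mul_mem hx _) (sep_mul_mem h1 _)) (fun n => by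
      have h2 : ((n : ℤ) : ℂ) * x - ((⌊(n : ℝ) * x.re⌋ : ℤ) : ℂ) * 1 = ((Int.fract ((n : ℝ) * x.re) : ℝ) : ℂ) := by
        rw [Int.fract]
        conv_lhs => rw [hxr]
        push_cast
        rw [Complex.ofReal_re]
        ring
      rw [h2, Complex.norm_real, Real.norm_eq_abs, abs_of_nonneg (Int.fract_nonneg _)]
      exact (Int.fract_lt_one _).le)
  refine ⟨n' - n, ⌊(n' : ℝ) * x.re⌋ - ⌊(n : ℝ) * x.re⌋, Nat.sub_pos_of_lt hn, ?_⟩
  rw [Nat.cast_sub hn.le]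
  push_cast at h ⊢
  linear_combination -h

theorem dep2 {L : AddSubgroup ℂ} (hL : Sep L) {u v : ℂ} (hu : u ∈ L) (hv : v ∈ L)
    (huv : u.re * v.im - u.im * v.re ≠ 0) {β : ℂ} (hβ : β ∈ L) :
    ∃ (m : ℕ) (x y : ℤ), 0 < m ∧ (m : ℂ) * β = x * u + y * v := by
  set d : ℝ := u.re * v.im - u.im * v.re with hd
  set s : ℝ := (β.re * v.im - β.im * v.re) / d with hs
  set r : ℝ := (u.re * β.im - u.im * β.re) / d with hr
  have hβ2 : β = (s : ℂ) * u + (r : ℂ) * v := by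
    apply Complex.ext
    · simp only [Complex.add_re, Complex.mul_re, Complex.ofReal_re, Complex.ofReal_im, zero_mul, sub_zero]
      rw [hs, hr]
      field_simp
      rw [hd]
      ring
    · simp only [Complex.add_im, Complex.mul_im, Complex.ofReal_re, Complex.ofReal_im, zero_mul, add_zero]
      rw [hs, hr]
      field_simp
      rw [hd]
      ring
  obtain ⟨n, n', hn, h⟩ := sep_pigeon hL (‖u‖ + ‖v‖) (fun n => ((n : ℤ) : ℂ) * β -
      ((⌊(n : ℝ) * s⌋ : ℤ) : ℂ) * u - ((⌊(n : ℝ) * r⌋ : ℤ) : ℂ) * v)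
    (fun n => L.sub_mem (L.sub_mem (sep_mul_mem hβ _) (sep_mul_mem hu _)) (sep_mul_mem hv _)) (fun n => by
      have h2 : ((n : ℤ) : ℂ) * β - ((⌊(n : ℝ) * s⌋ : ℤ) : ℂ) * u - ((⌊(n : ℝ) * r⌋ : ℤ) : ℂ) * v =
          ((Int.fract ((n : ℝ) * s) : ℝ) : ℂ) * u + ((Int.fract ((n : ℝ) * r) : ℝ) : ℂ) * v := by
        rw [Int.fract, Int.fract]
        conv_lhs => rw [hβ2]
        push_cast
        ring
      rw [h2]
      refine (norm_add_le _ _).trans ?_
      rw [norm_mul, norm_mul, Complex.norm_real, Complex.norm_real, Real.norm_eq_abs, Real.norm_eq_abs,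
        abs_of_nonneg (Int.fract_nonneg _), abs_of_nonneg (Int.fract_nonneg _)]
      have h3 := (Int.fract_lt_one ((n : ℝ) * s)).le
      have h4 := (Int.fract_lt_one ((n : ℝ) * r)).le
      have h5 := mul_le_of_le_one_left (norm_nonneg u) h3
      have h6 := mul_le_of_le_one_left (norm_nonneg v) h4
      linarith)
  refine ⟨n' - n, ⌊(n' : ℝ) * s⌋ - ⌊(n : ℝ) * s⌋, ⌊(n' : ℝ) * r⌋ - ⌊(n : ℝ) * r⌋, Nat.sub_pos_of_lt hn, ?_⟩
  rw [Nat.cast_sub hn.le]
  push_cast at h ⊢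
  linear_combination -h

theorem unit_norm {L : AddSubgroup ℂ} (hL : Sep L) {a : ℂ} (ha : ∀ n : ℤ, a ^ n ∈ L) (h0 : a ≠ 0) : ‖a‖ = 1 := by
  obtain ⟨ε, hε, h⟩ := hL
  have key : ∀ b : ℂ, b ≠ 0 → (∀ n : ℕ, b ^ n ∈ L) → ¬ ‖b‖ < 1 := by
    intro b hb hbn hlt
    obtain ⟨n, hn⟩ := exists_pow_lt_of_lt_one hε hlt
    have h1 := h (b ^ n) (hbn n) (by rw [norm_pow]; exact hn)
    exact pow_ne_zero n hb h1
  rcases lt_trichotomy ‖a‖ 1 with h1 | h1 | h1
  · exact absurd h1 (key a h0 fun n => by have := ha n; rwa [zpow_natCast] at this)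
  · exact h1
  · refine absurd ?_ (key a⁻¹ (inv_ne_zero h0) fun n => by
      have := ha (-n)
      rwa [zpow_neg, zpow_natCast, ← inv_pow] at this)
    rw [norm_inv]
    exact inv_lt_one_of_one_lt₀ h1

theorem cryst {L : AddSubgroup ℂ} (hL : Sep L) {a : ℂ} (ha : ∀ n : ℤ, a ^ n ∈ L) (h0 : a ≠ 0) :
    a = 1 ∨ a = -1 ∨ a ^ 2 + 1 = 0 ∨ a ^ 2 + a + 1 = 0 ∨ a ^ 2 - a + 1 = 0 := by
  have hn := unit_norm hL ha h0
  have h1 : (1 : ℂ) ∈ L := by simpa using ha 0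
  obtain ⟨n, n', hlt, heq⟩ := sep_pigeon hL 1 (fun n => a ^ n)
    (fun n => by have := ha n; rwa [zpow_natCast] at this) (fun n => by rw [norm_pow, hn, one_pow])
  have hroot : a ^ (n' - n) = 1 := by
    have h2 : a ^ n * a ^ (n' - n) = a ^ n * 1 := by
      rw [← pow_add, Nat.add_sub_cancel' hlt.le, mul_one]
      exact heq.symm
    exact mul_left_cancel₀ (pow_ne_zero n h0) h2
  have hpos : 0 < n' - n := Nat.sub_pos_of_lt hlt
  have hint : IsIntegral ℤ a := by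
    refine IsIntegral.of_pow hpos ?_
    rw [hroot]
    exact isIntegral_one
  have hint' : IsIntegral ℤ a⁻¹ := by
    refine IsIntegral.of_pow hpos ?_
    rw [inv_pow, hroot, inv_one]
    exact isIntegral_one
  have hx : IsIntegral ℤ (a + a⁻¹) := hint.add hint'
  have hxL : a + a⁻¹ ∈ L := L.add_mem (by simpa using ha 1) (by simpa using ha (-1))
  have hconj : a⁻¹ = (starRingEnd ℂ) a := by
    rw [Complex.inv_def]
    have h3 : Complex.normSq a = 1 := by rw [Complex.normSq_eq_norm_sq, hn, one_pow]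
    rw [h3]
    simp
  have him : (a + a⁻¹).im = 0 := by rw [hconj, Complex.add_im, Complex.conj_im, add_neg_cancel]
  obtain ⟨m, j, hm, hmj⟩ := dep1 hL h1 hxL him
  have hmC : (m : ℂ) ≠ 0 := Nat.cast_ne_zero.2 hm.ne'
  obtain ⟨z, hz⟩ : ∃ z : ℤ, a + a⁻¹ = (z : ℂ) := by
    have h4 : a + a⁻¹ = algebraMap ℚ ℂ ((j : ℚ) / m) := by
      rw [eq_ratCast]
      push_cast
      rw [eq_div_iff hmC, mul_comm]
      exact hmj
    rw [h4] at hx
    have h5 : IsIntegral ℤ ((j : ℚ) / m) := (isIntegral_algebraMap_iff (algebraMap ℚ ℂ).injective).1 hx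
    obtain ⟨z, hz⟩ := IsIntegrallyClosed.isIntegral_iff.1 h5
    refine ⟨z, ?_⟩
    rw [h4, ← hz]
    simp
  have hle : ‖(z : ℂ)‖ ≤ 2 := by
    rw [← hz]
    refine (norm_add_le _ _).trans ?_
    rw [norm_inv, hn]
    norm_num
  have hz2 : |z| ≤ 2 := by
    rw [Complex.norm_intCast] at hle
    exact_mod_cast hle
  have hquad : a ^ 2 - z * a + 1 = 0 := by
    rw [← hz]
    field_simp
    ring
  obtain ⟨hz3, hz4⟩ := abs_le.1 hz2
  interval_cases z
  · right; left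
    have h6 : (a + 1) ^ 2 = 0 := by
      push_cast at hquad
      linear_combination hquad
    have h7 := pow_eq_zero_iff (two_ne_zero) |>.1 h6
    linear_combination h7
  · right; right; right; left
    push_cast at hquad
    linear_combination hquad
  · right; right; left
    push_cast at hquad
    linear_combination hquad
  · right; right; right; right
    push_cast at hquad
    linear_combination hquad
  · left
    have h6 : (a - 1) ^ 2 = 0 := by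
      push_cast at hquad
      linear_combination hquad
    have h7 := pow_eq_zero_iff (two_ne_zero) |>.1 h6
    linear_combination h7

end Pool.Agent.HSK
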