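import Pool.Agent.HSK.Defs

/-!
# HSK/Mat: matrices
-/

set_option autoImplicit false

noncomputable section

namespace Pool.Agent.HSK

open Matrix
open scoped MatrixGroups

theorem sq_one {r : ℂ} (h : r ^ 2 = 1) : r = 1 ∨ r = -1 := by
  have h1 : (r - 1) * (r + 1) = 0 := by linear_combination h
  rcases mul_eq_zero.1 h1 with h2 | h2
  · left
    linear_combination h2
  · right
    linear_combination h2

theorem cls_mul (A B : SL(2, ℂ)) : cls (A * B) = cls A * cls B := rfl

theorem cls_one : cls 1 = 1 := rfl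

theorem cls_inv (A : SL(2, ℂ)) : cls A⁻¹ = (cls A)⁻¹ := rfl

theorem cls_surj (g : PSL(2, ℂ)) : ∃ A, cls A = g := QuotientGroup.mk_surjective g

theorem cls_eq {A B : SL(2, ℂ)} : cls A = cls B ↔ A.1 = B.1 ∨ A.1 = -B.1 := by
  unfold cls
  rw [QuotientGroup.eq, Matrix.SpecialLinearGroup.mem_center_iff]
  constructor
  · rintro ⟨r, hr, h⟩
    have h2 : B.1 = A.1 * (A⁻¹ * B : SL(2, ℂ)).1 := by
      rw [← Matrix.SpecialLinearGroup.coe_mul, mul_inv_cancel_left]
    rw [← h] at h2
    have h3 : B.1 = r • A.1 := by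
      rw [h2]
      ext i j
      simp [Matrix.scalar_apply, Matrix.mul_diagonal, mul_comm]
    have hr' : r = 1 ∨ r = -1 := by
      have h4 : r ^ 2 = 1 := by simpa using hr
      exact sq_one h4
    rcases hr' with rfl | rfl
    · left
      rw [h3, one_smul]
    · right
      rw [h3, neg_smul, one_smul, neg_neg]
  · rintro (h | h)
    · refine ⟨1, by simp, ?_⟩
      have h1 : A = B := Subtype.ext h
      rw [h1, inv_mul_cancel]
      simp
    · refine ⟨-1, by simp, ?_⟩
      rw [Matrix.SpecialLinearGroup.coe_mul]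
      have h1 : B.1 = - A.1 := by rw [h, neg_neg]
      rw [h1, mul_neg, ← Matrix.SpecialLinearGroup.coe_mul, inv_mul_cancel]
      ext i j
      simp only [Matrix.scalar_apply, Matrix.SpecialLinearGroup.coe_one, Matrix.one_apply, Matrix.diagonal_apply,
        Matrix.neg_apply]
      split_ifs <;> simp

/-- translations -/
def T (β : ℂ) : SL(2, ℂ) := ⟨!![1, β; 0, 1], by simp [Matrix.det_fin_two]⟩

theorem T_coe (β : ℂ) : (T β).1 = !![1, β; 0, 1] := rfl

theorem T_add (β β' : ℂ) : T (β + β') = T β * T β' := by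
  apply Subtype.ext
  rw [Matrix.SpecialLinearGroup.coe_mul, T_coe, T_coe, T_coe]
  ext i j
  fin_cases i <;> fin_cases j <;> simp [add_comm]

theorem T_zero : T 0 = 1 := by
  apply Subtype.ext
  rw [T_coe, Matrix.SpecialLinearGroup.coe_one, Matrix.one_fin_two]

theorem T_neg (β : ℂ) : T (-β) = (T β)⁻¹ := by
  rw [eq_inv_iff_mul_eq_one, ← T_add, neg_add_cancel, T_zero]

theorem T_comm (β β' : ℂ) : T β * T β' = T β' * T β := by rw [← T_add, ← T_add, add_comm]

/-- the class of a translation -/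
def t (β : ℂ) : PSL(2, ℂ) := cls (T β)

theorem t_add (β β' : ℂ) : t (β + β') = t β * t β' := by
  unfold t
  rw [T_add, cls_mul]

theorem t_zero : t 0 = 1 := by
  unfold t
  rw [T_zero, cls_one]

theorem t_neg (β : ℂ) : t (-β) = (t β)⁻¹ := by
  unfold t
  rw [T_neg, cls_inv]

theorem t_comm (β β' : ℂ) : Commute (t β) (t β') := by
  show t β * t β' = t β' * t β
  rw [← t_add, ← t_add, add_comm]

/-- the homomorphism `β ↦ t β` -/
def tHom : Multiplicative ℂ →* PSL(2, ℂ) where
  toFun β := t β.toAdd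
  map_one' := t_zero
  map_mul' _ _ := t_add _ _

theorem t_nat (m : ℕ) (β : ℂ) : t (m * β) = t β ^ m := by
  induction m with
  | zero => rw [Nat.cast_zero, zero_mul, t_zero, pow_zero]
  | succ m ih => rw [Nat.cast_succ, add_mul, one_mul, t_add, ih, pow_succ]

theorem t_int (m : ℤ) (β : ℂ) : t (m * β) = t β ^ m := by
  cases m with
  | ofNat m => rw [Int.ofNat_eq_natCast, zpow_natCast, Int.cast_natCast, t_nat]
  | negSucc m =>
    rw [zpow_negSucc, Int.cast_negSucc, neg_mul, t_neg, t_nat]

theorem t_inj {β β' : ℂ} (h : t β = t β') : β = β' := by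
  rcases cls_eq.1 h with h | h
  · rw [T_coe, T_coe] at h
    have := congrFun (congrFun h 0) 1
    simpa using this
  · rw [T_coe, T_coe] at h
    have := congrFun (congrFun h 0) 0
    simp only [Matrix.of_apply, Matrix.cons_val', Matrix.cons_val_zero, Matrix.neg_apply] at this
    exfalso
    norm_num at this

theorem det_eq (A : SL(2, ℂ)) : A.1 0 0 * A.1 1 1 - A.1 0 1 * A.1 1 0 = 1 := by
  have := A.2
  rwa [Matrix.det_fin_two] at this

theorem up_mul {A : SL(2, ℂ)} (h : A.1 1 0 = 0) : A.1 0 0 * A.1 1 1 = 1 := by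
  have := det_eq A
  rw [h, mul_zero, sub_zero] at this
  exact this

theorem up_conj {A : SL(2, ℂ)} (h : A.1 1 0 = 0) (β : ℂ) : A * T β * A⁻¹ = T (A.1 0 0 ^ 2 * β) := by
  rw [mul_inv_eq_iff_eq_mul]
  apply Subtype.ext
  have h1 := up_mul h
  rw [Matrix.SpecialLinearGroup.coe_mul, Matrix.SpecialLinearGroup.coe_mul, T_coe, T_coe]
  ext i j
  fin_cases i <;> fin_cases j
  · simp [Matrix.mul_apply, Fin.sum_univ_two, h]
  · simp only [Matrix.mul_apply, Fin.sum_univ_two]
    simp
    linear_combination (-(A.1 0 0 * β)) * h1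
  · simp [Matrix.mul_apply, Fin.sum_univ_two, h]
  · simp [Matrix.mul_apply, Fin.sum_univ_two, h]

theorem t_conj {A : SL(2, ℂ)} (h : A.1 1 0 = 0) (β : ℂ) : cls A * t β * (cls A)⁻¹ = t (A.1 0 0 ^ 2 * β) := by
  unfold t
  rw [← cls_inv, ← cls_mul, ← cls_mul, up_conj h]

theorem up_prod {A B : SL(2, ℂ)} (hA : A.1 1 0 = 0) (hB : B.1 1 0 = 0) :
    (A * B).1 1 0 = 0 ∧ (A * B).1 0 0 = A.1 0 0 * B.1 0 0 := by
  rw [Matrix.SpecialLinearGroup.coe_mul]
  simp only [Matrix.mul_apply, Fin.sum_univ_two]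
  rw [hA, hB]
  constructor <;> ring

theorem up_inv {A : SL(2, ℂ)} (hA : A.1 1 0 = 0) : (A⁻¹).1 1 0 = 0 ∧ (A⁻¹).1 0 0 = A.1 1 1 := by
  rw [Matrix.SpecialLinearGroup.coe_inv, Matrix.adjugate_fin_two]
  constructor
  · simp [hA]
  · simp

theorem comm_t1 {A : SL(2, ℂ)} (h : Commute (cls A) (t 1)) : ∃ β, cls A = t β := by
  have h1 : cls (A * T 1) = cls (T 1 * A) := h
  have hd := det_eq A
  rcases cls_eq.1 h1 with h2 | h2
  · rw [Matrix.SpecialLinearGroup.coe_mul, Matrix.SpecialLinearGroup.coe_mul, T_coe] at h2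
    have h00 := congrFun (congrFun h2 0) 0
    have h01 := congrFun (congrFun h2 0) 1
    simp only [Matrix.mul_apply, Fin.sum_univ_two] at h00 h01
    simp at h00 h01
    have hc : A.1 1 0 = 0 := h00
    have had : A.1 0 0 = A.1 1 1 := by linear_combination h01
    rw [hc, ← had] at hd
    have hsq : A.1 0 0 ^ 2 = 1 := by linear_combination hd
    rcases sq_one hsq with h3 | h3
    · refine ⟨A.1 0 1, cls_eq.2 (Or.inl ?_)⟩
      rw [T_coe]
      ext i j
      fin_cases i <;> fin_cases j
      · simpa using h3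
      · rfl
      · simpa using hc
      · simpa [← had] using h3
    · refine ⟨-A.1 0 1, cls_eq.2 (Or.inr ?_)⟩
      rw [T_coe]
      ext i j
      fin_cases i <;> fin_cases j
      · simpa using h3
      · simp
      · simpa using hc
      · simpa [← had] using h3
  · exfalso
    rw [Matrix.SpecialLinearGroup.coe_mul, Matrix.SpecialLinearGroup.coe_mul, T_coe] at h2
    have h10 := congrFun (congrFun h2 1) 0
    have h00 := congrFun (congrFun h2 0) 0
    simp only [Matrix.mul_apply, Fin.sum_univ_two, Matrix.neg_apply] at h00 h10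
    simp at h00 h10
    have hc : A.1 1 0 = 0 := by
      have : (2 : ℂ) * A.1 1 0 = 0 := by linear_combination h10
      rcases mul_eq_zero.1 this with h | h
      · norm_num at h
      · exact h
    have ha : A.1 0 0 = 0 := by
      have : (2 : ℂ) * A.1 0 0 = 0 := by
        rw [hc] at h00
        linear_combination h00
      rcases mul_eq_zero.1 this with h | h
      · norm_num at h
      · exact h
    rw [hc, ha] at hd
    norm_num at hd

theorem up_of_conj {A : SL(2, ℂ)} {m β : ℂ} (hm : m ≠ 0) (h : cls A * t m * (cls A)⁻¹ = t β) :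
    A.1 1 0 = 0 := by
  rw [mul_inv_eq_iff_eq_mul] at h
  have h1 : cls (A * T m) = cls (T β * A) := h
  rcases cls_eq.1 h1 with h2 | h2
  · rw [Matrix.SpecialLinearGroup.coe_mul, Matrix.SpecialLinearGroup.coe_mul, T_coe, T_coe] at h2
    have h11 := congrFun (congrFun h2 1) 1
    simp only [Matrix.mul_apply, Fin.sum_univ_two] at h11
    simp at h11
    rcases h11 with h | h
    · exact h
    · exact absurd h hm
  · rw [Matrix.SpecialLinearGroup.coe_mul, Matrix.SpecialLinearGroup.coe_mul, T_coe, T_coe] at h2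
    have h10 := congrFun (congrFun h2 1) 0
    simp only [Matrix.mul_apply, Fin.sum_univ_two, Matrix.neg_apply] at h10
    simp at h10
    have : (2 : ℂ) * A.1 1 0 = 0 := by linear_combination h10
    rcases mul_eq_zero.1 this with h | h
    · norm_num at h
    · exact h

end Pool.Agent.HSK
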