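import Pool.Agent.HSK.Fld
import Pool.Agent.HSK.Lat
import Pool.Agent.HSK.Grp

/-!
# HSK/Norm: the theorem for a meridian of the form `z ↦ z + 1`
-/

set_option autoImplicit false

noncomputable section

namespace Pool.Agent.HSK

open Matrix
open scoped MatrixGroups commutatorElement

/-- normalised data -/
structure ND (Γ Δ : Subgroup PSL(2, ℂ)) (k : Subfield ℂ) : Prop where
  mem : t 1 ∈ Γ
  gen : NGen Γ (t 1)
  le : Γ ≤ Δ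
  cusp : ∀ g ∈ Γ, IsParabolic g → ∃ γ ∈ Γ, Commute (γ * g * γ⁻¹) (t 1)
  rank : ∃ τ : ℂ, t τ ∈ Γ ∧ ∀ a b : ℤ, (a : ℂ) + b * τ = 0 → a = 0 ∧ b = 0
  inf : ∀ m : ℕ, 0 < m → t (m : ℂ) ∉ ⁅Γ, Γ⁆
  pow : ∀ g ∈ Δ, ∃ m : ℕ, 0 < m ∧ g * t (m : ℂ) * g⁻¹ ∈ Γ
  disc : ∃ ε : ℝ, 0 < ε ∧ ∀ β, t β ∈ Δ → ‖β‖ < ε → β = 0
  tr : ∀ A, cls A ∈ Γ → A.1.trace ∈ k
  nn : ¬ (∀ g ∈ Δ, ∀ x ∈ Γ, g * x * g⁻¹ ∈ Γ)

variable {Γ Δ : Subgroup PSL(2, ℂ)} {k : Subfield ℂ}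

/-- the translations in `Δ` -/
def Lt (Δ : Subgroup PSL(2, ℂ)) : AddSubgroup ℂ where
  carrier := {β | t β ∈ Δ}
  zero_mem' := by
    show t 0 ∈ Δ
    rw [t_zero]
    exact Δ.one_mem
  add_mem' {a b} ha hb := by
    show t (a + b) ∈ Δ
    rw [t_add]
    exact Δ.mul_mem ha hb
  neg_mem' {a} ha := by
    show t (-a) ∈ Δ
    rw [t_neg]
    exact Δ.inv_mem ha

theorem mem_Lt {β : ℂ} : β ∈ Lt Δ ↔ t β ∈ Δ := Iff.rfl

theorem ND.sep (h : ND Γ Δ k) : Sep (Lt Δ) := by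
  obtain ⟨ε, hε, h1⟩ := h.disc
  exact ⟨ε, hε, fun β hβ hn => h1 β hβ hn⟩

theorem trace_conj (B C : SL(2, ℂ)) : (B * C * B⁻¹).1.trace = C.1.trace := by
  rw [Matrix.SpecialLinearGroup.coe_mul, Matrix.SpecialLinearGroup.coe_mul, Matrix.trace_mul_comm,
    ← Matrix.mul_assoc, ← Matrix.SpecialLinearGroup.coe_mul, inv_mul_cancel, Matrix.SpecialLinearGroup.coe_one,
    Matrix.one_mul]

theorem trace_T (β : ℂ) : (T β).1.trace = 2 := by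
  rw [T_coe, Matrix.trace_fin_two]
  simp
  norm_num

theorem t_par {β : ℂ} (hβ : β ≠ 0) : IsParabolic (t β) := by
  refine ⟨?_, T β, rfl, trace_T β⟩
  rw [← t_zero]
  intro h
  exact hβ (t_inj h)

/-- up to `Γ`, the elements of `Δ` fix the cusp -/
theorem ND.up (h : ND Γ Δ k) {g : PSL(2, ℂ)} (hg : g ∈ Δ) :
    ∃ γ ∈ Γ, ∃ A : SL(2, ℂ), A.1 1 0 = 0 ∧ cls A = γ * g := by
  obtain ⟨m, hm, h1⟩ := h.pow g hg
  have hm0 : (m : ℂ) ≠ 0 := Nat.cast_ne_zero.2 hm.ne'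
  obtain ⟨B, rfl⟩ := cls_surj g
  have hpar : IsParabolic (cls B * t (m : ℂ) * (cls B)⁻¹) := by
    refine ⟨?_, B * T m * B⁻¹, rfl, by rw [trace_conj, trace_T]⟩
    intro h2
    have h3 : t (m : ℂ) = 1 := by
      have h4 : t (m : ℂ) = (cls B)⁻¹ * (cls B * t (m : ℂ) * (cls B)⁻¹) * cls B := by group
      rw [h4, h2]
      group
    rw [← t_zero] at h3
    exact hm0 (t_inj h3)
  obtain ⟨γ, hγ, hc⟩ := h.cusp _ h1 hpar
  obtain ⟨C, rfl⟩ := cls_surj γ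
  have h5 : cls C * (cls B * t (m : ℂ) * (cls B)⁻¹) * (cls C)⁻¹ = cls (C * B) * t (m : ℂ) * (cls (C * B))⁻¹ := by
    rw [cls_mul]
    group
  have h6 : cls (C * B) * t (m : ℂ) * (cls (C * B))⁻¹ = cls (C * B * T m * (C * B)⁻¹) := rfl
  rw [h5, h6] at hc
  obtain ⟨β, hβ⟩ := comm_t1 hc
  refine ⟨cls C, hγ, C * B, up_of_conj hm0 (β := β) ?_, cls_mul _ _⟩
  rw [h6, hβ]

theorem cls_mul_up {A : SL(2, ℂ)} (hA : A.1 1 0 = 0) (β : ℂ) : cls A * t β * (cls A)⁻¹ = t (A.1 0 0 ^ 2 * β) :=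
  t_conj hA β

theorem up_ne {A : SL(2, ℂ)} (hA : A.1 1 0 = 0) : A.1 0 0 ≠ 0 := by
  intro h
  have := up_mul hA
  rw [h, zero_mul] at this
  exact zero_ne_one this

theorem ND.mult (h : ND Γ Δ k) {A : SL(2, ℂ)} (hA : A.1 1 0 = 0) (hΔ : cls A ∈ Δ) {β : ℂ} (hβ : β ∈ Lt Δ) :
    A.1 0 0 ^ 2 * β ∈ Lt Δ := by
  rw [mem_Lt, ← t_conj hA]
  exact Δ.mul_mem (Δ.mul_mem hΔ hβ) (Δ.inv_mem hΔ)

theorem ND.one_mem (h : ND Γ Δ k) : (1 : ℂ) ∈ Lt Δ := h.le h.mem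

theorem ND.zpow (h : ND Γ Δ k) {A : SL(2, ℂ)} (hA : A.1 1 0 = 0) (hΔ : cls A ∈ Δ) (n : ℤ) :
    (A.1 0 0 ^ 2) ^ n ∈ Lt Δ := by
  have key : ∀ B : SL(2, ℂ), B.1 1 0 = 0 → cls B ∈ Δ → ∀ n : ℕ, (B.1 0 0 ^ 2) ^ n ∈ Lt Δ := by
    intro B hB hB2 n
    induction n with
    | zero =>
      rw [pow_zero]
      exact h.one_mem
    | succ n ih =>
      rw [pow_succ']
      exact h.mult hB hB2 ih
  cases n with
  | ofNat n =>
    rw [Int.ofNat_eq_natCast, zpow_natCast]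
    exact key A hA hΔ n
  | negSucc n =>
    obtain ⟨h1, h2⟩ := up_inv hA
    have h3 := key A⁻¹ h1 (by rw [cls_inv]; exact Δ.inv_mem hΔ) (n + 1)
    rw [h2] at h3
    rw [zpow_negSucc]
    have h4 : ((A.1 0 0 ^ 2) ^ (n + 1))⁻¹ = (A.1 1 1 ^ 2) ^ (n + 1) := by
      rw [← inv_pow]
      congr 1
      have h5 := up_mul hA
      have h6 := up_ne hA
      field_simp
      linear_combination (-(A.1 0 0 * A.1 1 1) - 1) * h5
    rw [h4]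
    exact h3

theorem ND.cryst (h : ND Γ Δ k) {A : SL(2, ℂ)} (hA : A.1 1 0 = 0) (hΔ : cls A ∈ Δ) :
    A.1 0 0 ^ 2 = 1 ∨ A.1 0 0 ^ 2 = -1 ∨ (A.1 0 0 ^ 2) ^ 2 + 1 = 0 ∨ (A.1 0 0 ^ 2) ^ 2 + A.1 0 0 ^ 2 + 1 = 0 ∨
      (A.1 0 0 ^ 2) ^ 2 - A.1 0 0 ^ 2 + 1 = 0 :=
  Pool.Agent.HSK.cryst h.sep (h.zpow hA hΔ) (pow_ne_zero 2 (up_ne hA))

theorem ND.norm (h : ND Γ Δ k) {A : SL(2, ℂ)} (hA : A.1 1 0 = 0) (hΔ : cls A ∈ Δ) : ‖A.1 0 0 ^ 2‖ = 1 :=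
  unit_norm h.sep (h.zpow hA hΔ) (pow_ne_zero 2 (up_ne hA))

/-- a rotation at the cusp which moves the meridian out of `Γ` -/
theorem ND.exists_rot (h : ND Γ Δ k) : ∃ A : SL(2, ℂ), A.1 1 0 = 0 ∧ cls A ∈ Δ ∧ t (A.1 0 0 ^ 2) ∉ Γ := by
  by_contra hcon
  push Not at hcon
  refine h.nn (norm_of h.mem h.gen h.le fun g hg => ?_)
  obtain ⟨γ, hγ, A, hA, hA2⟩ := h.up hg
  refine ⟨γ, hγ, ?_⟩
  rw [← hA2, t_conj hA, mul_one]
  exact hcon A hA (by rw [hA2]; exact Δ.mul_mem (h.le hγ) hg)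

theorem t_one_pow (j : ℤ) : t 1 ^ j = t (j : ℂ) := by
  rw [← t_int, mul_one]

theorem t_pm {a : ℂ} (ha : a = 1 ∨ a = -1) : t a ∈ Subgroup.zpowers (t 1) := by
  rcases ha with rfl | rfl
  · exact Subgroup.mem_zpowers _
  · rw [t_neg]
    exact Subgroup.inv_mem _ (Subgroup.mem_zpowers _)

theorem im_ne {a : ℂ} (hn : ‖a‖ = 1) (h1 : a ≠ 1) (h2 : a ≠ -1) : a.im ≠ 0 := by
  intro h
  have h3 : a = (a.re : ℂ) := Complex.ext rfl (by rw [h, Complex.ofReal_im])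
  have h4 : |a.re| = 1 := by
    rw [h3, Complex.norm_real, Real.norm_eq_abs] at hn
    exact hn
  rcases (abs_eq zero_le_one).1 h4 with h5 | h5
  · rw [h5] at h3
    exact h1 (by rw [h3]; norm_num)
  · rw [h5] at h3
    exact h2 (by rw [h3]; norm_num)

/-- the subgroup generated by the conjugates of the translations -/
theorem cuspGen_conj {μ : PSL(2, ℂ)} {g x : PSL(2, ℂ)} (hg : g ∈ Δ) (hx : x ∈ cuspGen Δ μ) :
    g * x * g⁻¹ ∈ cuspGen Δ μ := by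
  unfold cuspGen at hx ⊢
  refine Subgroup.closure_induction (p := fun y _ => g * y * g⁻¹ ∈ Subgroup.closure _) ?_ ?_ ?_ ?_ hx
  · rintro _ ⟨δ, hδ, s, hs, hs2, hs3, rfl⟩
    refine Subgroup.subset_closure ⟨g * δ, Δ.mul_mem hg hδ, s, hs, hs2, hs3, ?_⟩
    group
  · show g * 1 * g⁻¹ ∈ _
    rw [mul_one, mul_inv_cancel]
    exact Subgroup.one_mem _
  · intro y z _ _ hy hz
    have h1 : g * (y * z) * g⁻¹ = (g * y * g⁻¹) * (g * z * g⁻¹) := by group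
    rw [h1]
    exact Subgroup.mul_mem _ hy hz
  · intro y _ hy
    have h1 : g * y⁻¹ * g⁻¹ = (g * y * g⁻¹)⁻¹ := by group
    rw [h1]
    exact Subgroup.inv_mem _ hy

theorem cuspGen_le {μ : PSL(2, ℂ)} : cuspGen Δ μ ≤ Δ := by
  unfold cuspGen
  rw [Subgroup.closure_le]
  rintro _ ⟨δ, hδ, s, hs, -, -, rfl⟩
  exact Δ.mul_mem (Δ.mul_mem hδ hs) (Δ.inv_mem hδ)

theorem t_mem_cuspGen {β : ℂ} (hβ : t β ∈ Δ) : t β ∈ cuspGen Δ (t 1) := by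
  by_cases h0 : β = 0
  · rw [h0, t_zero]
    exact Subgroup.one_mem _
  · refine Subgroup.subset_closure ⟨1, Δ.one_mem, t β, hβ, t_par h0, t_comm _ _, ?_⟩
    group

theorem ND.le_cuspGen (h : ND Γ Δ k) : Γ ≤ cuspGen Δ (t 1) := by
  intro x hx
  have h1 := h.gen hx
  refine (Subgroup.closure_le _).2 ?_ h1
  rintro _ ⟨γ, hγ, rfl⟩
  exact cuspGen_conj (h.le hγ) (t_mem_cuspGen (h.le h.mem))

theorem ND.tau (h : ND Γ Δ k) : ∃ τ : ℂ, t τ ∈ Γ ∧ τ.im ≠ 0 := by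
  obtain ⟨τ, hτ, h1⟩ := h.rank
  refine ⟨τ, hτ, fun him => ?_⟩
  obtain ⟨m, j, hm, hmj⟩ := dep1 h.sep h.one_mem (x := τ) (h.le hτ) him
  have h2 := (h1 (-j) m (by push_cast; linear_combination hmj)).2
  omega

/-- some element of `cuspGen` is a nontrivial rotation at the cusp -/
theorem ND.exists_rotD (h : ND Γ Δ k) :
    ∃ A : SL(2, ℂ), A.1 1 0 = 0 ∧ cls A ∈ cuspGen Δ (t 1) ∧ A.1 0 0 ^ 2 ≠ 1 ∧ A.1 0 0 ^ 2 ≠ -1 := by
  by_contra hcon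
  push Not at hcon
  have hD : ∀ A : SL(2, ℂ), A.1 1 0 = 0 → cls A ∈ cuspGen Δ (t 1) → A.1 0 0 ^ 2 = 1 ∨ A.1 0 0 ^ 2 = -1 := by
    intro A hA hA2
    by_cases h1 : A.1 0 0 ^ 2 = 1
    · exact Or.inl h1
    · exact Or.inr (hcon A hA hA2 h1)
  obtain ⟨R, hR, hRΔ, hRn⟩ := h.exists_rot
  have hR1 : R.1 0 0 ^ 2 ≠ 1 := fun h1 => hRn (by rw [h1]; exact h.mem)
  have hR2 : R.1 0 0 ^ 2 ≠ -1 := fun h1 => hRn (by rw [h1, t_neg]; exact Γ.inv_mem h.mem)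
  have him := im_ne (h.norm hR hRΔ) hR1 hR2
  have hcore := core (Γ := Γ) (D := cuspGen Δ (t 1)) (μ := t 1) (r := cls R) h.mem h.gen h.le_cuspGen
    (fun d hd => by
      have := cuspGen_conj (Δ.inv_mem hRΔ) hd
      rwa [inv_inv] at this)
    (fun d hd => cuspGen_conj hRΔ hd)
    (fun d hd => by
      obtain ⟨γ, hγ, A, hA, hA2⟩ := h.up (cuspGen_le hd)
      have hAD : cls A ∈ cuspGen Δ (t 1) := by
        rw [hA2]
        exact Subgroup.mul_mem _ (h.le_cuspGen hγ) hd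
      have h1 := hD A hA hAD
      refine ⟨γ, hγ, ?_, ?_⟩
      · rw [← hA2, t_conj hA, mul_one]
        exact t_pm h1
      · rw [← hA2, ← cls_inv R, ← cls_mul, ← cls_mul]
        obtain ⟨h2, h3⟩ := up_prod hR hA
        obtain ⟨h4, h5⟩ := up_inv hR
        obtain ⟨h6, h7⟩ := up_prod h2 h4
        rw [t_conj h6, mul_one, h7, h3, h5]
        have h8 := up_mul hR
        have h9 : (R.1 0 0 * A.1 0 0 * R.1 1 1) ^ 2 = A.1 0 0 ^ 2 := by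
          have : R.1 0 0 * A.1 0 0 * R.1 1 1 = A.1 0 0 := by linear_combination A.1 0 0 * h8
          rw [this]
        rw [h9]
        exact t_pm h1)
    (by
      rw [t_conj hR]
      exact t_comm _ _)
  obtain ⟨τ, hτ, hτim⟩ := h.tau
  obtain ⟨j, hj⟩ := cyclic_mod h.mem h.gen _ hτ
  set ℓ : ℂ := -j + τ with hℓ
  have hℓ1 : t ℓ ∈ ⁅Γ, Γ⁆ := by
    have h1 : t ℓ = t 1 ^ (-j) * t τ := by
      rw [hℓ, t_add, t_one_pow]
      push_cast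
      rfl
    rw [h1]
    exact hj
  have hℓim : ℓ.im ≠ 0 := by
    rw [hℓ, Complex.add_im, Complex.neg_im, Complex.intCast_im, neg_zero, zero_add]
    exact hτim
  obtain ⟨h4, h5⟩ := up_inv hR
  set b : ℂ := R.1 1 1 ^ 2 with hb
  have hab : R.1 0 0 ^ 2 * b = 1 := by
    have h8 := up_mul hR
    rw [hb]
    linear_combination (R.1 0 0 * R.1 1 1 + 1) * h8
  have hbim : b.im ≠ 0 := by
    refine im_ne ?_ ?_ ?_
    · have h6 := congrArg (fun z : ℂ => ‖z‖) hab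
      simp only [norm_mul, norm_one] at h6
      rw [h.norm hR hRΔ, one_mul] at h6
      exact h6
    · intro h6
      rw [h6, mul_one] at hab
      exact hR1 hab
    · intro h6
      rw [h6] at hab
      exact hR2 (by linear_combination -hab)
  have hbℓ : t (b * ℓ) ∈ ⁅Γ, Γ⁆ := by
    have h6 := hcore _ hℓ1
    have h7 : (cls R)⁻¹ * t ℓ * cls R = t (b * ℓ) := by
      have h8 := t_conj h4 ℓ
      rw [h5, cls_inv, inv_inv] at h8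
      exact h8
    rwa [h7] at h6
  have hcle : ⁅Γ, Γ⁆ ≤ Γ := by
    rw [Subgroup.commutator_le]
    intro x hx y hy
    rw [commutatorElement_def]
    exact Γ.mul_mem (Γ.mul_mem (Γ.mul_mem hx hy) (Γ.inv_mem hx)) (Γ.inv_mem hy)
  obtain ⟨m, x, y, hm, hmxy⟩ := dep2 h.sep (u := ℓ) (v := b * ℓ) (h.le (hcle hℓ1)) (h.le (hcle hbℓ))
    (by
      have h6 : ℓ.re * (b * ℓ).im - ℓ.im * (b * ℓ).re = b.im * (ℓ.re ^ 2 + ℓ.im ^ 2) := by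
        rw [Complex.mul_im, Complex.mul_re]
        ring
      rw [h6]
      refine mul_ne_zero hbim ?_
      have h7 : 0 < ℓ.im ^ 2 := by positivity
      have h8 : 0 ≤ ℓ.re ^ 2 := sq_nonneg _
      exact ne_of_gt (by linarith))
    (β := 1) h.one_mem
  refine h.inf m hm ?_
  rw [mul_one] at hmxy
  rw [hmxy, t_add, t_int, t_int]
  exact Subgroup.mul_mem _ (Subgroup.zpow_mem _ hℓ1 _) (Subgroup.zpow_mem _ hbℓ _)

end Pool.Agent.HSK
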