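import Mathlib

/-!
# HSK/Tr: the weighted transfer
-/

set_option autoImplicit false

namespace Pool.Agent.HSK

open scoped commutatorElement

variable {G : Type*} [Group G]

theorem transfer_inv {Γ Δ : Subgroup G} (hle : Γ ≤ Δ) {I : Type*} [Fintype I] (r : I → G)
    (hr : ∀ i, r i ∈ Δ) (hinj : ∀ i j, (r i)⁻¹ * r j ∈ Γ → i = j) (hsurj : ∀ δ ∈ Δ, ∃ i, (r i)⁻¹ * δ ∈ Γ)
    {A : Type*} [CommGroup A] (f : Γ →* A) (w : I → ℤ)
    (hw : ∀ i j, (∃ γ ∈ Γ, ∃ γ' ∈ Γ, r j = γ * r i * γ') → w i = w j) :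
    ∃ τ : Γ →* A, ∀ (g : Γ) (c : I → Γ), (∀ i, (g : G) * r i = r i * c i) → τ g = ∏ i, f (c i) ^ w i := by
  classical
  have h1 : ∀ (g : Γ) (i : I), ∃ j, (r j)⁻¹ * ((g : G) * r i) ∈ Γ := fun g i =>
    hsurj _ (Δ.mul_mem (hle g.2) (hr i))
  choose π hπ using h1
  have huniq : ∀ (g : Γ) (i j : I), (r j)⁻¹ * ((g : G) * r i) ∈ Γ → j = π g i := by
    intro g i j hj
    refine hinj j (π g i) ?_
    have h2 : (r j)⁻¹ * r (π g i) = ((r j)⁻¹ * ((g : G) * r i)) * ((r (π g i))⁻¹ * ((g : G) * r i))⁻¹ := by group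
    rw [h2]
    exact Γ.mul_mem hj (Γ.inv_mem (hπ g i))
  set c : Γ → I → Γ := fun g i => ⟨(r (π g i))⁻¹ * ((g : G) * r i), hπ g i⟩ with hc
  have hone : ∀ i, π 1 i = i := fun i => (huniq 1 i i (by
    have h2 : (r i)⁻¹ * (((1 : Γ) : G) * r i) = 1 := by rw [Subgroup.coe_one]; group
    rw [h2]
    exact Γ.one_mem)).symm
  have hmul : ∀ (g g' : Γ) (i : I), π (g * g') i = π g (π g' i) := by
    intro g g' i
    refine (huniq (g * g') i (π g (π g' i)) ?_).symm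
    have h2 : (r (π g (π g' i)))⁻¹ * (((g * g' : Γ) : G) * r i) =
        ((r (π g (π g' i)))⁻¹ * ((g : G) * r (π g' i))) * ((r (π g' i))⁻¹ * ((g' : G) * r i)) := by
      rw [Subgroup.coe_mul]
      group
    rw [h2]
    exact Γ.mul_mem (hπ g _) (hπ g' i)
  have hcmul : ∀ (g g' : Γ) (i : I), c (g * g') i = c g (π g' i) * c g' i := by
    intro g g' i
    apply Subtype.ext
    show (r (π (g * g') i))⁻¹ * (((g * g' : Γ) : G) * r i) =
      ((r (π g (π g' i)))⁻¹ * ((g : G) * r (π g' i))) * ((r (π g' i))⁻¹ * ((g' : G) * r i))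
    rw [hmul, Subgroup.coe_mul]
    group
  have hwπ : ∀ (g : Γ) (i : I), w (π g i) = w i := by
    intro g i
    refine (hw i (π g i) ⟨g, g.2, ((c g i : Γ) : G)⁻¹, Γ.inv_mem (c g i).2, ?_⟩).symm
    show r (π g i) = (g : G) * r i * ((r (π g i))⁻¹ * ((g : G) * r i))⁻¹
    group
  have hbij : ∀ g : Γ, Function.Bijective (π g) := by
    intro g
    refine ⟨fun i j hij => ?_, fun i => ⟨π g⁻¹ i, ?_⟩⟩
    · have h2 := congrArg (π g⁻¹) hij
      rwa [← hmul, ← hmul, inv_mul_cancel, hone, hone] at h2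
    · rw [← hmul, mul_inv_cancel, hone]
  refine ⟨{ toFun := fun g => ∏ i, f (c g i) ^ w i, map_one' := ?_, map_mul' := ?_ }, ?_⟩
  · refine Finset.prod_eq_one fun i _ => ?_
    have h2 : c 1 i = 1 := by
      apply Subtype.ext
      show (r (π 1 i))⁻¹ * (((1 : Γ) : G) * r i) = 1
      rw [hone, Subgroup.coe_one]
      group
    rw [h2, map_one, one_zpow]
  · intro g g'
    have h2 : ∀ i, f (c (g * g') i) ^ w i = f (c g (π g' i)) ^ w (π g' i) * f (c g' i) ^ w i := by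
      intro i
      rw [hcmul, map_mul, mul_zpow, hwπ]
    show ∏ i, f (c (g * g') i) ^ w i = (∏ i, f (c g i) ^ w i) * ∏ i, f (c g' i) ^ w i
    rw [Finset.prod_congr rfl fun i _ => h2 i, Finset.prod_mul_distrib]
    congr 1
    exact (hbij g').prod_comp (fun i => f (c g i) ^ w i)
  · intro g c' hc'
    show ∏ i, f (c g i) ^ w i = ∏ i, f (c' i) ^ w i
    refine Finset.prod_congr rfl fun i _ => ?_
    have h2 : π g i = i := (huniq g i i (by
      rw [hc' i]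
      have h3 : (r i)⁻¹ * (r i * (c' i : G)) = c' i := by group
      rw [h3]
      exact (c' i).2)).symm
    have h3 : c g i = c' i := by
      apply Subtype.ext
      show (r (π g i))⁻¹ * ((g : G) * r i) = c' i
      rw [h2, hc' i]
      group
    rw [h3]

theorem kills {Γ : Subgroup G} {A : Type*} [CommGroup A] (τ : Γ →* A) {x : G} (hx : x ∈ ⁅Γ, Γ⁆) (hxΓ : x ∈ Γ) :
    τ ⟨x, hxΓ⟩ = 1 := by
  rw [← Subgroup.map_subtype_commutator] at hx
  obtain ⟨z, hz, hzx⟩ := hx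
  have h1 : (⟨x, hxΓ⟩ : Γ) = z := Subtype.ext hzx.symm
  rw [h1]
  exact Abelianization.commutator_subset_ker τ hz

end Pool.Agent.HSK
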