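import Pool.Agent.HSK.Deg
import Pool.Agent.HSK.Tr

/-!
# HSK/Orb: the double cosets of `Γ` in `Δ`
-/

set_option autoImplicit false

noncomputable section

namespace Pool.Agent.HSK

open Matrix
open scoped MatrixGroups commutatorElement

variable {Γ Δ : Subgroup PSL(2, ℂ)} {k : Subfield ℂ}

theorem prod_zpow_sum {A I : Type*} [CommGroup A] (a : A) (s : Finset I) (f : I → ℤ) :
    ∏ i ∈ s, a ^ f i = a ^ (∑ i ∈ s, f i) := by
  classical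
  induction s using Finset.induction_on with
  | empty => rw [Finset.prod_empty, Finset.sum_empty, _root_.zpow_zero]
  | insert i s hi ih => rw [Finset.prod_insert hi, Finset.sum_insert hi, ih, _root_.zpow_add]

theorem ND.finiteQ (h : ND Γ Δ k) : Finite (Δ ⧸ Γ.subgroupOf Δ) := by
  obtain ⟨Q, hQ, hQ2⟩ := h.fin
  have := hQ.to_subtype
  choose! q hq c hc hqc using hQ2
  refine Finite.of_injective (fun i : Δ ⧸ Γ.subgroupOf Δ =>
    (⟨q ((Quotient.out i : Δ) : PSL(2, ℂ)), hq _ (Quotient.out i).2⟩ : Q)) ?_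
  intro i j hij
  have h1 : q ((Quotient.out i : Δ) : PSL(2, ℂ)) = q ((Quotient.out j : Δ) : PSL(2, ℂ)) := congrArg Subtype.val hij
  rw [← QuotientGroup.out_eq' i, ← QuotientGroup.out_eq' j]
  refine QuotientGroup.eq.2 ?_
  rw [Subgroup.mem_subgroupOf]
  show ((Quotient.out i : Δ) : PSL(2, ℂ))⁻¹ * ((Quotient.out j : Δ) : PSL(2, ℂ)) ∈ Γ
  rw [hqc _ (Quotient.out i).2, hqc _ (Quotient.out j).2, h1]
  have h2 : (q ((Quotient.out j : Δ) : PSL(2, ℂ)) * c ((Quotient.out i : Δ) : PSL(2, ℂ)))⁻¹ *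
      (q ((Quotient.out j : Δ) : PSL(2, ℂ)) * c ((Quotient.out j : Δ) : PSL(2, ℂ))) =
      (c ((Quotient.out i : Δ) : PSL(2, ℂ)))⁻¹ * c ((Quotient.out j : Δ) : PSL(2, ℂ)) := by group
  rw [h2]
  exact Γ.mul_mem (Γ.inv_mem (hc _ (Quotient.out i).2)) (hc _ (Quotient.out j).2)

/-- the meridian has infinite order in the abelianization -/
theorem ND.of_pow_one (h : ND Γ Δ k) {K : ℤ} (hK : (Abelianization.of (⟨t 1, h.mem⟩ : Γ)) ^ K = 1) : K = 0 := by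
  rw [← map_zpow] at hK
  have h1 : (⟨t 1, h.mem⟩ : Γ) ^ K ∈ commutator Γ := (QuotientGroup.eq_one_iff _).1 hK
  have h2 : t 1 ^ K ∈ ⁅Γ, Γ⁆ := by
    rw [← Subgroup.map_subtype_commutator]
    exact ⟨_, h1, by rw [Subgroup.coe_subtype, Subgroup.coe_zpow]⟩
  rw [t_one_pow] at h2
  rcases lt_trichotomy K 0 with h3 | h3 | h3
  · exfalso
    obtain ⟨m, rfl⟩ : ∃ m : ℕ, K = -m := ⟨K.natAbs, by omega⟩
    refine h.inf m (by omega) ?_
    have h4 := Subgroup.inv_mem _ h2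
    rw [← t_neg] at h4
    push_cast at h4
    rwa [neg_neg] at h4
  · exact h3
  · exfalso
    obtain ⟨m, rfl⟩ : ∃ m : ℕ, K = m := ⟨K.natAbs, by omega⟩
    exact h.inf m (by omega) (by push_cast at h2; exact h2)

/-- a translation in the commutator subgroup -/
theorem ND.ell (h : ND Γ Δ k) : ∃ ℓ : ℂ, t ℓ ∈ ⁅Γ, Γ⁆ ∧ t ℓ ∈ Γ ∧ ℓ.im ≠ 0 := by
  obtain ⟨τ, hτ, hτim⟩ := h.tau
  obtain ⟨j, hj⟩ := cyclic_mod h.mem h.gen _ hτ
  have h1 : t (-j + τ) = t 1 ^ (-j) * t τ := by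
    rw [t_add, t_one_pow]
    push_cast
    rfl
  refine ⟨-j + τ, ?_, ?_, ?_⟩
  · rw [h1]
    exact hj
  · rw [h1]
    exact Γ.mul_mem (Γ.zpow_mem h.mem _) hτ
  · rw [Complex.add_im, Complex.neg_im, Complex.intCast_im, neg_zero, zero_add]
    exact hτim

/-- opposite rotations in a double coset -/
theorem ND.opp (h : ND Γ Δ k) (htf : ∀ g ∈ Γ, ∀ n : ℕ, 0 < n → g ^ n = 1 → g = 1) {B : SL(2, ℂ)}
    (hB : B.1 1 0 = 0) (hBΔ : cls B ∈ Δ) (hBim : (B.1 0 0 ^ 2).im ≠ 0) :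
    ∃ C : SL(2, ℂ), C.1 1 0 = 0 ∧ cls C ∈ Δ ∧ (C.1 0 0 ^ 2).im * (B.1 0 0 ^ 2).im < 0 ∧
      ∃ γ ∈ Γ, ∃ γ' ∈ Γ, cls C = γ * cls B * γ' := by
  classical
  by_contra hcon
  have hcon2 : ∀ C : SL(2, ℂ), C.1 1 0 = 0 → cls C ∈ Δ → (∃ γ ∈ Γ, ∃ γ' ∈ Γ, cls C = γ * cls B * γ') →
      0 ≤ (C.1 0 0 ^ 2).im * (B.1 0 0 ^ 2).im := by
    intro C hC hCΔ hCB
    by_contra hlt
    push Not at hlt
    exact hcon ⟨C, hC, hCΔ, hlt, hCB⟩
  have hfin := h.finiteQ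
  have : Fintype (Δ ⧸ Γ.subgroupOf Δ) := Fintype.ofFinite _
  set I := Δ ⧸ Γ.subgroupOf Δ with hI
  obtain ⟨ℓ, hℓ, hℓΓ, hℓim⟩ := h.ell
  -- representatives
  set r : I → PSL(2, ℂ) := fun i => ((Quotient.out i : Δ) : PSL(2, ℂ)) with hr
  have hrΔ : ∀ i, r i ∈ Δ := fun i => (Quotient.out i).2
  have hrep : ∀ i, ∃ C : SL(2, ℂ), C.1 1 0 = 0 ∧ cls C ∈ Δ ∧ ∃ γ ∈ Γ, r i = cls C * γ := by
    intro i
    obtain ⟨γ, hγ, A, hA, hA2⟩ := h.up (Δ.inv_mem (hrΔ i))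
    refine ⟨A⁻¹, (up_inv hA).1, ?_, γ, hγ, ?_⟩
    · rw [cls_inv, hA2]
      exact Δ.inv_mem (Δ.mul_mem (h.le hγ) (Δ.inv_mem (hrΔ i)))
    · rw [cls_inv, hA2]
      group
  choose C hC hCΔ γ hγ hCr using hrep
  have hinj : ∀ i j, (r i)⁻¹ * r j ∈ Γ → i = j := by
    intro i j hij
    rw [← QuotientGroup.out_eq' i, ← QuotientGroup.out_eq' j]
    exact QuotientGroup.eq.2 (Subgroup.mem_subgroupOf.2 hij)
  have hsurj : ∀ δ ∈ Δ, ∃ i, (r i)⁻¹ * δ ∈ Γ := by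
    intro δ hδ
    refine ⟨QuotientGroup.mk ⟨δ, hδ⟩, ?_⟩
    have h1 := QuotientGroup.out_eq' (QuotientGroup.mk (s := Γ.subgroupOf Δ) (⟨δ, hδ⟩ : Δ))
    exact Subgroup.mem_subgroupOf.1 (QuotientGroup.eq.1 h1)
  -- the weight
  set w : I → ℤ := fun i => if ∃ γ ∈ Γ, ∃ γ' ∈ Γ, r i = γ * cls B * γ' then 1 else 0 with hw
  have hwinv : ∀ i j, (∃ γ ∈ Γ, ∃ γ' ∈ Γ, r j = γ * r i * γ') → w i = w j := by
    rintro i j ⟨g, hg, g', hg', hij⟩
    have h1 : (∃ γ ∈ Γ, ∃ γ' ∈ Γ, r i = γ * cls B * γ') ↔ (∃ γ ∈ Γ, ∃ γ' ∈ Γ, r j = γ * cls B * γ') := by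
      constructor
      · rintro ⟨a, ha, b, hb, hab⟩
        refine ⟨g * a, Γ.mul_mem hg ha, b * g', Γ.mul_mem hb hg', ?_⟩
        rw [hij, hab]
        group
      · rintro ⟨a, ha, b, hb, hab⟩
        refine ⟨g⁻¹ * a, Γ.mul_mem (Γ.inv_mem hg) ha, b * g'⁻¹, Γ.mul_mem hb (Γ.inv_mem hg'), ?_⟩
        have h2 : r i = g⁻¹ * r j * g'⁻¹ := by
          rw [hij]
          group
        rw [h2, hab]
        group
    rw [hw]
    simp only [h1]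
  obtain ⟨τ, hτ⟩ := transfer_inv h.le r hrΔ hinj hsurj (Abelianization.of (G := Γ)) w hwinv
  -- the multiple
  have hm : ∀ i, ∃ (m : ℕ) (x y : ℤ), 0 < m ∧ (m : ℂ) * ((C i).1 1 1 ^ 2 * ℓ) = x * 1 + y * ℓ := by
    intro i
    refine dep2 h.sep h.one_mem (h.le hℓΓ) (by
      rw [Complex.one_re, Complex.one_im, one_mul, zero_mul, sub_zero]
      exact hℓim) ?_
    obtain ⟨h1, h2⟩ := up_inv (hC i)
    rw [← h2]
    exact h.mult h1 (by rw [cls_inv]; exact Δ.inv_mem (hCΔ i)) (h.le hℓΓ)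
  choose m x y hm0 hmxy using hm
  set N : ℕ := ∏ i, m i with hN
  have hN0 : 0 < N := Finset.prod_pos fun i _ => hm0 i
  have hdvd : ∀ i, ∃ e : ℕ, N = m i * e := fun i => Finset.dvd_prod_of_mem m (Finset.mem_univ i)
  choose e he using hdvd
  have hNe : ∀ i, (N : ℂ) * ((C i).1 1 1 ^ 2 * ℓ) = ((e i * x i : ℤ) : ℂ) + ((e i * y i : ℤ) : ℂ) * ℓ := by
    intro i
    rw [he i]
    push_cast
    linear_combination (e i : ℂ) * hmxy i
  have htXY : ∀ X Y : ℤ, t ((X : ℂ) + (Y : ℂ) * ℓ) ∈ Γ := by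
    intro X Y
    rw [t_add, ← t_one_pow, t_int]
    exact Γ.mul_mem (Γ.zpow_mem h.mem _) (Γ.zpow_mem hℓΓ _)
  have hofXY : ∀ X Y : ℤ, Abelianization.of (⟨_, htXY X Y⟩ : Γ) = Abelianization.of (⟨t 1, h.mem⟩ : Γ) ^ X := by
    intro X Y
    have h1 : (⟨_, htXY X Y⟩ : Γ) = (⟨t 1, h.mem⟩ : Γ) ^ X * (⟨t ℓ, hℓΓ⟩ : Γ) ^ Y := by
      apply Subtype.ext
      rw [Subgroup.coe_mul, Subgroup.coe_zpow, Subgroup.coe_zpow]
      show t ((X : ℂ) + (Y : ℂ) * ℓ) = t 1 ^ X * t ℓ ^ Y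
      rw [t_add, ← t_one_pow, t_int]
    rw [h1, map_mul, map_zpow, map_zpow, kills _ hℓ hℓΓ, _root_.one_zpow, mul_one]
  -- evaluation
  have hNℓ : t ((N : ℂ) * ℓ) ∈ ⁅Γ, Γ⁆ := by
    rw [t_nat]
    exact Subgroup.pow_mem _ hℓ N
  have hNℓΓ : t ((N : ℂ) * ℓ) ∈ Γ := by
    rw [t_nat]
    exact Γ.pow_mem hℓΓ N
  have hkill := kills τ hNℓ hNℓΓ
  set g : Γ := ⟨t ((N : ℂ) * ℓ), hNℓΓ⟩ with hg
  set c : I → Γ := fun i => (⟨γ i, hγ i⟩ : Γ)⁻¹ * ⟨_, htXY (e i * x i) (e i * y i)⟩ * ⟨γ i, hγ i⟩ with hc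
  have hgr : ∀ i, (g : PSL(2, ℂ)) * r i = r i * c i := by
    intro i
    rw [hCr i]
    show t ((N : ℂ) * ℓ) * (cls (C i) * γ i) = cls (C i) * γ i *
      ((γ i)⁻¹ * t (((e i * x i : ℤ) : ℂ) + ((e i * y i : ℤ) : ℂ) * ℓ) * γ i)
    obtain ⟨h1, h2⟩ := up_inv (hC i)
    have h3 := t_conj h1 ((N : ℂ) * ℓ)
    rw [h2, cls_inv, inv_inv] at h3
    have h4 : (C i).1 1 1 ^ 2 * ((N : ℂ) * ℓ) = ((e i * x i : ℤ) : ℂ) + ((e i * y i : ℤ) : ℂ) * ℓ := by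
      rw [← hNe i]
      ring
    rw [← h4, ← h3]
    group
  rw [hτ g c hgr] at hkill
  have hfc : ∀ i, Abelianization.of (c i) ^ w i = Abelianization.of (⟨t 1, h.mem⟩ : Γ) ^ (e i * x i * w i) := by
    intro i
    rw [hc]
    simp only
    rw [map_mul, map_mul, map_inv, hofXY, mul_comm, mul_inv_cancel_left, ← _root_.zpow_mul]
  rw [Finset.prod_congr rfl fun i _ => hfc i, prod_zpow_sum] at hkill
  have hsum := h.of_pow_one hkill
  -- imaginary parts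
  have hX : ∀ i, ((e i * x i : ℤ) : ℝ) * ℓ.im = (N : ℝ) * Complex.normSq ℓ * ((C i).1 0 0 ^ 2).im := by
    intro i
    have h1 := h.norm (hC i) (hCΔ i)
    have h2 : ((C i).1 0 0 ^ 2) * ((C i).1 1 1 ^ 2) = 1 := by
      have := up_mul (hC i)
      linear_combination ((C i).1 0 0 * (C i).1 1 1 + 1) * this
    set b := (C i).1 0 0 ^ 2 with hb
    set b' := (C i).1 1 1 ^ 2 with hb'
    have h3 : b' = (starRingEnd ℂ) b := by
      have h4 : b * (starRingEnd ℂ) b = 1 := by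
        rw [Complex.mul_conj, Complex.normSq_eq_norm_sq, h1]
        norm_num
      have h5 : b ≠ 0 := left_ne_zero_of_mul_eq_one h2
      exact mul_left_cancel₀ h5 (h2.trans h4.symm)
    have h4 : ((N : ℂ) * ((C i).1 1 1 ^ 2 * ℓ) * (starRingEnd ℂ) ℓ).im =
        ((((e i * x i : ℤ) : ℂ) + ((e i * y i : ℤ) : ℂ) * ℓ) * (starRingEnd ℂ) ℓ).im := by rw [hNe i]
    rw [← hb', h3] at h4
    have h5 : (N : ℂ) * ((starRingEnd ℂ) b * ℓ) * (starRingEnd ℂ) ℓ = ((N * Complex.normSq ℓ : ℝ) : ℂ) * (starRingEnd ℂ) b := by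
      have h6 : (N : ℂ) * ((starRingEnd ℂ) b * ℓ) * (starRingEnd ℂ) ℓ = (N : ℂ) * (ℓ * (starRingEnd ℂ) ℓ) * (starRingEnd ℂ) b := by
        ring
      rw [h6, Complex.mul_conj]
      push_cast
      ring
    have h7 : (((e i * x i : ℤ) : ℂ) + ((e i * y i : ℤ) : ℂ) * ℓ) * (starRingEnd ℂ) ℓ =
        (((e i * x i : ℤ) : ℝ) : ℂ) * (starRingEnd ℂ) ℓ + ((((e i * y i : ℤ) : ℝ) * Complex.normSq ℓ : ℝ) : ℂ) := by
      have h6 : (((e i * x i : ℤ) : ℂ) + ((e i * y i : ℤ) : ℂ) * ℓ) * (starRingEnd ℂ) ℓ =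
        ((e i * x i : ℤ) : ℂ) * (starRingEnd ℂ) ℓ + ((e i * y i : ℤ) : ℂ) * (ℓ * (starRingEnd ℂ) ℓ) := by ring
      rw [h6, Complex.mul_conj]
      push_cast
      ring
    rw [h5, h7, Complex.im_ofReal_mul, Complex.add_im, Complex.im_ofReal_mul, Complex.ofReal_im, Complex.conj_im,
      Complex.conj_im] at h4
    linarith
  have hsumR : ∑ i, ((w i : ℤ) : ℝ) * ((C i).1 0 0 ^ 2).im = 0 := by
    have h1 : (∑ i, ((e i * x i * w i : ℤ) : ℝ)) * ℓ.im = 0 := by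
      have h2 : (∑ i, ((e i * x i * w i : ℤ) : ℝ)) = 0 := by exact_mod_cast hsum
      rw [h2, zero_mul]
    rw [Finset.sum_mul] at h1
    have h3 : ∀ i, ((e i * x i * w i : ℤ) : ℝ) * ℓ.im =
        ((N : ℝ) * Complex.normSq ℓ) * (((w i : ℤ) : ℝ) * ((C i).1 0 0 ^ 2).im) := by
      intro i
      have h4 := hX i
      push_cast at h4 ⊢
      linear_combination (w i : ℝ) * h4
    rw [Finset.sum_congr rfl fun i _ => h3 i, ← Finset.mul_sum] at h1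
    rcases mul_eq_zero.1 h1 with h4 | h4
    · exfalso
      have h5 : 0 < Complex.normSq ℓ := Complex.normSq_pos.2 (by rintro rfl; exact hℓim rfl)
      have h6 : (0 : ℝ) < N := by exact_mod_cast hN0
      have h7 := mul_pos h6 h5
      rw [h4] at h7
      exact lt_irrefl _ h7
    · exact h4
  -- all terms have the same sign
  have hge : ∀ i ∈ Finset.univ, 0 ≤ ((w i : ℤ) : ℝ) * ((C i).1 0 0 ^ 2).im * (B.1 0 0 ^ 2).im := by
    intro i _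
    by_cases h1 : ∃ γ ∈ Γ, ∃ γ' ∈ Γ, r i = γ * cls B * γ'
    · have h2 : w i = 1 := if_pos h1
      obtain ⟨a, ha, b, hb, hab⟩ := h1
      have h3 := hcon2 (C i) (hC i) (hCΔ i) ⟨a, ha, b * (γ i)⁻¹, Γ.mul_mem hb (Γ.inv_mem (hγ i)), by
        have h4 : cls (C i) = r i * (γ i)⁻¹ := by
          rw [hCr i]
          group
        rw [h4, hab]
        group⟩
      rw [h2]
      push_cast
      rw [one_mul]
      exact h3
    · have h2 : w i = 0 := if_neg h1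
      rw [h2]
      push_cast
      rw [zero_mul, zero_mul]
  have hzero : ∑ i, ((w i : ℤ) : ℝ) * ((C i).1 0 0 ^ 2).im * (B.1 0 0 ^ 2).im = 0 := by
    rw [← Finset.sum_mul, hsumR, zero_mul]
  have hall := (Finset.sum_eq_zero_iff_of_nonneg hge).1 hzero
  obtain ⟨i0, hi0⟩ := hsurj _ hBΔ
  have h1 : w i0 = 1 := if_pos ⟨1, Γ.one_mem, ((r i0)⁻¹ * cls B)⁻¹, Γ.inv_mem hi0, by group⟩
  have h2 := hall i0 (Finset.mem_univ _)
  -- the multiplier of `C i0`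
  have h3 : (C i0).1 0 0 ^ 2 = B.1 0 0 ^ 2 := by
    obtain ⟨u1, u2⟩ := up_inv (hC i0)
    obtain ⟨u3, u4⟩ := up_prod u1 hB
    have h4 : cls ((C i0)⁻¹ * B) ∈ Γ := by
      rw [cls_mul, cls_inv]
      have h5 : (cls (C i0))⁻¹ * cls B = γ i0 * ((r i0)⁻¹ * cls B) := by
        rw [hCr i0]
        group
      rw [h5]
      exact Γ.mul_mem (hγ i0) hi0
    have h5 := h.gamma_up htf u3 h4
    rw [u4, u2] at h5
    have h6 := up_mul (hC i0)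
    set p := (C i0).1 0 0
    set p' := (C i0).1 1 1
    set q := B.1 0 0
    linear_combination q ^ 2 * (p * p' + 1) * h6 - p ^ 2 * h5
  rw [h1, h3] at h2
  push_cast at h2
  rw [one_mul] at h2
  exact hBim (mul_self_eq_zero.1 h2)

end Pool.Agent.HSK
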